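import Pool.Agent.LibRP11.ADefs

/-!
[RP11 A1] an orthogonal complement of block matrices. `exists_orth` (LibHR84/Lin.lean) is the case of one
colour; its proof works for an arbitrary finite type `ρ` of rows instead of `Fin r` (copy it, or transport with
`Fintype.equivFin`). Apply it for every colour `j` to the rows `{x // κ x = j}`, the columns `{a // μ a = j}` and
`{b // ν b = j}`, with the bijection induced by `e` (`he`). Then
`Y x b = if h : κ x = ν b then Y_(ν b) ⟨x, h⟩ ⟨b, rfl⟩ else 0`. `det (Yᵀ Y) ≠ 0`: if it is `0` then `Y v = 0` for some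
`v ≠ 0` (`dep_of_det`); the rows of the colour `j` give `Y_j (v restricted to the colour j) = 0`, hence
`Y_jᵀ Y_j v_j = 0` and `v_j = 0` (`Matrix.eq_zero_of_mulVec_eq_zero`). `Qᵀ Y = 0`: the sum over `x` at `(a, b)` is zero
unless `μ a = ν b = j`, and then it is the sum over the `x` of the colour `j`.
-/

open Matrix Pool.Agent.LibHR84
open scoped Classical

namespace Pool.Agent.LibRP11

theorem A1_orth {ρ α β : Type} [Fintype ρ] [Fintype α] [DecidableEq α] [Fintype β]
    [DecidableEq β] (e : ρ ≃ α ⊕ β) (Q : Matrix ρ α ℤ) :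
    ∃ Y : Matrix ρ β ℤ, Qᵀ * Y = 0 ∧ ∀ v : β → ℤ, Y.mulVec v = 0 → v = 0 := by
  let i := Fintype.equivFin ρ
  obtain ⟨Y, h1, h2⟩ := exists_orth (i.symm.trans e) (Q.submatrix i.symm id)
  refine ⟨Y.submatrix i id, ?_, fun v hv => ?_⟩
  · have h3 : Qᵀ * Y.submatrix i id = ((Q.submatrix i.symm id)ᵀ * Y) := by
      ext a b
      rw [Matrix.mul_apply, Matrix.mul_apply, ← Equiv.sum_comp i]
      refine Finset.sum_congr rfl fun x _ => ?_
      simp [Matrix.transpose_apply, Matrix.submatrix_apply]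
    rw [h3, h1]
  · have h3 : Y.mulVec v = 0 := by
      funext x
      have h4 := congrFun hv (i.symm x)
      simp only [Matrix.mulVec, dotProduct, Matrix.submatrix_apply, Equiv.apply_symm_apply, id_eq,
        Pi.zero_apply] at h4
      exact h4
    refine Matrix.eq_zero_of_mulVec_eq_zero h2 ?_
    rw [← Matrix.mulVec_mulVec, h3, Matrix.mulVec_zero]

theorem exists_orthB {s r : ℕ} {α β : Type} [Fintype α] [DecidableEq α] [Fintype β]
    [DecidableEq β] {κ : Fin r → Fin s} {μ : α → Fin s} {ν : β → Fin s} (e : Fin r ≃ α ⊕ β)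
    (he : ∀ x, Sum.elim μ ν (e x) = κ x) (Q : Matrix (Fin r) α ℤ) (hQ : BlkG κ μ Q) :
    ∃ Y : Matrix (Fin r) β ℤ, BlkG κ ν Y ∧ Qᵀ * Y = 0 ∧ (Yᵀ * Y).det ≠ 0 := by
  have hj : ∀ j : Fin s, ∃ Y : Matrix {x // κ x = j} {b // ν b = j} ℤ,
      (Matrix.of fun (x : {x // κ x = j}) (a : {a // μ a = j}) => Q x.1 a.1)ᵀ * Y = 0 ∧
      ∀ v : {b // ν b = j} → ℤ, Y.mulVec v = 0 → v = 0 := by
    intro j
    let e1 : {x // κ x = j} ≃ {y : α ⊕ β // Sum.elim μ ν y = j} :=
      e.subtypeEquiv fun x => by rw [he]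
    let e2 : {y : α ⊕ β // Sum.elim μ ν y = j} ≃ {a // μ a = j} ⊕ {b // ν b = j} :=
      Equiv.subtypeSum
    exact A1_orth (e1.trans e2) _
  choose Yj hY1 hY2 using hj
  let Y : Matrix (Fin r) β ℤ := fun x b => if h : κ x = ν b then Yj (ν b) ⟨x, h⟩ ⟨b, rfl⟩ else 0
  have hYe : ∀ (j : Fin s) (x : {x // κ x = j}) (b : {b // ν b = j}), Y x.1 b.1 = Yj j x b := by
    rintro j ⟨x, hx⟩ ⟨b, rfl⟩
    exact dif_pos hx
  have hYb : BlkG κ ν Y := fun x b h => dif_neg fun h' => h h'.symm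
  refine ⟨Y, hYb, ?_, fun h0 => ?_⟩
  · ext a b
    rw [Matrix.mul_apply, Matrix.zero_apply]
    by_cases hab : μ a = ν b
    · rw [← Fintype.sum_subtype_add_sum_subtype (fun x => κ x = ν b)]
      have h1 := congrFun (congrFun (hY1 (ν b)) ⟨a, hab⟩) ⟨b, rfl⟩
      rw [Matrix.mul_apply, Matrix.zero_apply] at h1
      have h2 : ∑ x : {x // κ x = ν b}, Qᵀ a x.1 * Y x.1 b = 0 := by
        rw [← h1]
        refine Finset.sum_congr rfl fun x _ => ?_
        rw [hYe (ν b) x ⟨b, rfl⟩]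
        rfl
      have h3 : ∑ x : {x // ¬ κ x = ν b}, Qᵀ a x.1 * Y x.1 b = 0 :=
        Finset.sum_eq_zero fun x _ => by
          rw [hYb x.1 b fun h => x.2 h.symm, mul_zero]
      rw [h2, h3, add_zero]
    · refine Finset.sum_eq_zero fun x _ => ?_
      by_cases hx : κ x = ν b
      · rw [Matrix.transpose_apply, hQ x a fun h => hab (h.trans hx), zero_mul]
      · rw [hYb x b fun h => hx h.symm, mul_zero]
  · obtain ⟨v, hv, h1⟩ := dep_of_det h0
    apply hv
    funext b
    have h2 : (fun c : {c // ν c = ν b} => v c.1) = 0 := by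
      refine hY2 (ν b) _ ?_
      funext x
      have h3 := congrFun h1 x.1
      simp only [Matrix.mulVec, dotProduct, Pi.zero_apply] at h3 ⊢
      rw [← Fintype.sum_subtype_add_sum_subtype (fun c => ν c = ν b)] at h3
      have h4 : ∑ c : {c // ¬ ν c = ν b}, Y x.1 c.1 * v c.1 = 0 :=
        Finset.sum_eq_zero fun c _ => by
          rw [hYb x.1 c.1 fun h => c.2 (h.trans x.2), zero_mul]
      rw [h4, add_zero] at h3
      rw [← h3]
      exact Finset.sum_congr rfl fun c _ => by rw [hYe]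
    exact congrFun h2 ⟨b, rfl⟩

end Pool.Agent.LibRP11
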