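import Mathlib

/-!
[RP11 L1] (linear algebra, only Mathlib) `det_blocks`: `P = X * M * X'ᵀ` (over `ℝ`), where `M` is the
block diagonal matrix with the blocks `β i ⊗ₖ Rg i` on the index set `Σ i, Fin (m i) × Fin (ρ i)` (`Matrix.blockDiagonal'`);
reindex by `ε` (`Matrix.submatrix_mul_equiv`, `Matrix.det_submatrix_equiv_self`); `det (blockDiagonal' M) = ∏ i, det (M i)`:
if Mathlib has it only for `blockDiagonal`, use `Matrix.BlockTriangular.det_fintype` for the map `Sigma.fst` (or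
induction on `s`); `Matrix.det_kronecker`. Compare the proof of `det_prH` in LibRG11/S6.lean (the case `s = 1`).
-/

open scoped Classical Kronecker

namespace Pool.Agent.LibRP11

lemma L1_det_blockDiagonal' {s : ℕ} {κ : Fin s → Type} [∀ i, Fintype (κ i)]
    [∀ i, DecidableEq (κ i)] (M : ∀ i, Matrix (κ i) (κ i) ℝ) :
    (Matrix.blockDiagonal' M).det = ∏ i, (M i).det := by
  have hbt : (Matrix.blockDiagonal' M).BlockTriangular (Sigma.fst : (Σ i, κ i) → Fin s) := by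
    intro x y hxy
    rw [Matrix.blockDiagonal'_apply, dif_neg (Ne.symm (ne_of_lt hxy))]
  rw [hbt.det_fintype]
  refine Finset.prod_congr rfl fun k _ => ?_
  let e : κ k ≃ {t : Σ i, κ i // t.1 = k} := (Equiv.sigmaSubtype k).symm
  rw [← Matrix.det_submatrix_equiv_self e]
  congr 1
  ext x y
  show Matrix.blockDiagonal' M ⟨k, x⟩ ⟨k, y⟩ = M k x y
  rw [Matrix.blockDiagonal'_apply, dif_pos rfl]
  rfl

theorem det_blocks {s n : ℕ} {m ρ : Fin s → ℕ} (ε : Fin n ≃ Σ i, Fin (m i) × Fin (ρ i))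
    (X X' : Fin n → (Σ i, Fin (m i) × Fin (ρ i)) → ℚ)
    (β : ∀ i, Matrix (Fin (m i)) (Fin (m i)) ℚ) (Rg : ∀ i, Matrix (Fin (ρ i)) (Fin (ρ i)) ℝ)
    (P : Matrix (Fin n) (Fin n) ℝ)
    (hP : ∀ u v, P u v = ∑ i, ∑ b, ∑ a, ∑ j, ∑ k,
      (X u ⟨i, b, j⟩ : ℝ) * ((β i b a : ℝ) * Rg i j k) * (X' v ⟨i, a, k⟩ : ℝ)) :
    P.det = (((Matrix.of fun u v => X u (ε v)).det * (∏ i, (β i).det ^ ρ i) *
      (Matrix.of fun u v => X' u (ε v)).det : ℚ) : ℝ) * ∏ i, (Rg i).det ^ m i := by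
  let B : Matrix (Σ i, Fin (m i) × Fin (ρ i)) (Σ i, Fin (m i) × Fin (ρ i)) ℝ :=
    Matrix.blockDiagonal' fun i => ((β i).map ((↑) : ℚ → ℝ)) ⊗ₖ (Rg i)
  let Y : Matrix (Fin n) (Fin n) ℝ := (Matrix.of fun u v => X u (ε v)).map ((↑) : ℚ → ℝ)
  let Y' : Matrix (Fin n) (Fin n) ℝ := (Matrix.of fun u v => X' u (ε v)).map ((↑) : ℚ → ℝ)
  have hPe : P = Y * (B.submatrix ε ε) * Y'.transpose := by
    ext u v
    rw [hP, Matrix.mul_apply]
    have h1 : ∀ t : Fin n, (Y * (B.submatrix ε ε)) u t * Y'.transpose t v =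
        (fun t' => (∑ t'', (X u t'' : ℝ) * B t'' t') * (X' v t' : ℝ)) (ε t) := by
      intro t
      rw [Matrix.mul_apply]
      show (∑ j, (X u (ε j) : ℝ) * B (ε j) (ε t)) * (X' v (ε t) : ℝ) = _
      rw [Equiv.sum_comp ε (fun j => (X u j : ℝ) * B j (ε t))]
    rw [Finset.sum_congr rfl fun t _ => h1 t,
      Equiv.sum_comp ε (fun t' => (∑ t'', (X u t'' : ℝ) * B t'' t') * (X' v t' : ℝ)),
      Fintype.sum_sigma]
    refine Finset.sum_congr rfl fun i _ => ?_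
    rw [Fintype.sum_prod_type, Finset.sum_comm]
    refine Finset.sum_congr rfl fun a _ => ?_
    have h2 : ∀ k : Fin (ρ i), (∑ t'', (X u t'' : ℝ) * B t'' ⟨i, (a, k)⟩) =
        ∑ b, ∑ j, (X u ⟨i, b, j⟩ : ℝ) * ((β i b a : ℝ) * Rg i j k) := by
      intro k
      rw [Fintype.sum_sigma, Finset.sum_eq_single i]
      · rw [Fintype.sum_prod_type]
        refine Finset.sum_congr rfl fun b _ => Finset.sum_congr rfl fun j _ => ?_
        have h4 : B ⟨i, (b, j)⟩ ⟨i, (a, k)⟩ = (β i b a : ℝ) * Rg i j k :=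
          Matrix.blockDiagonal'_apply_eq
            (fun i => ((β i).map ((↑) : ℚ → ℝ)) ⊗ₖ (Rg i)) i (b, j) (a, k)
        rw [h4]
      · intro i' _ hi'
        refine Finset.sum_eq_zero fun x _ => ?_
        have h4 : B ⟨i', x⟩ ⟨i, (a, k)⟩ = 0 :=
          Matrix.blockDiagonal'_apply_ne
            (fun i => ((β i).map ((↑) : ℚ → ℝ)) ⊗ₖ (Rg i)) x (a, k) hi'
        rw [h4, mul_zero]
      · intro h
        exact absurd (Finset.mem_univ i) h
    have h3 : ∀ k : Fin (ρ i), (∑ t'', (X u t'' : ℝ) * B t'' ⟨i, (a, k)⟩) * (X' v ⟨i, (a, k)⟩ : ℝ) =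
        ∑ b, ∑ j, (X u ⟨i, b, j⟩ : ℝ) * ((β i b a : ℝ) * Rg i j k) * (X' v ⟨i, a, k⟩ : ℝ) := by
      intro k
      rw [h2, Finset.sum_mul]
      exact Finset.sum_congr rfl fun b _ => Finset.sum_mul _ _ _
    refine Eq.trans ?_ (Finset.sum_congr rfl fun k _ => (h3 k).symm)
    refine Eq.trans ?_ Finset.sum_comm
    refine Finset.sum_congr rfl fun b _ => ?_
    exact Finset.sum_comm
  have hY : Y.det = (((Matrix.of fun u v => X u (ε v)).det : ℚ) : ℝ) := by
    have := (Rat.castHom ℝ).map_det (Matrix.of fun u v => X u (ε v))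
    exact this.symm
  have hY' : Y'.det = (((Matrix.of fun u v => X' u (ε v)).det : ℚ) : ℝ) := by
    have := (Rat.castHom ℝ).map_det (Matrix.of fun u v => X' u (ε v))
    exact this.symm
  have hβ : ∀ i, ((β i).map ((↑) : ℚ → ℝ)).det = (((β i).det : ℚ) : ℝ) := by
    intro i
    exact ((Rat.castHom ℝ).map_det (β i)).symm
  have hB : B.det = ((∏ i, (β i).det ^ ρ i : ℚ) : ℝ) * ∏ i, (Rg i).det ^ m i := by
    show (Matrix.blockDiagonal' _).det = _
    rw [L1_det_blockDiagonal']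
    push_cast
    rw [← Finset.prod_mul_distrib]
    refine Finset.prod_congr rfl fun i _ => ?_
    rw [Matrix.det_kronecker, hβ, Fintype.card_fin, Fintype.card_fin]
  rw [hPe, Matrix.det_mul, Matrix.det_mul, Matrix.det_transpose, Matrix.det_submatrix_equiv_self,
    hY, hY', hB]
  push_cast
  ring

end Pool.Agent.LibRP11
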