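import Pool.Agent.LibHR84.Ker

/-!
[RP11 L2] (linear algebra) `Matrix.exists_vecMul_eq_zero_iff`; clear denominators (`LibHR84.clear` in LibHR84/Ker.lean);
as in the proof of `indepH` (LibRG11/S6.lean).
-/

open scoped Classical

namespace Pool.Agent.LibRP11

theorem det_ne_iff {n : ℕ} {I : Type} (ε : Fin n ≃ I) (X : Fin n → I → ℚ) :
    (Matrix.of fun u v => X u (ε v)).det ≠ 0 ↔
      ∀ v : Fin n → ℤ, (∀ t, ∑ u, (v u : ℚ) * X u t = 0) → v = 0 := by
  rw [Ne, ← Matrix.exists_vecMul_eq_zero_iff]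
  constructor
  · intro h v hv
    by_contra hv0
    apply h
    refine ⟨fun u => (v u : ℚ), ?_, ?_⟩
    · intro h0
      apply hv0
      funext u
      have := congrFun h0 u
      simpa using this
    · funext w
      show ∑ u, (v u : ℚ) * X u (ε w) = 0
      exact hv (ε w)
  · rintro h ⟨c, hc0, hc⟩
    obtain ⟨N, a, hN, ha⟩ := LibHR84.clear c
    apply hc0
    have hac : ∀ t, ∑ u, (a u : ℚ) * X u t = 0 := by
      intro t
      have h1 : ∑ u, c u * X u (ε (ε.symm t)) = 0 := congrFun hc (ε.symm t)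
      rw [Equiv.apply_symm_apply] at h1
      rw [Finset.sum_congr rfl fun u _ => by rw [ha u, mul_assoc], ← Finset.mul_sum, h1, mul_zero]
    have ha0 := h a hac
    funext u
    have h2 := ha u
    rw [ha0] at h2
    have hN' : (N : ℚ) ≠ 0 := by exact_mod_cast hN
    have h3 : (N : ℚ) * c u = 0 := by rw [← h2]; simp
    exact (mul_eq_zero.1 h3).resolve_left hN'

end Pool.Agent.LibRP11
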