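import Pool.Agent.LibRP11.A9
import Pool.Agent.LibRP11.L1
import Pool.Agent.LibRP11.L2

/-!
[RP11 A10] the determinant of the pairing. As `det_prH` and `det_pair` (LibRG11/S6.lean). For every `i` take coordinates
`cor i` (`exists_corH (hq i) (H i)`) and a frame `xs i`, `ys i` (`exists_frameB κ i (eR hr)`), and
`X u ⟨i, b, j⟩ = cor i (tk (fun p => kB e p (ys i b)) (fgt i (c u))) j`, `X' v ⟨i, a, k⟩` similarly with `xs i`,
`β i = (bt e (xs i) (ys i))⁻¹`, `Rg i j k = bh (h i) _ (R i j) (R i k)`; `det_blocks`; the values are in `H i`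
(`tk_fgt_mem`). `ε`: both types have `n` elements (`Fintype.card_sigma`). For the second part `det_ne_iff` twice: the
condition `∑ v u * X u ⟨i, b, j⟩ = 0` for all `j` says that `tk (..) (fgt i (∑ v u • c u))` is torsion (`map_sum`,
`map_zsmul`), so it is `AJP (∑ v u • c u)` by `aj_leftB` (`bc_fgt`, `(HomPG G κ D).sum_mem`), and `aj_rightB` for `c'`.
-/

open Matrix Pool.Agent.LibHR84 Pool.Agent.LibRG11
open Pool.Agent.LibEP66 (Sup Blk mlt)
open scoped Classical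

namespace Pool.Agent.LibRP11

variable {s r D D' : ℕ} {κ : Fin r → Fin s} {G : Fin s → Type} [∀ i, AddCommGroup (G i)]
  {h : ∀ i, G i → ℝ}

/-- the coordinates of the tests decide the Abel-Jacobi condition -/
private theorem A10_ind {H : ∀ i, AddSubgroup (G i)} {ρ : Fin s → ℕ} {μ : Fin s → ℕ}
    {ks : ∀ i, Fin (μ i) → PP r D → ℤ} {cor : ∀ i, G i →+ (Fin (ρ i) → ℚ)}
    (hcor : ∀ i, ∀ x ∈ H i, cor i x = 0 ↔ IsOfFinAddOrder x)
    (haj : ∀ c : Fp G κ D, HomP c → ∀ i, (BAJ κ i (fgt i c) ↔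
      ∀ b, IsOfFinAddOrder (tk (ks i b) (fgt i c))))
    {n : ℕ} {c : Fin n → Fp G κ D} (hc : FamP H c) (v : Fin n → ℤ) :
    (∀ t : Σ i, Fin (μ i) × Fin (ρ i), ∑ u, (v u : ℚ) *
      cor t.1 (tk (ks t.1 t.2.1) (fgt t.1 (c u))) t.2.2 = 0) ↔ AJP (∑ j, v j • c j) := by
  have hsum : HomP (∑ j, v j • c j) :=
    (HomPG G κ D).sum_mem fun j _ => (HomPG G κ D).zsmul_mem (hc j).1 _
  have hon : OnP H (∑ j, v j • c j) :=
    (OnPS κ D H).sum_mem fun j _ => (OnPS κ D H).zsmul_mem (hc j).2 _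
  have hval : ∀ (i : Fin s) (b : Fin (μ i)) (j : Fin (ρ i)),
      cor i (tk (ks i b) (fgt i (∑ j, v j • c j))) j =
        ∑ u, (v u : ℚ) * cor i (tk (ks i b) (fgt i (c u))) j := by
    intro i b j
    rw [map_sum, map_sum, map_sum, Finset.sum_apply]
    refine Finset.sum_congr rfl fun u _ => ?_
    rw [map_zsmul, map_zsmul, map_zsmul, Pi.smul_apply, zsmul_eq_mul]
  constructor
  · intro h1 i
    rw [haj _ hsum i]
    intro b
    rw [← hcor i _ (tk_fgt_mem hon i _)]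
    funext j
    rw [hval]
    exact h1 ⟨i, b, j⟩
  · rintro h1 ⟨i, b, j⟩
    have h2 := (haj _ hsum i).1 (h1 i) b
    rw [← hcor i _ (tk_fgt_mem hon i _)] at h2
    have h3 := congrFun h2 j
    rw [hval] at h3
    exact h3

theorem det_pairP (hq : ∀ i (P Q : G i), h i (P + Q) + h i (P - Q) = 2 * h i P + 2 * h i Q)
    (H : ∀ i, AddSubgroup (G i)) {ρ : Fin s → ℕ} {R : ∀ i, Fin (ρ i) → G i}
    (hR : ∀ i, Base (H i) (R i)) (hr : r = D + 1 + D') {n : ℕ}
    (hn : n = ∑ i, mlt κ D i * ρ i) {c : Fin n → Fp G κ D} {c' : Fin n → Fp G κ D'}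
    (hc : FamP H c) (hc' : FamP H c') :
    ∃ q : ℚ, DtP hr h c c' = q * ∏ i, Reg (h i) (R i) ^ mlt κ D i ∧
      (q ≠ 0 ↔ (∀ v : Fin n → ℤ, AJP (∑ j, v j • c j) → v = 0) ∧
        ∀ v : Fin n → ℤ, AJP (∑ j, v j • c' j) → v = 0) := by
  choose cor hcor hcorR hb using fun i => exists_corH (hq i) (H i) (hR i).2.1 (hR i).2.2
  choose xs ys hxs hys hdet hdec hsp using fun i =>
    exists_frameB (D := D) (D' := D') κ i (eR hr)
  have hcard : Fintype.card (Σ i, Fin (mlt κ D i) × Fin (ρ i)) = n := by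
    rw [Fintype.card_sigma, hn]
    exact Finset.sum_congr rfl fun i _ => by
      rw [Fintype.card_prod, Fintype.card_fin, Fintype.card_fin]
  let ε : Fin n ≃ Σ i, Fin (mlt κ D i) × Fin (ρ i) :=
    Fintype.equivOfCardEq (by rw [Fintype.card_fin, hcard])
  let X : Fin n → (Σ i, Fin (mlt κ D i) × Fin (ρ i)) → ℚ := fun u t =>
    cor t.1 (tk (fun p => kB (eR hr) p (ys t.1 t.2.1)) (fgt t.1 (c u))) t.2.2
  let X' : Fin n → (Σ i, Fin (mlt κ D i) × Fin (ρ i)) → ℚ := fun u t =>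
    cor t.1 (tk (fun p' => kB (eR hr) (xs t.1 t.2.1) p') (fgt t.1 (c' u))) t.2.2
  let β : ∀ i, Matrix (Fin (mlt κ D i)) (Fin (mlt κ D i)) ℚ := fun i =>
    (bt (eR hr) (xs i) (ys i))⁻¹
  let Rg : ∀ i, Matrix (Fin (ρ i)) (Fin (ρ i)) ℝ := fun i =>
    Matrix.of fun j k => (h i (R i j + R i k) - h i (R i j) - h i (R i k)) / 2
  have hdetb := det_blocks ε X X' β Rg
    (Matrix.of fun u v => pairP hr h (c u) (c' v)) (fun u v => by
      rw [Matrix.of_apply, pairP_eq]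
      refine Finset.sum_congr rfl fun i _ => ?_
      rw [pr_testsB (hq i) (eR hr) (hdec i) (bc_fgt (hc u).1 i) (bh_fgt (hc u).1 i)
        (bc_fgt (hc' v).1 i) (bh_fgt (hc' v).1 i)]
      refine Finset.sum_congr rfl fun b _ => Finset.sum_congr rfl fun a _ => ?_
      rw [hb i _ (tk_fgt_mem (hc u).2 i _) _ (tk_fgt_mem (hc' v).2 i _), Finset.mul_sum]
      refine Finset.sum_congr rfl fun j _ => ?_
      rw [Finset.mul_sum]
      refine Finset.sum_congr rfl fun k _ => ?_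
      have h2 : Rg i j k = bh (h i) (hq i) (R i j) (R i k) := rfl
      rw [h2]
      change (((bt (eR hr) (xs i) (ys i))⁻¹ b a : ℚ) : ℝ) *
        (((cor i (tk (fun p => kB (eR hr) p (ys i b)) (fgt i (c u))) j : ℚ) : ℝ) *
          ((cor i (tk (fun p' => kB (eR hr) (xs i a) p') (fgt i (c' v))) k : ℚ) : ℝ) *
          bh (h i) (hq i) (R i j) (R i k)) =
        ((cor i (tk (fun p => kB (eR hr) p (ys i b)) (fgt i (c u))) j : ℚ) : ℝ) *
          ((((bt (eR hr) (xs i) (ys i))⁻¹ b a : ℚ) : ℝ) * bh (h i) (hq i) (R i j) (R i k)) *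
          ((cor i (tk (fun p' => kB (eR hr) (xs i a) p') (fgt i (c' v))) k : ℚ) : ℝ)
      ring)
  refine ⟨_, hdetb, ?_⟩
  have hβ : ∏ i, (β i).det ^ ρ i ≠ 0 := by
    refine Finset.prod_ne_zero_iff.2 fun i _ => pow_ne_zero _ ?_
    exact ((Matrix.isUnit_nonsing_inv_det_iff).2 (isUnit_iff_ne_zero.2 (hdet i))).ne_zero
  have hX := det_ne_iff ε X
  have hX' := det_ne_iff ε X'
  have h1 : ∀ v : Fin n → ℤ, (∀ t, ∑ u, (v u : ℚ) * X u t = 0) ↔ AJP (∑ j, v j • c j) :=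
    fun v => A10_ind (μ := fun i => mlt κ D i)
      (ks := fun i b p => kB (eR hr) p (ys i b)) hcor
      (fun c₀ hc₀ i => aj_leftB (eR hr) (hys i) (hsp i) (bc_fgt hc₀ i)) hc v
  have h2 : ∀ v : Fin n → ℤ, (∀ t, ∑ u, (v u : ℚ) * X' u t = 0) ↔ AJP (∑ j, v j • c' j) :=
    fun v => A10_ind (μ := fun i => mlt κ D i)
      (ks := fun i a p' => kB (eR hr) (xs i a) p') hcor
      (fun c₀ hc₀ i => aj_rightB (eR hr) (hxs i) (hdec i) (bc_fgt hc₀ i)) hc' v
  have e1 : (Matrix.of fun u v => X u (ε v)).det ≠ 0 ↔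
      ∀ v : Fin n → ℤ, AJP (∑ j, v j • c j) → v = 0 := by
    rw [hX]
    exact forall_congr' fun v => by rw [h1 v]
  have e2 : (Matrix.of fun u v => X' u (ε v)).det ≠ 0 ↔
      ∀ v : Fin n → ℤ, AJP (∑ j, v j • c' j) → v = 0 := by
    rw [hX']
    exact forall_congr' fun v => by rw [h2 v]
  rw [← e1, ← e2]
  constructor
  · intro h3
    exact ⟨left_ne_zero_of_mul (left_ne_zero_of_mul h3), right_ne_zero_of_mul h3⟩
  · rintro ⟨h3, h4⟩
    exact mul_ne_zero (mul_ne_zero h3 hβ) h4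

end Pool.Agent.LibRP11
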