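import Pool.Agent.LibRP11.A8

/-!
[RP11 A8b] the parts of the colours `i` of a combination (`fgt`) and the special combinations. Support of `mapDomain`
(`Finsupp.mapDomain_support`), `Finsupp.mapDomain_single`, `Finsupp.sum_mapDomain_index`; `vec_self`, `vec_ne`, `vec_mem`;
`spc` is in LibHR84/Main.lean; `tk_fgt_mem`: `tk_apply`, `Finsupp.sum_mapDomain_index`.
-/

open Matrix Pool.Agent.LibHR84 Pool.Agent.LibRG11
open Pool.Agent.LibEP66 (Sup Blk)
open scoped Classical

namespace Pool.Agent.LibRP11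

variable {s r D D' : ℕ} {κ : Fin r → Fin s} {G : Fin s → Type} [∀ i, AddCommGroup (G i)]

theorem fgt_apply' (i : Fin s) (c : Fp G κ D) :
    fgt i c = c.mapDomain fun p => (p.2.1, fun x => vec p.2.2 x i) := rfl

theorem fgt_single (i : Fin s) (p : (Fin D → Fin s) × Matrix (Fin r) (Fin D) ℤ × (∀ x, G (κ x)))
    (m : ℤ) : fgt i (Finsupp.single p m) = Finsupp.single (p.2.1, fun x => vec p.2.2 x i) m := by
  rw [fgt_apply', Finsupp.mapDomain_single]

theorem bc_fgt {c : Fp G κ D} (hc : HomP c) (i : Fin s) : BC κ i (fgt i c) := by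
  intro p hp
  rw [fgt_apply'] at hp
  obtain ⟨q, hq, rfl⟩ := Finset.mem_image.1 (Finsupp.mapDomain_support hp)
  exact ⟨⟨q.1, hc.1 q hq⟩, fun x hx => vec_ne _ hx⟩

theorem bh_fgt {c : Fp G κ D} (hc : HomP c) (i : Fin s) : BH κ (fgt i c) := by
  rintro M ⟨μ, -, hM⟩
  rw [fgt_apply', Finsupp.sum_mapDomain_index (fun _ => zero_mul _) (fun _ _ _ => add_mul _ _ _)]
  exact hc.2 μ M hM

theorem vec_pi_self {i : Fin s} {g : ∀ x, G (κ x)} {x : Fin r} (h : κ x = i) {P : G i}
    (hg : g x = (Pi.single i P : ∀ i, G i) (κ x)) : vec g x i = P := by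
  subst h
  rw [vec_self, hg, Pi.single_eq_same]

theorem vec_pi_ne {i j : Fin s} (hij : j ≠ i) {g : ∀ x, G (κ x)} {x : Fin r} {P : G i}
    (hg : g x = (Pi.single i P : ∀ i, G i) (κ x)) : vec g x j = 0 := by
  by_cases h : κ x = j
  · subst h
    rw [vec_self, hg, Pi.single_eq_of_ne hij]
  · exact vec_ne _ h

theorem vec_zero' (x : Fin r) (i : Fin s) : vec (0 : ∀ x, G (κ x)) x i = 0 := by
  by_cases h : κ x = i
  · subst h
    rw [vec_self, Pi.zero_apply]
  · exact vec_ne _ h

theorem fgt_spP_self {i : Fin s} (μ : Fin D → Fin s) {p : PP r D} (hp : Sup κ i p.2) (R : G i) :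
    fgt i (spP κ i μ p R) = spc p R := by
  unfold spP spc
  rw [map_sub, fgt_single, fgt_single]
  congr 3
  · funext x
    by_cases h : κ x = i
    · exact vec_pi_self h rfl
    · rw [vec_ne _ h, hp x h, zero_smul]
  · funext x
    exact vec_zero' x i

theorem fgt_spP_ne {i j : Fin s} (hij : j ≠ i) (μ : Fin D → Fin s) (p : PP r D) (R : G i) :
    fgt j (spP κ i μ p R) = 0 := by
  unfold spP
  rw [map_sub, fgt_single, fgt_single, sub_eq_zero]
  congr 1
  refine Prod.ext rfl ?_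
  funext x
  exact (vec_pi_ne hij rfl).trans (vec_zero' x j).symm

theorem spP_support {i : Fin s} {μ : Fin D → Fin s} {p : PP r D} {R : G i}
    {q : (Fin D → Fin s) × Matrix (Fin r) (Fin D) ℤ × (∀ x, G (κ x))}
    (hq : q ∈ (spP κ i μ p R).support) :
    q = (μ, p.1, fun x => (Pi.single i (p.2 x • R) : ∀ i, G i) (κ x)) ∨ q = (μ, p.1, 0) := by
  rcases Finset.mem_union.1 (Finsupp.support_sub hq) with h | h
  · exact Or.inl (Finset.mem_singleton.1 (Finsupp.support_single_subset h))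
  · exact Or.inr (Finset.mem_singleton.1 (Finsupp.support_single_subset h))

theorem homP_spP {i : Fin s} {μ : Fin D → Fin s} (hμ : Monotone μ) {p : PP r D}
    (hp : Blk κ μ p.1) (R : G i) : HomP (spP κ i μ p R) := by
  refine ⟨fun q hq => ?_, fun ν M _ => ?_⟩
  · rcases spP_support hq with rfl | rfl
    · exact ⟨hμ, hp⟩
    · exact ⟨hμ, hp⟩
  · unfold spP
    rw [Finsupp.sum_sub_index (fun _ _ _ => sub_mul _ _ _),
      Finsupp.sum_single_index (zero_mul _), Finsupp.sum_single_index (zero_mul _), sub_self]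

theorem onP_spP {H : ∀ i, AddSubgroup (G i)} {i : Fin s} (μ : Fin D → Fin s) (p : PP r D)
    {R : G i} (hR : R ∈ H i) : OnP H (spP κ i μ p R) := by
  intro q hq x
  rcases spP_support hq with rfl | rfl
  · change (Pi.single i (p.2 x • R) : ∀ i, G i) (κ x) ∈ H (κ x)
    by_cases h : κ x = i
    · rw [h, Pi.single_eq_same]
      exact zsmul_mem hR _
    · rw [Pi.single_eq_of_ne h]
      exact zero_mem _
  · exact zero_mem _

theorem tk_fgt_mem {H : ∀ i, AddSubgroup (G i)} {c : Fp G κ D} (hc : OnP H c) (i : Fin s)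
    (k : PP r D → ℤ) : tk k (fgt i c) ∈ H i := by
  rw [tk_apply, fgt_apply',
    Finsupp.sum_mapDomain_index (h := fun (p : Matrix (Fin r) (Fin D) ℤ × (Fin r → G i)) (n : ℤ) =>
      n • ∑ y, k (p.1, Pi.single y 1) • p.2 y)
      (fun _ => zero_smul ℤ _) (fun _ _ _ => add_smul _ _ _)]
  refine sum_mem fun p hp => zsmul_mem (sum_mem fun x _ => zsmul_mem ?_ _) _
  exact vec_mem (hc p hp) x i

end Pool.Agent.LibRP11
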