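import Pool.Agent.LibRP11.A7
import Pool.Agent.LibRP11.A8b

/-!
[RP11 A11] the rank of the Abel-Jacobi images, as `rank_aj` (LibRG11/S7.lean); compare also the proof of `exactP`
(LibEP66/M2.lean). `choose p N a hN hdual hspan using fun i => good_all κ D i` (LibEP66/B2.lean; `kp p q = kf p.1.2 q.1.2`;
`LibMul34.kf` and `LibCV66.kf` are the same by definition, `kf_symm`). Independent family: index set
`Σ i, Fin (mlt κ D i) × Fin (ρ i)`, of cardinality `n`; the members `spP κ i (p i b).1.1 (p i b).1.2 (R i j)`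
(`fgt_spP_self`, `fgt_spP_ne`; `tk (fun p => kf p q) (spc p R) = kf p q • R`). Upper bound: the tests
`tk (fun p => kf p (p i b).1.2) (fgt i (c u))` have values in `H i` (`tk_fgt_mem`), where multiples are combinations of
the `R i j`; `n + 1` vectors with `n` integral coordinates are dependent; all the other tests of the colour `i` are
combinations of these (`hspan`, `tk_relB`, `bc_fgt`).
-/

open Matrix Pool.Agent.LibHR84 Pool.Agent.LibRG11
open Pool.Agent.LibEP66 (Sup Blk mlt)
open scoped Classical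

namespace Pool.Agent.LibRP11

variable {s r D : ℕ} {κ : Fin r → Fin s} {G : Fin s → Type} [∀ i, AddCommGroup (G i)]

private theorem A11_kf_lin (p q : PP r D) :
    LibCV66.kf p q = ∑ i, p.2 i * LibCV66.kf (p.1, Pi.single i 1) q := by
  rw [LibCV66.kf_symm p q]
  have h := (LibCV66.kf_mem q).2 p.1 p.2
  simp only [] at h
  have h1 : ((LibCV66.kf q (p.1, p.2) : ℤ) : ℚ) =
      ((∑ i, p.2 i * LibCV66.kf (p.1, Pi.single i 1) q : ℤ) : ℚ) := by
    rw [h]
    push_cast
    exact Finset.sum_congr rfl fun i _ => by rw [LibCV66.kf_symm q (p.1, Pi.single i 1)]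
  exact_mod_cast h1

private theorem A11_tk_spc {G : Type} [AddCommGroup G] (p q : PP r D) (R : G) :
    tk (fun p => LibCV66.kf p q) (spc p R) = LibCV66.kf p q • R := by
  unfold spc
  rw [map_sub, tk_single, tk_single]
  simp only [Pi.zero_apply, smul_zero, Finset.sum_const_zero, sub_zero, one_smul, smul_smul]
  rw [← Finset.sum_smul]
  congr 1
  rw [A11_kf_lin p q]
  exact Finset.sum_congr rfl fun i _ => by ring

theorem rank_ajP (H : ∀ i, AddSubgroup (G i)) {ρ : Fin s → ℕ} {R : ∀ i, Fin (ρ i) → G i}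
    (hR : ∀ i, Base (H i) (R i)) {n : ℕ} (hn : n = ∑ i, mlt κ D i * ρ i) :
    (∃ c : Fin n → Fp G κ D, FamP H c ∧ ∀ v : Fin n → ℤ, AJP (∑ j, v j • c j) → v = 0) ∧
    ∀ c : Fin (n + 1) → Fp G κ D, FamP H c →
      ∃ v : Fin (n + 1) → ℤ, v ≠ 0 ∧ AJP (∑ j, v j • c j) := by
  choose p N a hN hdual hspan using fun i => LibEP66.good_all κ D i
  have hcard : Fintype.card (Σ i, Fin (mlt κ D i) × Fin (ρ i)) = n := by
    rw [Fintype.card_sigma, hn]
    exact Finset.sum_congr rfl fun i _ => by
      rw [Fintype.card_prod, Fintype.card_fin, Fintype.card_fin]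
  constructor
  · let ε : Fin n ≃ Σ i, Fin (mlt κ D i) × Fin (ρ i) :=
      Fintype.equivOfCardEq (by rw [Fintype.card_fin, hcard])
    let c₀ : (Σ i, Fin (mlt κ D i) × Fin (ρ i)) → Fp G κ D := fun t =>
      spP κ t.1 (p t.1 t.2.1).1.1 (p t.1 t.2.1).1.2 (R t.1 t.2.2)
    refine ⟨fun u => c₀ (ε u), fun u => ⟨homP_spP (p (ε u).1 (ε u).2.1).2.1
      (p (ε u).1 (ε u).2.1).2.2.1 _, onP_spP _ _ ((hR (ε u).1).1 _)⟩, fun v hv => ?_⟩
    have key : ∀ (i : Fin s) (q : PP r D), BP κ i q → ∀ j : Fin (ρ i),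
        ∑ b, v (ε.symm ⟨i, b, j⟩) * LibCV66.kf (p i b).1.2 q = 0 := by
      intro i q hq j
      have h1 := hv i q hq
      rw [map_sum, map_sum] at h1
      have h2 : ∑ u, tk (fun p => LibCV66.kf p q) (fgt i (v u • c₀ (ε u))) =
          ∑ y, (∑ b, v (ε.symm ⟨i, b, y⟩) * LibCV66.kf (p i b).1.2 q) • R i y := by
        rw [← ε.symm.sum_comp, Fintype.sum_sigma, Finset.sum_eq_single i]
        · rw [Fintype.sum_prod_type, Finset.sum_comm]
          refine Finset.sum_congr rfl fun y _ => ?_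
          rw [Finset.sum_smul]
          refine Finset.sum_congr rfl fun b _ => ?_
          rw [Equiv.apply_symm_apply, map_zsmul, map_zsmul]
          change _ • tk (fun p => LibCV66.kf p q)
            (fgt i (spP κ i (p i b).1.1 (p i b).1.2 (R i y))) = _
          rw [fgt_spP_self _ (p i b).2.2.2, A11_tk_spc, smul_smul]
        · intro i' _ hne
          refine Finset.sum_eq_zero fun t _ => ?_
          rw [Equiv.apply_symm_apply, map_zsmul]
          change tk (fun p => LibCV66.kf p q) (_ •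
            (fgt i (spP κ i' (p i' t.1).1.1 (p i' t.1).1.2 (R i' t.2)))) = _
          rw [fgt_spP_ne hne.symm, smul_zero, map_zero]
        · intro hne
          exact absurd (Finset.mem_univ i) hne
      rw [h2, isOfFinAddOrder_iff_zsmul_eq_zero] at h1
      obtain ⟨m, hm, h3⟩ := h1
      rw [Finset.smul_sum] at h3
      simp only [smul_smul] at h3
      have h4 := Fintype.linearIndependent_iff.1 (hR i).2.1 _ h3 j
      exact (mul_eq_zero.1 h4).resolve_left hm
    have hall : ∀ (i : Fin s) (b : Fin (mlt κ D i)) (j : Fin (ρ i)), v (ε.symm ⟨i, b, j⟩) = 0 := by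
      intro i b j
      have h1 : ∑ b', v (ε.symm ⟨i, b', j⟩) * (if b = b' then N i else 0) = 0 := by
        have h2 : ∀ b', v (ε.symm ⟨i, b', j⟩) * (if b = b' then N i else 0) =
            ∑ t, a i b t * (v (ε.symm ⟨i, b', j⟩) * LibCV66.kf (p i b').1.2 (p i t).1.2) := by
          intro b'
          have h3 : (if b = b' then N i else 0) =
              ∑ t, a i b t * LibCV66.kf (p i b').1.2 (p i t).1.2 := by
            have h4 := hdual i b b'
            by_cases hbb : b = b'
            · rw [if_pos hbb] at h4 ⊢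
              exact h4.symm
            · rw [if_neg hbb] at h4 ⊢
              exact h4.symm
          rw [h3, Finset.mul_sum]
          exact Finset.sum_congr rfl fun t _ => by ring
        rw [Finset.sum_congr rfl fun b' _ => h2 b', Finset.sum_comm]
        refine Finset.sum_eq_zero fun t _ => ?_
        rw [← Finset.mul_sum, key i (p i t).1.2
          ⟨⟨(p i t).1.1, (p i t).2.1, (p i t).2.2.1⟩, (p i t).2.2.2⟩ j, mul_zero]
      rw [Finset.sum_eq_single b (fun b' _ hb' => by rw [if_neg (Ne.symm hb'), mul_zero])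
        (fun h9 => absurd (Finset.mem_univ b) h9), if_pos rfl] at h1
      exact (mul_eq_zero.1 h1).resolve_right (hN i)
    funext u
    have h1 := hall (ε u).1 (ε u).2.1 (ε u).2.2
    have h2 : ε.symm ⟨(ε u).1, (ε u).2.1, (ε u).2.2⟩ = u := ε.symm_apply_apply u
    rw [h2] at h1
    exact h1
  · intro c hc
    have h1 : ∀ (u : Fin (n + 1)) (t : Σ i, Fin (mlt κ D i)), ∃ k : ℤ, k ≠ 0 ∧
        k • tk (fun p' => LibCV66.kf p' (p t.1 t.2).1.2) (fgt t.1 (c u)) ∈
          AddSubgroup.closure (Set.range (R t.1)) := fun u t =>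
      (hR t.1).2.2 _ (tk_fgt_mem (hc u).2 t.1 _)
    choose k hk hk' using h1
    let K : ℤ := ∏ z : Fin (n + 1) × (Σ i, Fin (mlt κ D i)), k z.1 z.2
    have hK : K ≠ 0 := Finset.prod_ne_zero_iff.2 fun z _ => hk z.1 z.2
    have h2 : ∀ (u : Fin (n + 1)) (t : Σ i, Fin (mlt κ D i)), ∃ x : Fin (ρ t.1) → ℤ,
        ∑ y, x y • R t.1 y =
          K • tk (fun p' => LibCV66.kf p' (p t.1 t.2).1.2) (fgt t.1 (c u)) := by
      intro u t
      have h3 : K • tk (fun p' => LibCV66.kf p' (p t.1 t.2).1.2) (fgt t.1 (c u)) ∈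
          AddSubgroup.closure (Set.range (R t.1)) := by
        have h4 := Finset.prod_erase_mul Finset.univ
          (fun z : Fin (n + 1) × (Σ i, Fin (mlt κ D i)) => k z.1 z.2) (Finset.mem_univ (u, t))
        rw [show K = _ from h4.symm, mul_smul]
        exact zsmul_mem (hk' u t) _
      rw [← Submodule.span_int_eq_addSubgroupClosure] at h3
      exact (Submodule.mem_span_range_iff_exists_fun ℤ).1 h3
    choose x hx using h2
    have h5 : ¬ LinearIndependent ℤ (fun u : Fin (n + 1) =>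
        (fun z : (Σ i, Fin (mlt κ D i) × Fin (ρ i)) => x u ⟨z.1, z.2.1⟩ z.2.2)) := by
      intro h
      have h6 := h.fintype_card_le_finrank
      rw [Module.finrank_fintype_fun_eq_card, hcard, Fintype.card_fin] at h6
      omega
    rw [Fintype.not_linearIndependent_iff] at h5
    obtain ⟨v, hv, j₀, hj₀⟩ := h5
    refine ⟨v, fun h => hj₀ (by rw [h]; rfl), fun i q hq => ?_⟩
    obtain ⟨⟨μ, hμ, hμ'⟩, hq2⟩ := hq
    obtain ⟨m, a', hm0, hrel⟩ := hspan i ⟨(μ, q.1, q.2), hμ, hμ', hq2⟩
    have hsum : HomP (∑ j, v j • c j) :=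
      (HomPG G κ D).sum_mem fun j _ => (HomPG G κ D).zsmul_mem (hc j).1 _
    have h6 : m • tk (fun p' => LibCV66.kf p' q) (fgt i (∑ j, v j • c j)) =
        ∑ b, a' b • tk (fun p' => LibCV66.kf p' (p i b).1.2) (fgt i (∑ j, v j • c j)) := by
      refine tk_relB (κ := κ) (i := i) (m := m) (k := fun p' => LibCV66.kf p' q) (a := a')
        (ks := fun b p' => LibCV66.kf p' (p i b).1.2) ?_ (bc_fgt hsum i)
      rintro p' ⟨⟨ν, hν, hν'⟩, hp2⟩
      exact hrel ⟨(ν, p'.1, p'.2), hν, hν', hp2⟩
    rw [isOfFinAddOrder_iff_zsmul_eq_zero]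
    refine ⟨K * m, mul_ne_zero hK hm0, ?_⟩
    rw [mul_smul, h6, Finset.smul_sum]
    refine Finset.sum_eq_zero fun b _ => ?_
    rw [smul_comm K (a' b), map_sum, map_sum, Finset.smul_sum]
    have h7 : ∑ j, K • tk (fun p' => LibCV66.kf p' (p i b).1.2) (fgt i (v j • c j)) = 0 := by
      have h8 : ∀ j, K • tk (fun p' => LibCV66.kf p' (p i b).1.2) (fgt i (v j • c j)) =
          ∑ y, (v j * x j ⟨i, b⟩ y) • R i y := by
        intro j
        rw [map_zsmul, map_zsmul, smul_comm, ← hx j ⟨i, b⟩, Finset.smul_sum]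
        exact Finset.sum_congr rfl fun y _ => by rw [smul_smul]
      simp only [h8]
      rw [Finset.sum_comm]
      refine Finset.sum_eq_zero fun y _ => ?_
      rw [← Finset.sum_smul]
      have h9 := congrFun hv ⟨i, b, y⟩
      rw [Finset.sum_apply] at h9
      simp only [Pi.smul_apply, smul_eq_mul, Pi.zero_apply] at h9
      rw [h9, zero_smul]
    rw [h7, smul_zero]

end Pool.Agent.LibRP11
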