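import Pool.Agent.LibRP11.A1

/-!
[RP11 A2] the block versions of `F0`, `F1`, `F2` (LibHR84/Lin.lean). The proofs are the same, with `exists_orthB`
instead of `exists_orth` / `exists_comp` (`e2` and the sum types exchanged as there; the colours of `e2` are
`Sum.elim μ (Sum.elim (fun _ => i) ν)`). Only the vectors need a change: in `F1` replace `v` by its part of the
colour `i`, `v' b = if ν b = i then v b else 0`, so `z = δ • w' - N' v'` is the part of the colour `i` of the old `z`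
(`N'` is a block matrix, `w'` has the colour `i`); then `N'ᵀ z = 0` and `Mᵀ z = 0` still hold since every row of `N'ᵀ`
and of `Mᵀ` lives in one colour, and `z = 0` still gives a dependence of the columns of `Y` (with `v'`). The same
in `F2` for `w' = δ • z - M v'`. The matrix `Y = (w' | N')` is a block matrix for `Sum.elim (fun _ => i) ν`.
-/

open Matrix Pool.Agent.LibHR84
open Pool.Agent.LibEP66 (Sup)
open scoped Classical

namespace Pool.Agent.LibRP11

variable {s r : ℕ} {α β : Type} [Fintype α] [DecidableEq α] [Fintype β] [DecidableEq β]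
  {κ : Fin r → Fin s} {μ : α → Fin s} {ν : β → Fin s} {i : Fin s}

theorem A2_comp {α β : Type} [Fintype α] [DecidableEq α] [Fintype β] [DecidableEq β]
    {μ : α → Fin s} {ν : β → Fin s} (e : Fin r ≃ α ⊕ β)
    (he : ∀ x, Sum.elim μ ν (e x) = κ x) (Y : Matrix (Fin r) β ℤ) (hY : BlkG κ ν Y) :
    ∃ Q : Matrix (Fin r) α ℤ, BlkG κ μ Q ∧ Qᵀ * Y = 0 ∧ (Qᵀ * Q).det ≠ 0 := by
  obtain ⟨Q, h0, h1, h2⟩ := exists_orthB (e.trans (Equiv.sumComm α β)) (μ := ν) (ν := μ)
    (κ := κ) (fun x => by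
      rw [← he x, Equiv.trans_apply]
      rcases e x with a | b <;> rfl) Y hY
  refine ⟨Q, h0, ?_, h2⟩
  have h3 := congrArg Matrix.transpose h1
  rwa [Matrix.transpose_mul, Matrix.transpose_transpose, Matrix.transpose_zero] at h3

theorem A2_zero {ρ α : Type} {κ : ρ → Fin s} {μ : α → Fin s} :
    BlkG κ μ (0 : Matrix ρ α ℤ) := fun _ _ _ => rfl

theorem A2_row {γ : Type} {c : γ → Fin s} {A : Matrix (Fin r) γ ℤ}
    (hA : BlkG κ c A) {z z' : Fin r → ℤ} (hz : ∀ x, z' x = if κ x = i then z x else 0)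
    (h : Aᵀ.mulVec z = 0) : Aᵀ.mulVec z' = 0 := by
  funext b
  have h1 := congrFun h b
  simp only [Matrix.mulVec, dotProduct, Matrix.transpose_apply, Pi.zero_apply] at h1 ⊢
  by_cases hb : c b = i
  · rw [← h1]
    refine Finset.sum_congr rfl fun x _ => ?_
    rw [hz]
    by_cases hx : κ x = i
    · rw [if_pos hx]
    · rw [hA x b (fun h2 => hx (h2 ▸ hb)), zero_mul, zero_mul]
  · refine Finset.sum_eq_zero fun x _ => ?_
    rw [hz]
    by_cases hx : κ x = i
    · rw [hA x b (fun h2 => hb (h2.trans hx)), zero_mul]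
    · rw [if_neg hx, mul_zero]

theorem A2_part {γ : Type} [Fintype γ] {c : γ → Fin s} {A : Matrix (Fin r) γ ℤ}
    (hA : BlkG κ c A) {w : Fin r → ℤ} (hw : Sup κ i w) (δ : ℤ) (v : γ → ℤ) (x : Fin r) :
    (δ • w - A.mulVec fun b => if c b = i then v b else 0) x =
      if κ x = i then (δ • w - A.mulVec v) x else 0 := by
  rw [Pi.sub_apply, Pi.smul_apply, Pi.sub_apply, Pi.smul_apply]
  simp only [Matrix.mulVec, dotProduct]
  by_cases hx : κ x = i
  · rw [if_pos hx]
    congr 1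
    refine Finset.sum_congr rfl fun b _ => ?_
    by_cases hb : c b = i
    · rw [if_pos hb]
    · rw [if_neg hb, hA x b (fun h => hb (h.trans hx)), zero_mul, zero_mul]
  · rw [if_neg hx, hw x hx, smul_zero, zero_sub, neg_eq_zero]
    refine Finset.sum_eq_zero fun b _ => ?_
    by_cases hb : c b = i
    · rw [hA x b (fun h => hx (h ▸ hb)), zero_mul]
    · rw [if_neg hb, mul_zero]

theorem A2_Y {N' : Matrix (Fin r) β ℤ} (hN' : BlkG κ ν N') {x : Fin r → ℤ} (hx : Sup κ i x) :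
    BlkG κ (Sum.elim (fun _ : Unit => i) ν) (fromCols (replicateCol Unit x) N') := by
  rintro y (a | b) h
  · exact hx y (fun h2 => h h2.symm)
  · exact hN' y b h

theorem A2_he (e : Fin r ≃ (α ⊕ Unit) ⊕ β) (he : ∀ x, col μ i ν (e x) = κ x) (x : Fin r) :
    Sum.elim μ (Sum.elim (fun _ : Unit => i) ν) ((e.trans (Equiv.sumAssoc α Unit β)) x) = κ x := by
  rw [← he x, Equiv.trans_apply]
  rcases e x with (a | u) | b <;> rfl

theorem A2_bx {M : Matrix (Fin r) α ℤ} (hM : BlkG κ μ M) {z : Fin r → ℤ} (hz : Sup κ i z) :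
    BlkG κ (Sum.elim μ (fun _ : Unit => i)) (bx M z) := by
  rintro y (a | b) h
  · exact hM y a h
  · exact hz y (fun h2 => h h2.symm)

theorem F0B (e : Fin r ≃ (α ⊕ Unit) ⊕ β) (he : ∀ x, col μ i ν (e x) = κ x) (x : Fin r → ℤ)
    (hx : Sup κ i x) (N' : Matrix (Fin r) β ℤ) (hN' : BlkG κ ν N') :
    ∃ (M : Matrix (Fin r) α ℤ) (κ₁ κ₂ : ℤ), BlkG κ μ M ∧ κ₂ ≠ 0 ∧ ∀ N, κ₂ * jn e N x N' =
      κ₁ * (Mᵀ * N).det := by
  let e2 := e.trans (Equiv.sumAssoc α Unit β)
  let Y : Matrix (Fin r) (Unit ⊕ β) ℤ := fromCols (replicateCol Unit x) N'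
  by_cases hY : (Yᵀ * Y).det = 0
  · refine ⟨0, 0, 1, A2_zero, one_ne_zero, fun N => ?_⟩
    rw [← dt_assoc, dt_zero e2 N hY, mul_zero, zero_mul]
  · obtain ⟨M, h0, h1, h2⟩ := A2_comp e2 (A2_he e he) Y (A2_Y hN' hx)
    refine ⟨M, (Yᵀ * Y).det, dt e2 M Y, h0, dt_sq_ne e2 h1 h2 hY, fun N => ?_⟩
    rw [← dt_assoc, dt_mul e2 M N h1, mul_comm]

theorem F1B (e : Fin r ≃ (α ⊕ Unit) ⊕ β) (he : ∀ x, col μ i ν (e x) = κ x)
    (N' : Matrix (Fin r) β ℤ) (hN' : BlkG κ ν N') (w' : Fin r → ℤ) (hw' : Sup κ i w') :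
    ∃ (M : Matrix (Fin r) α ℤ) (z : Fin r → ℤ) (κ₁ κ₂ : ℤ), BlkG κ μ M ∧ Sup κ i z ∧ κ₂ ≠ 0 ∧
      ∀ N x, κ₂ * (jn e N x N' * jn e N w' N') =
        κ₁ * ((Mᵀ * N).det * ((bx M z)ᵀ * bx N x).det) := by
  let e2 := e.trans (Equiv.sumAssoc α Unit β)
  let Y : Matrix (Fin r) (Unit ⊕ β) ℤ := fromCols (replicateCol Unit w') N'
  by_cases hY : (Yᵀ * Y).det = 0
  · refine ⟨0, 0, 0, 1, A2_zero, fun _ _ => rfl, one_ne_zero, fun N x => ?_⟩
    rw [← dt_assoc e N w' N', dt_zero e2 N hY, mul_zero, mul_zero, zero_mul]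
  obtain ⟨M, hMB, h1, h2⟩ := A2_comp e2 (A2_he e he) Y (A2_Y hN' hw')
  have hMw : Mᵀ.mulVec w' = 0 := by
    funext a
    have h3 := congrFun (congrFun h1 a) (Sum.inl ())
    rw [Matrix.mul_apply] at h3
    exact h3
  have hMN : Mᵀ * N' = 0 := by
    ext a b
    have h3 := congrFun (congrFun h1 a) (Sum.inr b)
    rw [Matrix.mul_apply] at h3
    rw [Matrix.mul_apply]
    exact h3
  let δ := (N'ᵀ * N').det
  let v0 := (N'ᵀ * N').adjugate.mulVec (N'ᵀ.mulVec w')
  let z0 : Fin r → ℤ := δ • w' - N'.mulVec v0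
  let v : β → ℤ := fun b => if ν b = i then v0 b else 0
  let z : Fin r → ℤ := δ • w' - N'.mulVec v
  have hzz0 : ∀ x, z x = if κ x = i then z0 x else 0 := fun x => A2_part hN' hw' δ v0 x
  have hNz : N'ᵀ.mulVec z = 0 := by
    refine A2_row hN' hzz0 ?_
    show N'ᵀ.mulVec (δ • w' - N'.mulVec v0) = 0
    rw [Matrix.mulVec_sub, Matrix.mulVec_smul, Matrix.mulVec_mulVec, Matrix.mulVec_mulVec,
      Matrix.mul_adjugate, Matrix.smul_mulVec, Matrix.one_mulVec, sub_self]
  have hMz : Mᵀ.mulVec z = 0 := by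
    refine A2_row hMB hzz0 ?_
    show Mᵀ.mulVec (δ • w' - N'.mulVec v0) = 0
    rw [Matrix.mulVec_sub, Matrix.mulVec_smul, Matrix.mulVec_mulVec, hMw, hMN, smul_zero,
      Matrix.zero_mulVec, sub_self]
  have hδ : δ ≠ 0 := by
    intro h0
    obtain ⟨u, hu, h3⟩ := dep_of_det h0
    apply hY
    refine Matrix.exists_mulVec_eq_zero_iff.1 ⟨Sum.elim 0 u, ?_, ?_⟩
    · intro h4
      apply hu
      funext b
      exact congrFun h4 (Sum.inr b)
    · rw [← Matrix.mulVec_mulVec, Matrix.fromCols_mulVec]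
      simp [h3]
  have hz : z ≠ 0 := by
    intro h0
    apply hY
    refine Matrix.exists_mulVec_eq_zero_iff.1 ⟨Sum.elim (fun _ => δ) (-v), ?_, ?_⟩
    · intro h4
      apply hδ
      exact congrFun h4 (Sum.inl ())
    · rw [← Matrix.mulVec_mulVec, Matrix.fromCols_mulVec]
      have h5 : (replicateCol Unit w').mulVec (Sum.elim (fun _ : Unit => δ) (-v) ∘ Sum.inl) +
          N'.mulVec (Sum.elim (fun _ : Unit => δ) (-v) ∘ Sum.inr) = z := by
        funext i
        rw [Pi.add_apply]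
        simp only [Matrix.mulVec, dotProduct, Function.comp, Sum.elim_inl, Sum.elim_inr,
          Finset.univ_unique, Finset.sum_singleton, Matrix.replicateCol_apply]
        show w' i * δ + ∑ b, N' i b * (-v) b = δ • w' i - N'.mulVec v i
        simp only [Pi.neg_apply, mul_neg, Finset.sum_neg_distrib, smul_eq_mul, Matrix.mulVec,
          dotProduct]
        ring
      rw [h5, h0, Matrix.mulVec_zero]
  have hQY : (bx M z)ᵀ * N' = 0 := by
    ext a b
    rw [Matrix.mul_apply, Matrix.zero_apply]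
    rcases a with a | a
    · have h3 := congrFun (congrFun hMN a) b
      rw [Matrix.mul_apply] at h3
      exact h3
    · have h3 := congrFun hNz b
      simp only [Matrix.mulVec, dotProduct, Matrix.transpose_apply, Pi.zero_apply] at h3
      rw [← h3]
      refine Finset.sum_congr rfl fun i _ => ?_
      show z i * N' i b = _
      rw [mul_comm]
  have hzz : ((bx M z)ᵀ * bx M z).det ≠ 0 := by
    unfold bx
    rw [det_orth, det_unit]
    · exact mul_ne_zero h2 fun h0 => hz (dotProduct_self_eq_zero.1 h0)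
    · ext a b
      have h3 := congrFun hMz a
      rw [Matrix.mul_apply]
      exact h3
  have hzS : Sup κ i z := fun x hx => by rw [hzz0 x, if_neg hx]
  refine ⟨M, z, δ * (Yᵀ * Y).det, jn e M z N' * dt e2 M Y, hMB, hzS,
    mul_ne_zero (dt_sq_ne e hQY hzz hδ) (dt_sq_ne e2 h1 h2 hY), fun N x => ?_⟩
  have h3 := dt_mul e (bx M z) (bx N x) hQY
  have h4 := dt_mul e2 M N h1
  rw [← dt_assoc e N w' N']
  calc jn e M z N' * dt e2 M Y * (jn e N x N' * dt e2 N Y) =
      (jn e M z N' * jn e N x N') * (dt e2 M Y * dt e2 N Y) := by ring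
    _ = (((bx M z)ᵀ * bx N x).det * (N'ᵀ * N').det) * ((Mᵀ * N).det * (Yᵀ * Y).det) := by
      rw [h4]
      congr 1
    _ = _ := by ring

theorem F2B (e : Fin r ≃ (α ⊕ Unit) ⊕ β) (he : ∀ x, col μ i ν (e x) = κ x)
    (M : Matrix (Fin r) α ℤ) (hM : BlkG κ μ M) (z : Fin r → ℤ) (hz : Sup κ i z) :
    ∃ (N' : Matrix (Fin r) β ℤ) (w' : Fin r → ℤ) (κ₁ κ₂ : ℤ), BlkG κ ν N' ∧ Sup κ i w' ∧
      κ₁ ≠ 0 ∧ ∀ N x, κ₂ * (jn e N x N' * jn e N w' N') =
        κ₁ * ((Mᵀ * N).det * ((bx M z)ᵀ * bx N x).det) := by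
  let e2 := e.trans (Equiv.sumAssoc α Unit β)
  let δ := (Mᵀ * M).det
  by_cases hδ : δ = 0
  · refine ⟨0, 0, 1, 0, A2_zero, fun _ _ => rfl, one_ne_zero, fun N x => ?_⟩
    obtain ⟨u, hu, h3⟩ := dep_of_det hδ
    have h4 : (Mᵀ * N).det = 0 := by
      rw [← Matrix.det_transpose, Matrix.transpose_mul, Matrix.transpose_transpose]
      refine Matrix.exists_mulVec_eq_zero_iff.1 ⟨u, hu, ?_⟩
      rw [← Matrix.mulVec_mulVec, h3, Matrix.mulVec_zero]
    rw [h4]
    ring
  let v0 := (Mᵀ * M).adjugate.mulVec (Mᵀ.mulVec z)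
  let w0 : Fin r → ℤ := δ • z - M.mulVec v0
  let v : α → ℤ := fun b => if μ b = i then v0 b else 0
  let w' : Fin r → ℤ := δ • z - M.mulVec v
  have hww : ∀ x, w' x = if κ x = i then w0 x else 0 := fun x => A2_part hM hz δ v0 x
  have hwS : Sup κ i w' := fun x hx => by rw [hww x, if_neg hx]
  have hMw : Mᵀ.mulVec w' = 0 := by
    refine A2_row hM hww ?_
    show Mᵀ.mulVec (δ • z - M.mulVec v0) = 0
    rw [Matrix.mulVec_sub, Matrix.mulVec_smul, Matrix.mulVec_mulVec, Matrix.mulVec_mulVec,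
      Matrix.mul_adjugate, Matrix.smul_mulVec, Matrix.one_mulVec, sub_self]
  by_cases hw : w' = 0
  · refine ⟨0, 0, 1, 0, A2_zero, fun _ _ => rfl, one_ne_zero, fun N x => ?_⟩
    have h4 : ((bx M z)ᵀ * bx N x).det = 0 := by
      rw [← Matrix.det_transpose, Matrix.transpose_mul, Matrix.transpose_transpose]
      refine Matrix.exists_mulVec_eq_zero_iff.1 ⟨Sum.elim (-v) (fun _ => δ), ?_, ?_⟩
      · intro h4
        exact hδ (congrFun h4 (Sum.inr ()))
      · have h5 : (bx M z).mulVec (Sum.elim (-v) (fun _ => δ)) = w' := by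
          unfold bx
          rw [Matrix.fromCols_mulVec]
          funext i
          rw [Pi.add_apply]
          simp only [Matrix.mulVec, dotProduct, Function.comp, Sum.elim_inl, Sum.elim_inr,
            Finset.univ_unique, Finset.sum_singleton, Matrix.replicateCol_apply]
          show ∑ b, M i b * (-v) b + z i * δ = δ • z i - M.mulVec v i
          simp only [Pi.neg_apply, mul_neg, Finset.sum_neg_distrib, smul_eq_mul, Matrix.mulVec,
            dotProduct]
          ring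
        rw [← Matrix.mulVec_mulVec, h5, hw, Matrix.mulVec_zero]
    rw [h4]
    ring
  obtain ⟨N', hNB, h1, h2⟩ := exists_orthB (κ := κ) (μ := Sum.elim μ fun _ : Unit => i) (ν := ν)
    e he (bx M z) (A2_bx hM hz)
  have hMN : Mᵀ * N' = 0 := by
    ext a b
    have h3 := congrFun (congrFun h1 (Sum.inl a)) b
    rw [Matrix.mul_apply] at h3
    rw [Matrix.mul_apply]
    exact h3
  have hzN : N'ᵀ.mulVec z = 0 := by
    funext b
    have h3 := congrFun (congrFun h1 (Sum.inr ())) b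
    rw [Matrix.mul_apply] at h3
    simp only [Matrix.mulVec, dotProduct, Matrix.transpose_apply, Pi.zero_apply]
    rw [Matrix.zero_apply] at h3
    rw [← h3]
    refine Finset.sum_congr rfl fun i _ => ?_
    show _ = z i * N' i b
    rw [mul_comm]
  have hNM : N'ᵀ * M = 0 := by
    have h3 := congrArg Matrix.transpose hMN
    rwa [Matrix.transpose_mul, Matrix.transpose_transpose, Matrix.transpose_zero] at h3
  have hNw : N'ᵀ.mulVec w' = 0 := by
    show N'ᵀ.mulVec (δ • z - M.mulVec v) = 0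
    rw [Matrix.mulVec_sub, Matrix.mulVec_smul, Matrix.mulVec_mulVec, hzN, hNM, smul_zero,
      Matrix.zero_mulVec, sub_self]
  let Y : Matrix (Fin r) (Unit ⊕ β) ℤ := fromCols (replicateCol Unit w') N'
  have hMY : Mᵀ * Y = 0 := by
    ext a b
    rcases b with b | b
    · have h3 := congrFun hMw a
      rw [Matrix.mul_apply]
      exact h3
    · have h3 := congrFun (congrFun hMN a) b
      rw [Matrix.mul_apply] at h3
      rw [Matrix.mul_apply]
      exact h3
  have hwN : (replicateCol Unit w')ᵀ * N' = 0 := by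
    ext a b
    have h3 := congrFun hNw b
    simp only [Matrix.mulVec, dotProduct, Matrix.transpose_apply, Pi.zero_apply] at h3
    rw [Matrix.mul_apply, Matrix.zero_apply, ← h3]
    refine Finset.sum_congr rfl fun i _ => ?_
    show w' i * N' i b = _
    rw [mul_comm]
  have hYY : (Yᵀ * Y).det ≠ 0 := by
    show ((fromCols (replicateCol Unit w') N')ᵀ * fromCols (replicateCol Unit w') N').det ≠ 0
    rw [det_orth hwN, det_unit]
    exact mul_ne_zero (fun h0 => hw (dotProduct_self_eq_zero.1 h0)) h2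
  refine ⟨N', w', (N'ᵀ * N').det * (Yᵀ * Y).det, jn e M z N' * dt e2 M Y,
    hNB, hwS, mul_ne_zero h2 hYY, fun N x => ?_⟩
  have h3 := dt_mul e (bx M z) (bx N x) h1
  have h4 := dt_mul e2 M N hMY
  rw [← dt_assoc e N w' N']
  calc jn e M z N' * dt e2 M Y * (jn e N x N' * dt e2 N Y) =
      (jn e M z N' * jn e N x N') * (dt e2 M Y * dt e2 N Y) := by ring
    _ = (((bx M z)ᵀ * bx N x).det * (N'ᵀ * N').det) * ((Mᵀ * N).det * (Yᵀ * Y).det) := by
      rw [h4]
      congr 1
    _ = _ := by ring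

end Pool.Agent.LibRP11
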