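import Pool.Agent.LibRP11.ADefs

/-!
[RP11 A3] colours and determinants (elementary). `exists_col`: `Matrix.det_apply`: some term
`∏ y, W (σ y) (e y)` is not zero, so `c (e y) = κ (σ y)` for all `y`; take `e' = σ⁻¹.trans e`.
`col_unique`: for all `j` the number of the `a` with `μ a = j` is the number of the `y` with `κ y = j` minus the
number of the `b` with `c b = j`; two monotone maps with the same numbers are equal (compose: there is a
permutation `σ` with `μ₂ = μ ∘ σ`; `Tuple.unique_monotone`; compare `det_ne` in LibEP66/B2.lean).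
`jn_sign`: the two matrices differ by a permutation of the columns (`Matrix.det_permute'`); `ε` is its sign.
`jn_zero`: `exists_col` for `W = fromCols (bx N x) N'`.
-/

open Matrix Pool.Agent.LibHR84
open Pool.Agent.LibEP66 (Sup Blk)
open scoped Classical

namespace Pool.Agent.LibRP11

variable {s r D D' : ℕ}

theorem exists_col {n : ℕ} {β : Type} [Fintype β] [DecidableEq β] {κ : Fin n → Fin s}
    {c : β → Fin s} (e : Fin n ≃ β) {W : Matrix (Fin n) β ℤ} (hW : BlkG κ c W)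
    (h : (W.submatrix id e).det ≠ 0) : ∃ e' : Fin n ≃ β, ∀ y, c (e' y) = κ y := by
  rw [Matrix.det_apply] at h
  obtain ⟨σ, -, hσ⟩ := Finset.exists_ne_zero_of_sum_ne_zero h
  have hp : ∏ a, (W.submatrix id e) (σ a) a ≠ 0 := by
    intro h0
    rw [h0, smul_zero] at hσ
    exact hσ rfl
  refine ⟨σ.symm.trans e, fun y => ?_⟩
  have h1 := (Finset.prod_ne_zero_iff.1 hp) (σ.symm y) (Finset.mem_univ _)
  rw [Matrix.submatrix_apply, Equiv.apply_symm_apply] at h1
  by_contra h2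
  exact h1 (hW _ _ h2)

theorem col_unique {n : ℕ} {β : Type} [Fintype β] [DecidableEq β] {κ : Fin n → Fin s}
    {μ μ₂ : Fin D → Fin s} (hμ : Monotone μ) (hμ₂ : Monotone μ₂) {c : β → Fin s}
    {e e' : Fin n ≃ Fin D ⊕ β} (he : ∀ y, Sum.elim μ c (e y) = κ y)
    (he' : ∀ y, Sum.elim μ₂ c (e' y) = κ y) : μ = μ₂ := by
  have : Finite β := Finite.of_injective (fun b => e.symm (Sum.inr b)) (fun b b' h =>
    Sum.inr_injective (e.symm.injective h))
  have key : ∀ (m : Fin D → Fin s) (f : Fin n ≃ Fin D ⊕ β), (∀ y, Sum.elim m c (f y) = κ y) →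
      ∀ j, Nat.card {a // m a = j} + Nat.card {b // c b = j} = Nat.card {y // κ y = j} := by
    intro m f hf j
    rw [← Nat.card_sum]
    refine Nat.card_congr (Equiv.trans ?_ (f.subtypeEquiv (p := fun y => κ y = j)
      (q := fun z => Sum.elim m c z = j) fun y => by rw [hf y]).symm)
    exact (Equiv.subtypeSum (p := fun z => Sum.elim m c z = j)).symm
  have h1 : ∀ j, Nonempty ({a // μ₂ a = j} ≃ {a // μ a = j}) := fun j => by
    refine Finite.card_eq.mp ?_
    have h2 := key μ e he j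
    have h3 := key μ₂ e' he' j
    omega
  have f : ∀ j, {a // μ₂ a = j} ≃ {a // μ a = j} := fun j => (h1 j).some
  have h4 : ∀ a, μ (Equiv.ofFiberEquiv f a) = μ₂ a := fun a => Equiv.ofFiberEquiv_map f a
  have h6 : μ ∘ (Equiv.ofFiberEquiv f) = μ₂ := funext h4
  have h7 : μ ∘ (Equiv.ofFiberEquiv f) = μ ∘ (1 : Equiv.Perm (Fin D)) :=
    Tuple.unique_monotone (f := μ) (by rw [h6]; exact hμ₂) (by simpa using hμ)
  rw [← h6, h7]
  rfl

theorem jn_sign (e e' : Fin r ≃ (Fin D ⊕ Unit) ⊕ Fin D') : ∃ ε : ℤ, ε * ε = 1 ∧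
    ∀ (N : Matrix (Fin r) (Fin D) ℤ) (x : Fin r → ℤ) (N' : Matrix (Fin r) (Fin D') ℤ),
      jn e' N x N' = ε * jn e N x N' := by
  refine ⟨((Equiv.Perm.sign (e'.trans e.symm) : ℤˣ) : ℤ), Int.units_coe_mul_self _, fun N x N' => ?_⟩
  unfold jn dt
  have h := Matrix.det_permute' (e'.trans e.symm)
    ((Matrix.fromCols (bx N x) N').submatrix id e)
  rw [Int.cast_id] at h
  rw [← h]
  congr 1
  ext a b
  simp

theorem jn_zero {κ : Fin r → Fin s} {μ : Fin D → Fin s} {i : Fin s} {ν : Fin D' → Fin s}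
    (e : Fin r ≃ (Fin D ⊕ Unit) ⊕ Fin D') {N : Matrix (Fin r) (Fin D) ℤ} (hN : Blk κ μ N)
    {x : Fin r → ℤ} (hx : Sup κ i x) {N' : Matrix (Fin r) (Fin D') ℤ} (hN' : Blk κ ν N')
    (h : jn e N x N' ≠ 0) :
    ∃ e' : Fin r ≃ (Fin D ⊕ Unit) ⊕ Fin D', ∀ y, col μ i ν (e' y) = κ y := by
  refine exists_col (W := Matrix.fromCols (bx N x) N') e ?_ h
  rintro y ((a | a) | a) ha
  · exact hN y a ha
  · exact hx y (Ne.symm ha)
  · exact hN' y a ha

theorem ty_unique {κ : Fin r → Fin s} {μ μ₂ : Fin D → Fin s} (hμ : Monotone μ)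
    (hμ₂ : Monotone μ₂) {i : Fin s} {ν : Fin D' → Fin s}
    {e e' : Fin r ≃ (Fin D ⊕ Unit) ⊕ Fin D'} (he : ∀ y, col μ i ν (e y) = κ y)
    (he' : ∀ y, col μ₂ i ν (e' y) = κ y) : μ = μ₂ := by
  have key : ∀ (m : Fin D → Fin s) (z : (Fin D ⊕ Unit) ⊕ Fin D'),
      Sum.elim m (Sum.elim (fun _ : Unit => i) ν) (Equiv.sumAssoc _ _ _ z) = col m i ν z := by
    rintro m ((a | a) | a) <;> rfl
  refine col_unique hμ hμ₂ (c := Sum.elim (fun _ : Unit => i) ν)
    (e := e.trans (Equiv.sumAssoc _ _ _)) (e' := e'.trans (Equiv.sumAssoc _ _ _)) (κ := κ)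
    (fun y => ?_) (fun y => ?_)
  · rw [Equiv.trans_apply, key, he]
  · rw [Equiv.trans_apply, key, he']

end Pool.Agent.LibRP11
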