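import Pool.Agent.LibRP11.A3

/-!
[RP11 A3b] the type of a complement. Let `X = bx M z`, `det (Xᵀ X) ≠ 0`. By `exists_orth` (LibHR84/Lin.lean) there is `Y`
with `Xᵀ Y = 0` and `det (Yᵀ Y) ≠ 0`, so `dt e X Y ≠ 0` (`dt_sq_ne`); as in `exists_col` (A3; `Matrix.det_apply`) there is a
permutation `σ` of the rows with `(X | Y) (σ y) (e y) ≠ 0` for all `y`: for the columns of `X` the colours match. Let
`ν₀ b = κ (σ (e.symm (inr b)))` and `ν = ν₀ ∘ Tuple.sort ν₀`, `Tuple.monotone_sort`.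
-/

open Matrix Pool.Agent.LibHR84
open Pool.Agent.LibEP66 (Sup Blk)
open scoped Classical

namespace Pool.Agent.LibRP11

variable {s r D D' : ℕ}

theorem exists_ty {κ : Fin r → Fin s} {μ : Fin D → Fin s} {i : Fin s}
    (e : Fin r ≃ (Fin D ⊕ Unit) ⊕ Fin D') {M : Matrix (Fin r) (Fin D) ℤ} (hM : Blk κ μ M)
    {z : Fin r → ℤ} (hz : Sup κ i z) (h : ((bx M z)ᵀ * bx M z).det ≠ 0) :
    ∃ ν : Fin D' → Fin s, Monotone ν ∧
      ∃ e' : Fin r ≃ (Fin D ⊕ Unit) ⊕ Fin D', ∀ y, col μ i ν (e' y) = κ y := by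
  obtain ⟨Y, h1, h2⟩ := exists_orth e (bx M z)
  have h3 := dt_sq_ne e h1 h h2
  unfold dt at h3
  rw [Matrix.det_apply] at h3
  obtain ⟨σ, -, hσ⟩ := Finset.exists_ne_zero_of_sum_ne_zero h3
  have h4 : ∀ y, fromCols (bx M z) Y (σ y) (e y) ≠ 0 := by
    intro y hy
    apply hσ
    rw [Finset.prod_eq_zero (Finset.mem_univ y) (by rw [Matrix.submatrix_apply]; exact hy),
      smul_zero]
  set ν₀ : Fin D' → Fin s := fun b => κ (σ (e.symm (Sum.inr b))) with hν₀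
  have h5 : ∀ y, col μ i ν₀ (e y) = κ (σ y) := by
    intro y
    have h6 := h4 y
    rcases he : e y with (a | u) | b
    · rw [he] at h6
      by_contra h7
      exact h6 (hM (σ y) a h7)
    · rw [he] at h6
      by_contra h7
      exact h6 (hz (σ y) (fun h8 => h7 h8.symm))
    · show κ (σ (e.symm (Sum.inr b))) = κ (σ y)
      rw [← he, Equiv.symm_apply_apply]
  set τ := Tuple.sort ν₀ with hτ
  refine ⟨ν₀ ∘ τ, Tuple.monotone_sort ν₀,
    (σ.symm.trans e).trans (Equiv.sumCongr (Equiv.refl _) τ.symm), fun y => ?_⟩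
  have h6 := h5 (σ.symm y)
  rw [Equiv.apply_symm_apply] at h6
  rw [← h6, Equiv.trans_apply, Equiv.trans_apply]
  rcases he : e (σ.symm y) with (a | u) | b
  · rfl
  · rfl
  · show ν₀ (τ (τ.symm b)) = ν₀ b
    rw [Equiv.apply_symm_apply]

end Pool.Agent.LibRP11
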