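import Pool.Agent.LibRP11.A2
import Pool.Agent.LibRP11.A3b

/-!
[RP11 A4] the kernels of LibHR84 (`kB`, `kf`; `kf p q = det (q.1ᵀ p.1) * det ((bx q.1 q.2)ᵀ (bx p.1 p.2))`, `bd = bx`
definitionally) on block matrices. Let `p' = (N', w')`, `N'` of the type `ν` (monotone).
`kB_kfB`: if there are a monotone `μ` and `e'` with `col μ i ν (e' y) = κ y` for all `y`: `F1B` for `e'` gives `q = (M, z)`.
For `p = (N, x)` of the type `μ` use `jn_sign e e'` (`ε * ε = 1`, so `kB e' = kB e`). For `p` of another type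
`μ₂` both sides are zero: `jn e N x N' ≠ 0` would give `μ₂ = μ` (`jn_zero`, `ty_unique`), and `det (Mᵀ N) = 0` by `det_ne`
(LibEP66/B2.lean). If there are no such `μ`, `e'`: `kB e p p' = 0` for all `p` (`jn_zero`); take `q = (0, 0)` with
the type `fun _ => i`, `κ₁ = 0`, `κ₂ = 1`.
`kf_kBB`: let `q = (M, z)`, `M` of the type `μ`. If `det ((bx M z)ᵀ (bx M z)) = 0` then `kf p q = 0` for all `p` (`dep_of_det`; as
in `F2` in LibHR84/Lin.lean): `p' = (0, 0)`, `κ₂ = 0`, `κ₁ = 1`. Otherwise `exists_ty` gives `ν`, `e'`; `F2B` for `e'`; the other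
types of `p` as before. `F0B'`: the same with `F0B`.
-/

open Matrix Pool.Agent.LibHR84 Pool.Agent.LibAC34
open Pool.Agent.LibEP66 (Sup Blk)
open scoped Classical

namespace Pool.Agent.LibRP11

variable {s r D D' : ℕ} {κ : Fin r → Fin s} {i : Fin s}

theorem A4_BM_zero (i : Fin s) : BM κ (0 : Matrix (Fin r) (Fin D) ℤ) :=
  ⟨fun _ => i, monotone_const, fun _ _ _ => rfl⟩

theorem A4_kB (e e' : Fin r ≃ (Fin D ⊕ Unit) ⊕ Fin D') {ε : ℤ} (hε : ε * ε = 1)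
    (h : ∀ (N : Matrix (Fin r) (Fin D) ℤ) (x : Fin r → ℤ) (N' : Matrix (Fin r) (Fin D') ℤ),
      jn e' N x N' = ε * jn e N x N') (p : PP r D) (p' : PP r D') : kB e' p p' = kB e p p' := by
  unfold kB
  rw [h, h]
  linear_combination (jn e p.1 p.2 p'.1 * jn e p.1 p'.2 p'.1) * hε

theorem A4_zero (e : Fin r ≃ (Fin D ⊕ Unit) ⊕ Fin D') {x : Fin r → ℤ} (hx : Sup κ i x)
    {ν : Fin D' → Fin s} {N' : Matrix (Fin r) (Fin D') ℤ} (hN' : Blk κ ν N')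
    (hno : ¬ ∃ μ : Fin D → Fin s, Monotone μ ∧
      ∃ e' : Fin r ≃ (Fin D ⊕ Unit) ⊕ Fin D', ∀ y, col μ i ν (e' y) = κ y)
    {N : Matrix (Fin r) (Fin D) ℤ} (hN : BM κ N) : jn e N x N' = 0 := by
  by_contra h
  obtain ⟨μ, hμ, hb⟩ := hN
  obtain ⟨e', he'⟩ := jn_zero e hb hx hN' h
  exact hno ⟨μ, hμ, e', he'⟩

theorem F0B' (e : Fin r ≃ (Fin D ⊕ Unit) ⊕ Fin D') {x : Fin r → ℤ} (hx : Sup κ i x)
    {N' : Matrix (Fin r) (Fin D') ℤ} (hN' : BM κ N') :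
    ∃ M : Matrix (Fin r) (Fin D) ℤ, BM κ M ∧ ∃ κ₁ κ₂ : ℤ, κ₂ ≠ 0 ∧ ∀ N, BM κ N →
      κ₂ * jn e N x N' = κ₁ * (Mᵀ * N).det := by
  obtain ⟨ν, hν, hb⟩ := hN'
  by_cases hex : ∃ μ : Fin D → Fin s, Monotone μ ∧
      ∃ e' : Fin r ≃ (Fin D ⊕ Unit) ⊕ Fin D', ∀ y, col μ i ν (e' y) = κ y
  · obtain ⟨μ, hμ, e', he'⟩ := hex
    obtain ⟨M, κ₁, κ₂, hM, h2, h3⟩ := F0B e' he' x hx N' hb
    obtain ⟨ε, hε, h4⟩ := jn_sign e e'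
    have hε0 : ε ≠ 0 := by
      intro h0
      rw [h0, zero_mul] at hε
      exact zero_ne_one hε
    refine ⟨M, ⟨μ, hμ, hM⟩, κ₁, κ₂ * ε, mul_ne_zero h2 hε0, fun N _ => ?_⟩
    rw [← h3 N, h4, mul_assoc]
  · refine ⟨0, A4_BM_zero i, 0, 1, one_ne_zero, fun N hN => ?_⟩
    rw [A4_zero e hx hb hex hN, mul_zero, zero_mul]

theorem kB_kfB (e : Fin r ≃ (Fin D ⊕ Unit) ⊕ Fin D') {p' : PP r D'} (hp' : BP κ i p') :
    ∃ q : PP r D, BP κ i q ∧ ∃ κ₁ κ₂ : ℤ, κ₂ ≠ 0 ∧ ∀ p, BP κ i p →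
      κ₂ * kB e p p' = κ₁ * LibCV66.kf p q := by
  obtain ⟨⟨ν, hν, hb⟩, hw⟩ := hp'
  by_cases hex : ∃ μ : Fin D → Fin s, Monotone μ ∧
      ∃ e' : Fin r ≃ (Fin D ⊕ Unit) ⊕ Fin D', ∀ y, col μ i ν (e' y) = κ y
  · obtain ⟨μ, hμ, e', he'⟩ := hex
    obtain ⟨M, z, κ₁, κ₂, hM, hz, h2, h3⟩ := F1B e' he' p'.1 hb p'.2 hw
    obtain ⟨ε, hε, h4⟩ := jn_sign e e'
    refine ⟨(M, z), ⟨⟨μ, hμ, hM⟩, hz⟩, κ₁, κ₂, h2, fun p _ => ?_⟩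
    rw [← A4_kB e e' hε h4 p p']
    exact h3 p.1 p.2
  · refine ⟨(0, 0), ⟨A4_BM_zero i, fun _ _ => rfl⟩, 0, 1, one_ne_zero, fun p hp => ?_⟩
    have h0 : kB e p p' = 0 := by
      unfold kB
      rw [A4_zero e hp.2 hb hex hp.1, zero_mul]
    rw [h0, mul_zero, zero_mul]

theorem kf_kBB (e : Fin r ≃ (Fin D ⊕ Unit) ⊕ Fin D') {q : PP r D} (hq : BP κ i q) :
    ∃ p' : PP r D', BP κ i p' ∧ ∃ κ₁ κ₂ : ℤ, κ₁ ≠ 0 ∧ ∀ p, BP κ i p →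
      κ₂ * kB e p p' = κ₁ * LibCV66.kf p q := by
  obtain ⟨M, z⟩ := q
  obtain ⟨⟨μ, hμ, hb⟩, hz⟩ := hq
  by_cases hd : ((bx M z)ᵀ * bx M z).det = 0
  · refine ⟨(0, 0), ⟨A4_BM_zero i, fun _ _ => rfl⟩, 1, 0, one_ne_zero, fun p _ => ?_⟩
    obtain ⟨v, hv, h1⟩ := dep_of_det hd
    have h2 : ((bx M z)ᵀ * bx p.1 p.2).det = 0 := by
      rw [← Matrix.det_transpose, Matrix.transpose_mul, Matrix.transpose_transpose]
      refine Matrix.exists_mulVec_eq_zero_iff.1 ⟨v, hv, ?_⟩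
      rw [← Matrix.mulVec_mulVec, h1, Matrix.mulVec_zero]
    have h3 : LibCV66.kf p (M, z) = (Mᵀ * p.1).det * ((bx M z)ᵀ * bx p.1 p.2).det := rfl
    rw [h3, h2]
    ring
  · obtain ⟨ν, hν, e', he'⟩ := exists_ty e hb hz hd
    obtain ⟨N', w', κ₁, κ₂, hN', hw', h2, h3⟩ := F2B e' he' M hb z hz
    obtain ⟨ε, hε, h4⟩ := jn_sign e e'
    refine ⟨(N', w'), ⟨⟨ν, hν, hN'⟩, hw'⟩, κ₁, κ₂, h2, fun p _ => ?_⟩
    rw [← A4_kB e e' hε h4 p (N', w')]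
    exact h3 p.1 p.2

end Pool.Agent.LibRP11
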