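import Pool.Agent.LibRP11.A4

/-!
[RP11 A5] good test points. `good_surj`: the points `g (p i)`. `finrank_good`: with `p`, `N`, `a` from `Good`: the functions
`k (·, p i)` span `sp k` (divide by `m`), and they are independent: the Gram matrix `K i' t = k (p i') (p t)` satisfies
`a * Kᵀ = N • 1`, so it is invertible. `exists_frameB`: let `X = {p // BP κ i p}`, `Y = {p' // BP κ i p'}`,
`B x y = kB e x.1 y.1`. By `kB_kfB` and `kf_kBB` (as in `sp_kB`, LibHR84/Alg.lean) `sp B` is the space `sp` of the kernel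
`kf` on `X`, of dimension `mlt κ D i` by `good_all` (LibEP66/B2.lean; `good_surj` for the surjection
`LibEP66.PP κ D i → X`, `q ↦ q.1.2`; `kf_symm`). Then `exists_ys`, `exists_xs`, `decomp` (LibHR84/Ker.lean), as in
`exists_frame` (LibHR84/Gram.lean).
-/

open Matrix Pool.Agent.LibHR84
open Pool.Agent.LibEP66 (Sup Blk Good mlt)
open scoped Classical

namespace Pool.Agent.LibRP11

theorem good_surj {P P' : Type} {k : P → P → ℤ} {k' : P' → P' → ℤ} {ι : Type} [Fintype ι]
    (g : P' → P) (hg : Function.Surjective g) (hk : ∀ p q, k' p q = k (g p) (g q))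
    (h : Good k' ι) : Good k ι := by
  obtain ⟨p, N, a, hN, ha, hx⟩ := h
  refine ⟨fun i => g (p i), N, a, hN, ?_, ?_⟩
  · intro i i'
    rw [← ha i i']
    exact Finset.sum_congr rfl fun t _ => by rw [hk]
  · intro x
    obtain ⟨x', rfl⟩ := hg x
    obtain ⟨m, c, hm, hc⟩ := hx x'
    refine ⟨m, c, hm, fun q => ?_⟩
    obtain ⟨q', rfl⟩ := hg q
    rw [← hk, hc]
    exact Finset.sum_congr rfl fun t _ => by rw [hk]

theorem finrank_good {P : Type} {k : P → P → ℤ} {ι : Type} [Fintype ι] (h : Good k ι) :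
    FiniteDimensional ℚ (sp k) ∧ Module.finrank ℚ (sp k) = Fintype.card ι := by
  obtain ⟨p, N, a, hN, ha, hx⟩ := h
  let f : ι → P → ℚ := fun i x => (k x (p i) : ℚ)
  have hspan : sp k = Submodule.span ℚ (Set.range f) := by
    apply le_antisymm
    · unfold sp
      rw [Submodule.span_le]
      rintro _ ⟨y, rfl⟩
      obtain ⟨m, c, hm, hc⟩ := hx y
      have hm' : (m : ℚ) ≠ 0 := by exact_mod_cast hm
      have h1 : (fun x => (k x y : ℚ)) = ∑ i, ((c i : ℚ) / m) • f i := by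
        funext x
        rw [Finset.sum_apply]
        have h2 : (m : ℚ) * k x y = ∑ i, (c i : ℚ) * k x (p i) := by exact_mod_cast hc x
        have h3 : (k x y : ℚ) = (∑ i, (c i : ℚ) * k x (p i)) / m := by
          rw [← h2]; field_simp
        rw [h3, Finset.sum_div]
        refine Finset.sum_congr rfl fun i _ => ?_
        rw [Pi.smul_apply, smul_eq_mul]
        ring
      show (fun x => (k x y : ℚ)) ∈ _
      rw [h1]
      exact Submodule.sum_mem _ fun i _ =>
        Submodule.smul_mem _ _ (Submodule.subset_span ⟨i, rfl⟩)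
    · rw [Submodule.span_le]
      rintro _ ⟨i, rfl⟩
      exact Submodule.subset_span ⟨p i, rfl⟩
  have hli : LinearIndependent ℚ f := by
    rw [Fintype.linearIndependent_iff]
    intro c hc
    let A : Matrix ι ι ℚ := Matrix.of fun i t => (a i t : ℚ)
    let K : Matrix ι ι ℚ := Matrix.of fun i' t => (k (p i') (p t) : ℚ)
    have hN' : (N : ℚ) ≠ 0 := by exact_mod_cast hN
    have h1 : ((N : ℚ)⁻¹ • A) * Kᵀ = 1 := by
      ext i i'
      rw [Matrix.smul_mul, Matrix.smul_apply, Matrix.mul_apply, smul_eq_mul]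
      have h2 : ∑ t, A i t * Kᵀ t i' = if i = i' then (N : ℚ) else 0 := by
        have h3 := ha i i'
        have h4 : ((∑ t, a i t * k (p i') (p t) : ℤ) : ℚ) = ((if i = i' then N else 0 : ℤ) : ℚ) := by
          rw [h3]
        push_cast at h4
        rw [← h4]
        rfl
      rw [h2, Matrix.one_apply]
      split_ifs
      · exact inv_mul_cancel₀ hN'
      · exact mul_zero _
    have h2 : Kᵀ * ((N : ℚ)⁻¹ • A) = 1 := mul_eq_one_comm.1 h1
    have h3 : ((N : ℚ)⁻¹ • A)ᵀ * K = 1 := by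
      have h4 := congrArg Matrix.transpose h2
      rw [Matrix.transpose_mul, Matrix.transpose_transpose, Matrix.transpose_one] at h4
      exact h4
    have h4 : K.mulVec c = 0 := by
      funext i'
      have h5 := congrFun hc (p i')
      rw [Finset.sum_apply] at h5
      rw [Pi.zero_apply] at h5 ⊢
      rw [← h5]
      simp only [Matrix.mulVec, dotProduct]
      refine Finset.sum_congr rfl fun t _ => ?_
      rw [Pi.smul_apply, smul_eq_mul, mul_comm]
      rfl
    have h5 : c = 0 := by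
      have h6 : ((((N : ℚ)⁻¹ • A)ᵀ * K)).mulVec c = 0 := by
        rw [← Matrix.mulVec_mulVec, h4, Matrix.mulVec_zero]
      rwa [h3, Matrix.one_mulVec] at h6
    intro i
    rw [h5]
    rfl
  rw [hspan]
  exact ⟨FiniteDimensional.span_of_finite ℚ (Set.finite_range f), finrank_span_eq_card hli⟩

variable {s r D D' : ℕ}

theorem exists_frameB (κ : Fin r → Fin s) (i : Fin s) (e : Fin r ≃ (Fin D ⊕ Unit) ⊕ Fin D') :
    ∃ (xs : Fin (mlt κ D i) → PP r D) (ys : Fin (mlt κ D i) → PP r D'),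
      (∀ a, BP κ i (xs a)) ∧ (∀ b, BP κ i (ys b)) ∧ (bt e xs ys).det ≠ 0 ∧
      (∀ p p', BP κ i p → BP κ i p' → (kB e p p' : ℚ) =
        ∑ b, ∑ a, (kB e p (ys b) : ℚ) * (bt e xs ys)⁻¹ b a * kB e (xs a) p') ∧
      ∀ p', BP κ i p' → ∃ c : Fin (mlt κ D i) → ℚ, ∀ p, BP κ i p →
        (kB e p p' : ℚ) = ∑ b, c b * kB e p (ys b) := by
  let X : Type := {p : PP r D // BP κ i p}
  let Y : Type := {p : PP r D' // BP κ i p}
  let B : X → Y → ℤ := fun x y => kB e x.1 y.1
  let kX : X → X → ℤ := fun x y => LibCV66.kf x.1 y.1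
  have hsp : sp B = sp kX := by
    apply le_antisymm
    · unfold sp
      rw [Submodule.span_le]
      rintro _ ⟨y, rfl⟩
      obtain ⟨q, hq, κ₁, κ₂, h, h1⟩ := kB_kfB e y.2
      have h2 : (fun x : X => (B x y : ℚ)) = ((κ₁ : ℚ) / κ₂) • fun x : X => (kX x ⟨q, hq⟩ : ℚ) := by
        funext x
        rw [Pi.smul_apply, smul_eq_mul]
        have h3 : (κ₂ : ℚ) * kB e x.1 y.1 = κ₁ * LibCV66.kf x.1 q := by exact_mod_cast h1 x.1 x.2
        have h4 : (κ₂ : ℚ) ≠ 0 := by exact_mod_cast h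
        show (kB e x.1 y.1 : ℚ) = (κ₁ : ℚ) / κ₂ * LibCV66.kf x.1 q
        field_simp
        linarith
      show (fun x : X => (B x y : ℚ)) ∈ _
      rw [h2]
      exact Submodule.smul_mem _ _ (Submodule.subset_span ⟨⟨q, hq⟩, rfl⟩)
    · unfold sp
      rw [Submodule.span_le]
      rintro _ ⟨q, rfl⟩
      obtain ⟨p', hp', κ₁, κ₂, h, h1⟩ := kf_kBB e q.2
      have h2 : (fun x : X => (kX x q : ℚ)) =
          ((κ₂ : ℚ) / κ₁) • fun x : X => (B x ⟨p', hp'⟩ : ℚ) := by
        funext x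
        rw [Pi.smul_apply, smul_eq_mul]
        have h3 : (κ₂ : ℚ) * kB e x.1 p' = κ₁ * LibCV66.kf x.1 q.1 := by exact_mod_cast h1 x.1 x.2
        have h4 : (κ₁ : ℚ) ≠ 0 := by exact_mod_cast h
        show (LibCV66.kf x.1 q.1 : ℚ) = (κ₂ : ℚ) / κ₁ * kB e x.1 p'
        field_simp
        linarith
      show (fun x : X => (kX x q : ℚ)) ∈ _
      rw [h2]
      exact Submodule.smul_mem _ _ (Submodule.subset_span ⟨⟨p', hp'⟩, rfl⟩)
  have hgood : Good kX (Fin (mlt κ D i)) := by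
    refine good_surj (k' := LibEP66.kp (κ := κ) (D := D) (i := i))
      (fun q : LibEP66.PP κ D i => (⟨q.1.2, ⟨q.1.1, q.2.1, q.2.2.1⟩, q.2.2.2⟩ : X)) ?_
      (fun p q => rfl) (LibEP66.good_all κ D i)
    rintro ⟨p, ⟨μ, hμ, hb⟩, hs⟩
    exact ⟨⟨(μ, p), hμ, hb, hs⟩, rfl⟩
  obtain ⟨hfin, hrk⟩ := finrank_good hgood
  rw [← hsp, Fintype.card_fin] at hrk
  rw [← hsp] at hfin
  obtain ⟨ys, hli, hys⟩ := exists_ys B hrk
  obtain ⟨xs, hxs⟩ := exists_xs B hli
  refine ⟨fun a => (xs a).1, fun b => (ys b).1, fun a => (xs a).2, fun b => (ys b).2, hxs,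
    fun p p' hp hp' => decomp B hys hxs ⟨p, hp⟩ ⟨p', hp'⟩, fun p' hp' => ?_⟩
  obtain ⟨c, hc⟩ := hys ⟨p', hp'⟩
  exact ⟨c, fun p hp => hc ⟨p, hp⟩⟩

end Pool.Agent.LibRP11
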