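import Pool.Agent.LibRP11.A4

/-!
[RP11 A6] the pairing of one colour: the block versions of `kill`, `kill_h`, `pr_hom` (LibHR84/Pair.lean); the same proofs, with `F0B'` instead of `F0` (first for a vector `z` of the
colour `i` in place of `Pi.single`, as there), and with `BM κ p.1` for `p ∈ c.support`. Components `x` with `κ x ≠ i` of
the vectors `p.2` are zero, so only the `Pi.single x 1` with `κ x = i` matter; they have the colour `i`
(`Sup κ i (Pi.single x 1)`).
-/

open Matrix Pool.Agent.LibHR84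
open Pool.Agent.LibEP66 (Sup Blk)
open scoped Classical

namespace Pool.Agent.LibRP11

variable {s r D D' : ℕ} {κ : Fin r → Fin s} {i : Fin s} {G : Type} [AddCommGroup G] {h : G → ℝ}
  (hq : ∀ R S : G, h (R + S) + h (R - S) = 2 * h R + 2 * h S)

theorem killB (e : Fin r ≃ (Fin D ⊕ Unit) ⊕ Fin D') {c : Cm r D G} (hc : BC κ i c)
    (hh : BH κ c) {N' : Matrix (Fin r) (Fin D') ℤ} (hN' : BM κ N') {x y : Fin r} (hx : κ x = i)
    (hy : κ y = i) :
    (c.sum fun p m => m * (jn e p.1 (Pi.single x 1) N' * jn e p.1 (Pi.single y 1) N')) = 0 := by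
  have h1 : ∀ z, Sup κ i z → (c.sum fun p m => m * jn e p.1 z N' ^ 2) = 0 := by
    intro z hz
    obtain ⟨M, hM, κ₁, κ₂, hκ, h2⟩ := F0B' e hz hN'
    have h3 : κ₂ ^ 2 * (c.sum fun p m => m * jn e p.1 z N' ^ 2) =
        κ₁ ^ 2 * (c.sum fun p m => m * (M.transpose * p.1).det ^ 2) := by
      unfold Finsupp.sum
      rw [Finset.mul_sum, Finset.mul_sum]
      refine Finset.sum_congr rfl fun p hp => ?_
      have h4 := h2 p.1 (hc p hp).1
      calc κ₂ ^ 2 * (c p * jn e p.1 z N' ^ 2) = c p * (κ₂ * jn e p.1 z N') ^ 2 := by ring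
        _ = _ := by rw [h4]; ring
    rw [hh M hM, mul_zero] at h3
    rcases mul_eq_zero.1 h3 with h4 | h4
    · exact absurd (pow_eq_zero_iff two_ne_zero |>.1 h4) hκ
    · exact h4
  have hl : ∀ (N : Matrix (Fin r) (Fin D) ℤ) (z w : Fin r → ℤ),
      jn e N (z + w) N' = jn e N z N' + jn e N w N' := by
    intro N z w
    rw [jn_linear e N (z + w), jn_linear e N z, jn_linear e N w, ← Finset.sum_add_distrib]
    refine Finset.sum_congr rfl fun i _ => ?_
    rw [Pi.add_apply, add_mul]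
  have hsg : ∀ z : Fin r, κ z = i → Sup κ i (Pi.single z 1) := by
    intro z hz w hw
    rw [Pi.single_apply, if_neg]
    rintro rfl
    exact hw hz
  have h2 := h1 (Pi.single x 1 + Pi.single y 1) (by
    intro w hw
    rw [Pi.add_apply, hsg x hx w hw, hsg y hy w hw, add_zero])
  have h3 := h1 (Pi.single x 1) (hsg x hx)
  have h4 := h1 (Pi.single y 1) (hsg y hy)
  have h5 : (c.sum fun p m => m * jn e p.1 (Pi.single x 1 + Pi.single y 1) N' ^ 2) =
      (c.sum fun p m => m * jn e p.1 (Pi.single x 1) N' ^ 2) +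
      (c.sum fun p m => m * jn e p.1 (Pi.single y 1) N' ^ 2) + 2 *
      (c.sum fun p m => m * (jn e p.1 (Pi.single x 1) N' * jn e p.1 (Pi.single y 1) N')) := by
    unfold Finsupp.sum
    rw [Finset.mul_sum, ← Finset.sum_add_distrib, ← Finset.sum_add_distrib]
    refine Finset.sum_congr rfl fun p _ => ?_
    beta_reduce
    rw [hl]
    ring
  rw [h2, h3, h4] at h5
  linarith

include hq in
theorem kill_hB (e : Fin r ≃ (Fin D ⊕ Unit) ⊕ Fin D') {c : Cm r D G} (hc : BC κ i c)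
    (hh : BH κ c) {g : Fin r → G} (hg : ∀ x, κ x ≠ i → g x = 0)
    {N' : Matrix (Fin r) (Fin D') ℤ} (hN' : BM κ N') :
    (c.sum fun p m => (m : ℝ) * h (lam e p.1 g N')) = 0 := by
  have h1 : ∀ p : Matrix (Fin r) (Fin D) ℤ × (Fin r → G), h (lam e p.1 g N') =
      ∑ x, ∑ y, (jn e p.1 (Pi.single x 1) N' * jn e p.1 (Pi.single y 1) N' : ℝ) *
        bh h hq (g x) (g y) := by
    intro p
    rw [← bh_self h hq, lam, bh_sum]
  have h2 : (c.sum fun p m => (m : ℝ) * h (lam e p.1 g N')) = ∑ x, ∑ y,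
      ((c.sum fun p m => m * (jn e p.1 (Pi.single x 1) N' * jn e p.1 (Pi.single y 1) N') : ℤ) : ℝ) *
        bh h hq (g x) (g y) := by
    unfold Finsupp.sum
    push_cast
    simp only [Finset.sum_mul]
    have h3 : ∀ x, ∑ y, ∑ p ∈ c.support, (c p : ℝ) * ((jn e p.1 (Pi.single x 1) N' : ℝ) *
        (jn e p.1 (Pi.single y 1) N' : ℝ)) * bh h hq (g x) (g y) =
        ∑ p ∈ c.support, ∑ y, (c p : ℝ) * ((jn e p.1 (Pi.single x 1) N' : ℝ) *
        (jn e p.1 (Pi.single y 1) N' : ℝ)) * bh h hq (g x) (g y) := fun x => Finset.sum_comm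
    rw [Finset.sum_congr rfl fun x _ => h3 x, Finset.sum_comm]
    refine Finset.sum_congr rfl fun p _ => ?_
    rw [h1, Finset.mul_sum]
    refine Finset.sum_congr rfl fun x _ => ?_
    rw [Finset.mul_sum]
    refine Finset.sum_congr rfl fun y _ => ?_
    ring
  rw [h2]
  refine Finset.sum_eq_zero fun x _ => Finset.sum_eq_zero fun y _ => ?_
  by_cases hx : κ x = i
  · by_cases hy : κ y = i
    · rw [killB e hc hh hN' hx hy, Int.cast_zero, zero_mul]
    · rw [hg y hy, map_zero, mul_zero]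
  · rw [hg x hx, map_zero, AddMonoidHom.zero_apply, mul_zero]

include hq in
theorem pr_homB (e : Fin r ≃ (Fin D ⊕ Unit) ⊕ Fin D') {c : Cm r D G} (hc : BC κ i c)
    (hh : BH κ c) {c' : Cm r D' G} (hc' : BC κ i c') (hh' : BH κ c') :
    pr h e c c' = c.sum fun p m => c'.sum fun p' m' =>
      (m * m' : ℝ) * bh h hq (lam e p.1 p.2 p'.1) (lam e p.1 p'.2 p'.1) := by
  have h1 : (c.sum fun p m => c'.sum fun p' m' =>
      (m * m' : ℝ) * h (lam e p.1 (p.2 - p'.2) p'.1)) =
      (c.sum fun p m => (m : ℝ) * c'.sum fun p' m' => (m' : ℝ) * h (lam (sw e) p'.1 p.2 p.1)) +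
      (c'.sum fun p' m' => (m' : ℝ) * c.sum fun p m => (m : ℝ) * h (lam e p.1 p'.2 p'.1)) -
      2 * c.sum fun p m => c'.sum fun p' m' =>
      (m * m' : ℝ) * bh h hq (lam e p.1 p.2 p'.1) (lam e p.1 p'.2 p'.1) := by
    unfold Finsupp.sum
    simp only [Finset.mul_sum]
    rw [Finset.sum_comm (s := c'.support), ← Finset.sum_add_distrib, ← Finset.sum_sub_distrib]
    refine Finset.sum_congr rfl fun p _ => ?_
    rw [← Finset.sum_add_distrib, ← Finset.sum_sub_distrib]
    refine Finset.sum_congr rfl fun p' _ => ?_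
    rw [lam_sub, h_sub h hq, lam_sw]
    ring
  have h2 : (c.sum fun p m => (m : ℝ) * c'.sum fun p' m' =>
      (m' : ℝ) * h (lam (sw e) p'.1 p.2 p.1)) = 0 := by
    refine Finset.sum_eq_zero fun p hp => ?_
    beta_reduce
    rw [kill_hB hq (sw e) hc' hh' (hc p hp).2 (hc p hp).1, mul_zero]
  have h3 : (c'.sum fun p' m' => (m' : ℝ) * c.sum fun p m =>
      (m : ℝ) * h (lam e p.1 p'.2 p'.1)) = 0 := by
    refine Finset.sum_eq_zero fun p' hp' => ?_
    beta_reduce
    rw [kill_hB hq e hc hh (hc' p' hp').2 (hc' p' hp').1, mul_zero]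
  unfold pr
  rw [h1, h2, h3]
  ring

end Pool.Agent.LibRP11
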