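import Pool.Agent.LibRP11.A6

/-!
[RP11 A6b] the pairing of one colour in terms of tests: the block versions of `bh_V`, `pr_tests` (LibHR84/Gram.lean); the
same proofs, with `pr_homB` (A6). Components `x` with `κ x ≠ i` of the vectors `p.2` are zero for `p ∈ c.support`, so only
the `Pi.single x 1` with `κ x = i` matter; they have the colour `i` (`Sup κ i (Pi.single x 1)`), so `hdec` applies to
`(p.1, Pi.single x 1)`. (Prove the version of `bh_V` for `p`, `p'` with `BM κ p.1`, `∀ x, κ x ≠ i → p.2 x = 0`.)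
-/

open Matrix Pool.Agent.LibHR84
open Pool.Agent.LibEP66 (Sup Blk)
open scoped Classical

namespace Pool.Agent.LibRP11

variable {s r D D' : ℕ} {κ : Fin r → Fin s} {i : Fin s} {G : Type} [AddCommGroup G] {h : G → ℝ}
  (hq : ∀ R S : G, h (R + S) + h (R - S) = 2 * h R + 2 * h S)

private theorem sup_single {x : Fin r} (hx : κ x = i) : Sup κ i (Pi.single x (1 : ℤ)) := by
  intro x' hx'
  have h1 : x' ≠ x := by
    rintro rfl
    exact hx' hx
  exact Pi.single_eq_of_ne h1 1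

private theorem bh_VB (e : Fin r ≃ (Fin D ⊕ Unit) ⊕ Fin D') {μ : ℕ} {xs : Fin μ → PP r D}
    {ys : Fin μ → PP r D'}
    (hdec : ∀ p p', BP κ i p → BP κ i p' → (kB e p p' : ℚ) =
      ∑ b, ∑ a, (kB e p (ys b) : ℚ) * (bt e xs ys)⁻¹ b a * kB e (xs a) p')
    (p : Matrix (Fin r) (Fin D) ℤ × (Fin r → G)) (p' : Matrix (Fin r) (Fin D') ℤ × (Fin r → G))
    (hp : BM κ p.1 ∧ ∀ x, κ x ≠ i → p.2 x = 0) (hp' : BM κ p'.1 ∧ ∀ x, κ x ≠ i → p'.2 x = 0) :
    bh h hq (lam e p.1 p.2 p'.1) (lam e p.1 p'.2 p'.1) =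
      ∑ b, ∑ a, (((bt e xs ys)⁻¹ b a : ℚ) : ℝ) * bh h hq (Vt (fun p => kB e p (ys b)) p)
        (Vt (fun p' => kB e (xs a) p') p') := by
  unfold lam Vt
  rw [bh_sum h hq]
  simp only [bh_sum h hq, Finset.mul_sum]
  have h1 : ∀ b, ∑ a, ∑ i, ∑ j, (((bt e xs ys)⁻¹ b a : ℚ) : ℝ) *
      ((kB e (p.1, Pi.single i 1) (ys b) * kB e (xs a) (p'.1, Pi.single j 1) : ℝ) *
        bh h hq (p.2 i) (p'.2 j)) = ∑ i, ∑ j, ∑ a, (((bt e xs ys)⁻¹ b a : ℚ) : ℝ) *
      ((kB e (p.1, Pi.single i 1) (ys b) * kB e (xs a) (p'.1, Pi.single j 1) : ℝ) *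
        bh h hq (p.2 i) (p'.2 j)) := by
    intro b
    rw [Finset.sum_comm]
    refine Finset.sum_congr rfl fun i _ => ?_
    rw [Finset.sum_comm]
  rw [Finset.sum_congr rfl fun b _ => h1 b]
  conv_rhs => rw [Finset.sum_comm]
  refine Finset.sum_congr rfl fun x _ => ?_
  conv_rhs => rw [Finset.sum_comm]
  refine Finset.sum_congr rfl fun y _ => ?_
  by_cases hx : κ x = i
  · by_cases hy : κ y = i
    · have h2 := hdec (p.1, Pi.single x 1) (p'.1, Pi.single y 1) ⟨hp.1, sup_single hx⟩ ⟨hp'.1, sup_single hy⟩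
      have h3 : (kB e (p.1, Pi.single x 1) (p'.1, Pi.single y 1) : ℝ) = ∑ b, ∑ a,
          (kB e (p.1, Pi.single x 1) (ys b) : ℝ) * (((bt e xs ys)⁻¹ b a : ℚ) : ℝ) *
          kB e (xs a) (p'.1, Pi.single y 1) := by
        have h4 := congrArg (Rat.cast : ℚ → ℝ) h2
        push_cast at h4
        exact h4
      have h5 : (jn e p.1 (Pi.single x 1) p'.1 * jn e p.1 (Pi.single y 1) p'.1 : ℝ) =
          kB e (p.1, Pi.single x 1) (p'.1, Pi.single y 1) := by
        unfold kB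
        push_cast
        rfl
      rw [h5, h3, Finset.sum_mul]
      refine Finset.sum_congr rfl fun b _ => ?_
      rw [Finset.sum_mul]
      refine Finset.sum_congr rfl fun a _ => ?_
      ring
    · rw [hp'.2 y hy]
      simp only [map_zero, mul_zero, Finset.sum_const_zero]
  · rw [hp.2 x hx]
    simp only [map_zero, AddMonoidHom.zero_apply, mul_zero, Finset.sum_const_zero]

theorem pr_testsB (e : Fin r ≃ (Fin D ⊕ Unit) ⊕ Fin D') {μ : ℕ} {xs : Fin μ → PP r D}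
    {ys : Fin μ → PP r D'}
    (hdec : ∀ p p', BP κ i p → BP κ i p' → (kB e p p' : ℚ) =
      ∑ b, ∑ a, (kB e p (ys b) : ℚ) * (bt e xs ys)⁻¹ b a * kB e (xs a) p')
    {c : Cm r D G} (hc : BC κ i c) (hh : BH κ c) {c' : Cm r D' G} (hc' : BC κ i c')
    (hh' : BH κ c') :
    pr h e c c' = ∑ b, ∑ a, (((bt e xs ys)⁻¹ b a : ℚ) : ℝ) *
      bh h hq (tk (fun p => kB e p (ys b)) c) (tk (fun p' => kB e (xs a) p') c') := by
  rw [pr_homB hq e hc hh hc' hh']
  simp only [tk_eq, bh_sum h hq, Finset.mul_sum]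
  have h1 : ∀ b, ∑ a, ∑ p ∈ c.support, ∑ p' ∈ c'.support, (((bt e xs ys)⁻¹ b a : ℚ) : ℝ) *
      ((c p * c' p' : ℝ) * bh h hq (Vt (fun p => kB e p (ys b)) p)
        (Vt (fun p' => kB e (xs a) p') p')) = ∑ p ∈ c.support, ∑ p' ∈ c'.support, ∑ a,
      (((bt e xs ys)⁻¹ b a : ℚ) : ℝ) *
      ((c p * c' p' : ℝ) * bh h hq (Vt (fun p => kB e p (ys b)) p)
        (Vt (fun p' => kB e (xs a) p') p')) := by
    intro b
    rw [Finset.sum_comm]
    refine Finset.sum_congr rfl fun p _ => ?_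
    rw [Finset.sum_comm]
  rw [Finset.sum_congr rfl fun b _ => h1 b]
  conv_rhs => rw [Finset.sum_comm]
  refine Finset.sum_congr rfl fun p hp => ?_
  conv_rhs => rw [Finset.sum_comm]
  refine Finset.sum_congr rfl fun p' hp' => ?_
  beta_reduce
  rw [bh_VB hq e hdec p p' (hc p hp) (hc' p' hp'), Finset.mul_sum]
  refine Finset.sum_congr rfl fun b _ => ?_
  rw [Finset.mul_sum]
  refine Finset.sum_congr rfl fun a _ => ?_
  ring

end Pool.Agent.LibRP11
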