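import Pool.Agent.LibRP11.A4

/-!
[RP11 A7] the tests of one colour with block matrices: the block versions of `tk_rel` (LibHR84/Alg.lean) and of `aj_left`,
`aj_right` (LibHR84/Gram.lean). `tk_relB`: expand `tk_apply`; for `p ∈ c.support` and `κ x = i` the pair
`(p.1, Pi.single x 1)` satisfies `BP κ i`, for `κ x ≠ i` we have `p.2 x = 0`. Then the same proofs, with `kB_kfB` and `kf_kBB`.
-/

open Matrix Pool.Agent.LibHR84
open Pool.Agent.LibEP66 (Sup Blk)
open scoped Classical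

namespace Pool.Agent.LibRP11

variable {s r D D' : ℕ} {κ : Fin r → Fin s} {i : Fin s} {G : Type} [AddCommGroup G]

private theorem a7_sup_single {x : Fin r} (hx : κ x = i) : Sup κ i (Pi.single x (1 : ℤ)) := by
  intro x' hx'
  have h1 : x' ≠ x := by
    rintro rfl
    exact hx' hx
  exact Pi.single_eq_of_ne h1 1

private theorem a7_apply (k : PP r D → ℤ) (c : Cm r D G) :
    tk k c = ∑ p ∈ c.support, c p • ∑ x, k (p.1, Pi.single x 1) • p.2 x := rfl

theorem tk_relB {m : ℤ} {k : PP r D → ℤ} {μ : ℕ} {a : Fin μ → ℤ} {ks : Fin μ → PP r D → ℤ}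
    (h : ∀ p, BP κ i p → m * k p = ∑ b, a b * ks b p) {c : Cm r D G} (hc : BC κ i c) :
    m • tk k c = ∑ b, a b • tk (ks b) c := by
  rw [a7_apply]
  have h1 : ∀ p ∈ c.support, m • (c p • ∑ x, k (p.1, Pi.single x 1) • p.2 x) =
      ∑ b, a b • (c p • ∑ x, ks b (p.1, Pi.single x 1) • p.2 x) := by
    intro p hp
    have h2 : m • ∑ x, k (p.1, Pi.single x 1) • p.2 x =
        ∑ b, a b • ∑ x, ks b (p.1, Pi.single x 1) • p.2 x := by
      simp only [Finset.smul_sum, smul_smul]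
      rw [Finset.sum_comm]
      refine Finset.sum_congr rfl fun x _ => ?_
      by_cases hx : κ x = i
      · rw [h (p.1, Pi.single x 1) ⟨(hc p hp).1, a7_sup_single hx⟩, Finset.sum_smul]
      · rw [(hc p hp).2 x hx]
        simp only [smul_zero, Finset.sum_const_zero]
    rw [smul_comm, h2, Finset.smul_sum]
    exact Finset.sum_congr rfl fun b _ => smul_comm _ _ _
  rw [Finset.smul_sum, Finset.sum_congr rfl h1, Finset.sum_comm]
  refine Finset.sum_congr rfl fun b _ => ?_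
  rw [a7_apply, Finset.smul_sum]

private theorem a7_rel1 {m a : ℤ} {k k' : PP r D → ℤ} (h : ∀ p, BP κ i p → m * k p = a * k' p)
    {c : Cm r D G} (hc : BC κ i c) : m • tk k c = a • tk k' c := by
  have h1 := tk_relB (μ := 1) (a := fun _ => a) (ks := fun _ => k') (fun p hp => by
    rw [h p hp, Finset.univ_unique, Finset.sum_singleton]) hc
  rw [h1, Finset.univ_unique, Finset.sum_singleton]

theorem aj_leftB (e : Fin r ≃ (Fin D ⊕ Unit) ⊕ Fin D') {μ : ℕ} {ys : Fin μ → PP r D'}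
    (hys0 : ∀ b, BP κ i (ys b))
    (hys : ∀ p', BP κ i p' → ∃ c : Fin μ → ℚ, ∀ p, BP κ i p →
      (kB e p p' : ℚ) = ∑ b, c b * kB e p (ys b))
    {c : Cm r D G} (hc : BC κ i c) :
    BAJ κ i c ↔ ∀ b, IsOfFinAddOrder (tk (fun p => kB e p (ys b)) c) := by
  constructor
  · intro hcc b
    obtain ⟨q, hq, κ₁, κ₂, hκ, h1⟩ := kB_kfB e (hys0 b)
    refine tor_of hκ ?_
    rw [a7_rel1 h1 hc]
    exact tor_smul _ (hcc q hq)
  · intro hcc q hq
    obtain ⟨p', hp', κ₁, κ₂, hκ, h1⟩ := kf_kBB e hq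
    refine tor_of hκ ?_
    rw [← a7_rel1 h1 hc]
    refine tor_smul _ ?_
    obtain ⟨u, hu⟩ := hys p' hp'
    obtain ⟨n, a, hn, ha⟩ := clear u
    refine tor_of hn ?_
    rw [tk_relB (m := n) (k := fun p => kB e p p') (a := a) (ks := fun b p => kB e p (ys b))
      (fun p hp => ?_) hc]
    · exact tor_sum fun b => tor_smul _ (hcc b)
    · have h2 : ((n * kB e p p' : ℤ) : ℚ) = ((∑ b, a b * kB e p (ys b) : ℤ) : ℚ) := by
        push_cast
        rw [hu p hp, Finset.mul_sum]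
        refine Finset.sum_congr rfl fun b _ => ?_
        rw [ha]
        ring
      exact_mod_cast h2

theorem aj_rightB (e : Fin r ≃ (Fin D ⊕ Unit) ⊕ Fin D') {μ : ℕ} {xs : Fin μ → PP r D}
    {ys : Fin μ → PP r D'} (hxs0 : ∀ a, BP κ i (xs a))
    (hdec : ∀ p p', BP κ i p → BP κ i p' → (kB e p p' : ℚ) =
      ∑ b, ∑ a, (kB e p (ys b) : ℚ) * (bt e xs ys)⁻¹ b a * kB e (xs a) p')
    {c : Cm r D' G} (hc : BC κ i c) :
    BAJ κ i c ↔ ∀ a, IsOfFinAddOrder (tk (fun p' => kB e (xs a) p') c) := by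
  have h1 := aj_leftB (sw e) (ys := xs) hxs0 (fun p hp => by
    refine ⟨fun a => ∑ b, (kB e p (ys b) : ℚ) * (bt e xs ys)⁻¹ b a, fun p' hp' => ?_⟩
    rw [kB_sw, hdec p p' hp hp', Finset.sum_comm]
    refine Finset.sum_congr rfl fun a _ => ?_
    rw [kB_sw, Finset.sum_mul]) hc
  rw [h1]
  refine forall_congr' fun a => ?_
  have h2 : (fun p' => kB (sw e) p' (xs a)) = fun p' => kB e (xs a) p' := by
    funext p'
    rw [kB_sw]
  rw [h2]

end Pool.Agent.LibRP11
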