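import Pool.Agent.LibRP11.ADefs

/-!
[RP11 A8] the parts of the colours `i` of a combination (`fgt`). `Pi.single_eq_same`, `Pi.single_eq_of_ne`;
`pairP_eq`: `LibRG11.lam hr N x N' i = LibHR84.lam (eR hr) N (fun y => x y i) N'` (`lam_eq` in LibRG11/S4.lean and
`Finset.sum_apply`), `Finsupp.sum_mapDomain_index` on the right side, `pr` is `-(∑ ..) / 2`.
-/

open Matrix Pool.Agent.LibHR84 Pool.Agent.LibRG11
open Pool.Agent.LibEP66 (Sup Blk)
open scoped Classical

namespace Pool.Agent.LibRP11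

variable {s r D D' : ℕ} {κ : Fin r → Fin s} {G : Fin s → Type} [∀ i, AddCommGroup (G i)]

theorem vec_self (g : ∀ x, G (κ x)) (x : Fin r) : vec g x (κ x) = g x := by
  unfold vec
  rw [Pi.single_eq_same]

theorem vec_ne (g : ∀ x, G (κ x)) {x : Fin r} {i : Fin s} (h : κ x ≠ i) : vec g x i = 0 := by
  unfold vec
  exact Pi.single_eq_of_ne (fun h' => h h'.symm) _

theorem vec_sub (g g' : ∀ x, G (κ x)) (x : Fin r) : vec (g - g') x = vec g x - vec g' x := by
  unfold vec
  rw [← Pi.single_sub]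
  rfl

theorem vec_mem {H : ∀ i, AddSubgroup (G i)} {g : ∀ x, G (κ x)} (hg : ∀ x, g x ∈ H (κ x))
    (x : Fin r) (i : Fin s) : vec g x i ∈ H i := by
  by_cases h : κ x = i
  · subst h
    rw [vec_self]
    exact hg x
  · rw [vec_ne g h]
    exact zero_mem _

theorem pairP_eq (hr : r = D + 1 + D') (h : ∀ i, G i → ℝ) (c : Fp G κ D) (c' : Fp G κ D') :
    pairP hr h c c' = ∑ i, pr (h i) (eR hr) (fgt i c) (fgt i c') := by
  have h1 : ∀ (N : Matrix (Fin r) (Fin D) ℤ) (g : ∀ x, G (κ x)) (g' : ∀ x, G (κ x))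
      (N' : Matrix (Fin r) (Fin D') ℤ) (i : Fin s),
      Pool.Agent.LibRG11.lam hr N (vec (g - g')) N' i =
        Pool.Agent.LibHR84.lam (eR hr) N ((fun x => vec g x i) - fun x => vec g' x i) N' := by
    intro N g g' N' i
    rw [Pool.Agent.LibRG11.lam_eq]
    unfold Pool.Agent.LibHR84.lam
    rw [Finset.sum_apply]
    refine Finset.sum_congr rfl fun x _ => ?_
    rw [Pi.smul_apply, vec_sub]
    rfl
  have h2 : ∀ i, pr (h i) (eR hr) (fgt i c) (fgt i c') =
      -(c.sum fun p m => c'.sum fun p' m' => (m * m' : ℝ) *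
        h i (Pool.Agent.LibRG11.lam hr p.2.1 (vec (p.2.2 - p'.2.2)) p'.2.1 i)) / 2 := by
    intro i
    unfold pr fgt
    congr 2
    rw [Finsupp.mapDomain.addMonoidHom_apply, Finsupp.mapDomain.addMonoidHom_apply,
      Finsupp.sum_mapDomain_index]
    · refine Finsupp.sum_congr fun p _ => ?_
      rw [Finsupp.sum_mapDomain_index]
      · refine Finsupp.sum_congr fun p' _ => ?_
        rw [h1]
      · intro q
        simp
      · intro q m m'
        push_cast
        ring
    · intro q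
      simp
    · intro q m m'
      rw [← Finsupp.sum_add]
      refine Finsupp.sum_congr fun p' _ => ?_
      push_cast
      ring
  have h4 : (c.sum fun p m => c'.sum fun p' m' => (m * m' : ℝ) *
        ∑ i, h i (Pool.Agent.LibRG11.lam hr p.2.1 (vec (p.2.2 - p'.2.2)) p'.2.1 i)) =
      ∑ i, c.sum fun p m => c'.sum fun p' m' => (m * m' : ℝ) *
        h i (Pool.Agent.LibRG11.lam hr p.2.1 (vec (p.2.2 - p'.2.2)) p'.2.1 i) := by
    simp only [Finsupp.sum, Finset.mul_sum]
    symm
    rw [Finset.sum_comm]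
    exact Finset.sum_congr rfl fun p _ => Finset.sum_comm
  unfold pairP
  rw [Finset.sum_congr rfl fun i _ => h2 i, h4, ← Finset.sum_div, Finset.sum_neg_distrib]
  ring

end Pool.Agent.LibRP11
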