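import Pool.Agent.LibRP11.A5
import Pool.Agent.LibRP11.A6b
import Pool.Agent.LibRP11.A7
import Pool.Agent.LibRP11.A8b

/-!
[RP11 A9] the pairing and the Abel-Jacobi tests. `pairP_zero`: `pairP_eq`, for every `i` a frame (`exists_frameB`),
`pr_testsB` and `bh_tor` (LibHR84/Pair.lean) with `aj_leftB`. `aj_of_pairP`: as `aj_of_pair` (LibRG11/S5.lean), with the
combination `spP κ i ν (ys b₀) R`, `R = tk (fun p => kB e p (ys b₀)) (fgt i c)`, which is in `H i` (`tk_fgt_mem`); here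
`ν` is the type of `(ys b₀).1`; the colours `j ≠ i` do not contribute (`fgt_spP_ne`, `pr` is `0` for `c' = 0`);
`tk_spc` (LibHR84/Main.lean).
-/

open Matrix Pool.Agent.LibHR84 Pool.Agent.LibRG11
open Pool.Agent.LibEP66 (Sup Blk)
open scoped Classical

namespace Pool.Agent.LibRP11

variable {s r D D' : ℕ} {κ : Fin r → Fin s} {G : Fin s → Type} [∀ i, AddCommGroup (G i)]
  {h : ∀ i, G i → ℝ}

theorem pairP_zero (hq : ∀ i (P Q : G i), h i (P + Q) + h i (P - Q) = 2 * h i P + 2 * h i Q)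
    (hr : r = D + 1 + D') {c : Fp G κ D} {c' : Fp G κ D'} (hc : HomP c) (hc' : HomP c')
    (haj : AJP c) : pairP hr h c c' = 0 := by
  rw [pairP_eq]
  refine Finset.sum_eq_zero fun i _ => ?_
  obtain ⟨xs, ys, -, hys0, -, hdec, hys⟩ := exists_frameB κ i (eR hr)
  rw [pr_testsB (hq i) (eR hr) hdec (bc_fgt hc i) (bh_fgt hc i) (bc_fgt hc' i) (bh_fgt hc' i)]
  refine Finset.sum_eq_zero fun b _ => Finset.sum_eq_zero fun a _ => ?_
  rw [bh_tor (h i) (hq i) ((aj_leftB (eR hr) hys0 hys (bc_fgt hc i)).1 (haj i) b), mul_zero]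

theorem aj_of_pairP (hq : ∀ i (P Q : G i), h i (P + Q) + h i (P - Q) = 2 * h i P + 2 * h i Q)
    (h0 : ∀ i (P : G i), h i P = 0 → IsOfFinAddOrder P) (H : ∀ i, AddSubgroup (G i))
    (hr : r = D + 1 + D') {c : Fp G κ D} (hc : HomP c) (hH : OnP H c)
    (hp : ∀ c' : Fp G κ D', HomP c' → OnP H c' → pairP hr h c c' = 0) : AJP c := by
  intro i
  obtain ⟨xs, ys, -, hys0, hdet, hdec, hys⟩ := exists_frameB κ i (eR hr)
  rw [aj_leftB (eR hr) hys0 hys (bc_fgt hc i)]
  intro b₀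
  obtain ⟨⟨ν, hν, hblk⟩, hsup⟩ := hys0 b₀
  set R := tk (fun p => kB (eR hr) p (ys b₀)) (fgt i c) with hR
  have hRH : R ∈ H i := tk_fgt_mem hH i _
  have hhom : HomP (spP κ i ν (ys b₀) R) := homP_spP hν hblk R
  have hbc : BC κ i (spc (ys b₀) R) := by
    have h3 := bc_fgt hhom i
    rwa [fgt_spP_self ν hsup R] at h3
  have hbh : BH κ (spc (ys b₀) R) := by
    have h3 := bh_fgt hhom i
    rwa [fgt_spP_self ν hsup R] at h3
  apply h0 i
  have h1 := hp _ hhom (onP_spP ν (ys b₀) hRH)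
  rw [pairP_eq, Finset.sum_eq_single i] at h1
  · rw [fgt_spP_self ν hsup R,
      pr_testsB (hq i) (eR hr) hdec (bc_fgt hc i) (bh_fgt hc i) hbc hbh] at h1
    have h2 : ∀ b, ∑ a, (((bt (eR hr) xs ys)⁻¹ b a : ℚ) : ℝ) *
        bh (h i) (hq i) (tk (fun p => kB (eR hr) p (ys b)) (fgt i c))
          (tk (fun p' => kB (eR hr) (xs a) p') (spc (ys b₀) R)) =
        (((1 : Matrix (Fin (Pool.Agent.LibEP66.mlt κ D i)) (Fin (Pool.Agent.LibEP66.mlt κ D i)) ℚ)
          b b₀ : ℚ) : ℝ) *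
          bh (h i) (hq i) (tk (fun p => kB (eR hr) p (ys b)) (fgt i c)) R := by
      intro b
      rw [← Matrix.nonsing_inv_mul _ (isUnit_iff_ne_zero.2 hdet), Matrix.mul_apply]
      push_cast
      rw [Finset.sum_mul]
      refine Finset.sum_congr rfl fun a _ => ?_
      rw [tk_spc, map_zsmul, zsmul_eq_mul]
      show _ = ((bt (eR hr) xs ys)⁻¹ b a : ℝ) * ((kB (eR hr) (xs a) (ys b₀) : ℚ) : ℝ) * _
      push_cast
      ring
    rw [Finset.sum_congr rfl fun b _ => h2 b, Finset.sum_eq_single b₀] at h1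
    · rw [Matrix.one_apply_eq, Rat.cast_one, one_mul, ← hR, bh_self] at h1
      exact h1
    · intro b _ hb
      rw [Matrix.one_apply_ne hb, Rat.cast_zero, zero_mul]
    · intro hb
      exact absurd (Finset.mem_univ b₀) hb
  · intro j _ hj
    rw [fgt_spP_ne hj]
    unfold pr
    simp only [Finsupp.sum_zero_index]
    simp
  · intro hi
    exact absurd (Finset.mem_univ i) hi

end Pool.Agent.LibRP11
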