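import Pool.Agent.LibRP11.Stmt
import Pool.Agent.LibRG11.S6
import Pool.Agent.LibRG11.S8
import Pool.Agent.LibEP66.B2

/-!
The height pairing of cycles on products of elliptic curves: definitions used in the proofs.

The algebra is done for one colour `i` at a time, with the notions of LibHR84 (`Cm r D G`, `PP r D`, `jn`,
`kB`, `tk`, `pr`, `bt`, ...; `G` is the group `G i`).
-/

open Pool.Agent.LibHR84 (PP Cm tk)
open Pool.Agent.LibEP66 (Blk Sup)
open scoped Classical

namespace Pool.Agent.LibRP11

variable {s r D D' : ℕ}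

/-- the entries between different colours are zero, for arbitrary index types -/
def BlkG {ρ α : Type} (κ : ρ → Fin s) (μ : α → Fin s) (N : Matrix ρ α ℤ) : Prop :=
  ∀ x a, μ a ≠ κ x → N x a = 0

/-- the colours of the columns of `(N | x | N')` -/
def col {α β : Type} (μ : α → Fin s) (i : Fin s) (ν : β → Fin s) : (α ⊕ Unit) ⊕ β → Fin s :=
  Sum.elim (Sum.elim μ fun _ => i) ν

/-- `N` is a block matrix, with sorted columns -/
def BM (κ : Fin r → Fin s) (N : Matrix (Fin r) (Fin D) ℤ) : Prop :=
  ∃ μ : Fin D → Fin s, Monotone μ ∧ Blk κ μ N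

/-- `N` is a block matrix, with sorted columns, and the vector has the colour `i` -/
def BP (κ : Fin r → Fin s) (i : Fin s) (p : PP r D) : Prop := BM κ p.1 ∧ Sup κ i p.2

section comb
variable {G : Type} [AddCommGroup G]

/-- the matrices of `c` are block matrices, and the vectors have the colour `i` -/
def BC (κ : Fin r → Fin s) (i : Fin s) (c : Cm r D G) : Prop :=
  ∀ p ∈ c.support, BM κ p.1 ∧ ∀ x, κ x ≠ i → p.2 x = 0

/-- the combination is homologically trivial, tested with block matrices -/
def BH (κ : Fin r → Fin s) (c : Cm r D G) : Prop :=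
  ∀ M : Matrix (Fin r) (Fin D) ℤ, BM κ M → (c.sum fun p m => m * (M.transpose * p.1).det ^ 2) = 0

/-- the Abel-Jacobi tests of the colour `i` are torsion -/
def BAJ (κ : Fin r → Fin s) (i : Fin s) (c : Cm r D G) : Prop :=
  ∀ q : PP r D, BP κ i q → IsOfFinAddOrder (tk (fun p => LibCV66.kf p q) c)

end comb

section fam
variable {G : Fin s → Type} [∀ i, AddCommGroup (G i)] {κ : Fin r → Fin s}

/-- the part of the colour `i` of a combination -/
noncomputable def fgt (i : Fin s) : Fp G κ D →+ Cm r D (G i) :=
  Finsupp.mapDomain.addMonoidHom fun p => (p.2.1, fun x => vec p.2.2 x i)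

/-- all the Abel-Jacobi tests are torsion -/
def AJP (c : Fp G κ D) : Prop := ∀ i, BAJ κ i (fgt i c)

/-- the special combination `(μ, N, w R) - (μ, N, 0)` for a point `R` of the colour `i` -/
noncomputable def spP (κ : Fin r → Fin s) (i : Fin s) (μ : Fin D → Fin s) (p : PP r D) (R : G i) :
    Fp G κ D :=
  Finsupp.single (μ, p.1, fun x => (Pi.single i (p.2 x • R) : ∀ i, G i) (κ x)) 1 -
    Finsupp.single (μ, p.1, 0) 1

/-- the homologically trivial combinations -/
noncomputable def HomPG (G : Fin s → Type) [∀ i, AddCommGroup (G i)] (κ : Fin r → Fin s) (D : ℕ) :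
    AddSubgroup (Fp G κ D) where
  carrier := {c | HomP c}
  zero_mem' := ⟨fun p hp => absurd hp (by simp), fun μ M _ => Finsupp.sum_zero_index⟩
  add_mem' := by
    rintro a b ⟨ha, ha'⟩ ⟨hb, hb'⟩
    refine ⟨fun p hp => ?_, fun μ M hM => ?_⟩
    · rcases Finset.mem_union.1 (Finsupp.support_add hp) with h | h
      · exact ha p h
      · exact hb p h
    · rw [Finsupp.sum_add_index' (fun _ => zero_mul _) (fun _ _ _ => add_mul _ _ _), ha' μ M hM,
        hb' μ M hM, add_zero]
  neg_mem' := by
    rintro a ⟨ha, ha'⟩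
    refine ⟨fun p hp => ha p (by rwa [Finsupp.support_neg] at hp), fun μ M hM => ?_⟩
    rw [Finsupp.sum_neg_index (fun _ => zero_mul _)]
    simp only [neg_mul]
    rw [Finsupp.sum, Finset.sum_neg_distrib, neg_eq_zero]
    exact ha' μ M hM

/-- the combinations with translations in `H` -/
noncomputable def OnPS (κ : Fin r → Fin s) (D : ℕ) (H : ∀ i, AddSubgroup (G i)) :
    AddSubgroup (Fp G κ D) where
  carrier := {c | OnP H c}
  zero_mem' := fun p hp => absurd hp (by simp)
  add_mem' := by
    intro a b ha hb p hp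
    rcases Finset.mem_union.1 (Finsupp.support_add hp) with h | h
    · exact ha p h
    · exact hb p h
  neg_mem' := by
    intro a ha p hp
    rw [Finsupp.support_neg] at hp
    exact ha p hp

end fam

end Pool.Agent.LibRP11
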