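import Pool.Agent.LibRP11.ADefs
import Pool.Agent.LibRP11.A8
import Pool.Agent.LibRG11.S1
import Pool.Agent.LibRG11.Exist

/-!
[RP11 C1] formal properties of the pairing. `pairP_tot`: `Finsupp.sum_mapDomain_index`; `vec (g - g') = vec g - vec g'`.
Then `pair_comm` (LibRG11/S1.lean), `pair_add` (LibRG11/Exist.lean; copy it or import), for the function
`P ↦ ∑ i, h i (P i)` on the product of the groups, which satisfies the parallelogram law (`parP`). `pairP_df`: as `pair_df`
(LibRG11/Exist.lean): `pair_sub_left`, `pair_sub_right`, `pair_single`, `lam_one` there; `Pi.single i P` in the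
product: `∑ j, h j ((Pi.single i P) j) = h i P` as `h j 0 = 0`.
-/

open Matrix Pool.Agent.LibRG11
open Pool.Agent.LibEP66 (Sup Blk)
open scoped Classical

namespace Pool.Agent.LibRP11

variable {s r D D' : ℕ} {κ : Fin r → Fin s} {G : Fin s → Type} [∀ i, AddCommGroup (G i)]
  {h : ∀ i, G i → ℝ}

/-- the combination with values in the product of the groups -/
noncomputable def tot (c : Fp G κ D) : Fc r D (∀ i, G i) :=
  c.mapDomain fun p => (p.2.1, vec p.2.2)

theorem pairP_tot (hr : r = D + 1 + D') (h : ∀ i, G i → ℝ) (c : Fp G κ D) (c' : Fp G κ D') :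
    pairP hr h c c' = pair hr (fun P => ∑ i, h i (P i)) (tot c) (tot c') := by
  unfold pairP pair tot
  congr 1
  have h0 : ∀ (p : Matrix (Fin r) (Fin D) ℤ × (Fin r → ∀ i, G i)) (m : ℤ),
      (Finsupp.mapDomain (fun p => (p.2.1, vec p.2.2)) c').sum (fun p' m' =>
        (m : ℝ) * m' * ∑ i, h i (lam hr p.1 (p.2 - p'.2) p'.1 i)) = c'.sum fun p' m' =>
        (m : ℝ) * m' * ∑ i, h i (lam hr p.1 (p.2 - vec p'.2.2) p'.2.1 i) := by
    intro p m
    rw [Finsupp.sum_mapDomain_index (h := fun (p' : Matrix (Fin r) (Fin D') ℤ × (Fin r → ∀ i, G i)) (m' : ℤ) =>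
        (m : ℝ) * m' * ∑ i, h i (lam hr p.1 (p.2 - p'.2) p'.1 i))]
    · intro b
      rw [Int.cast_zero, mul_zero, zero_mul]
    · intro b m₁ m₂
      push_cast
      ring
  simp only [h0]
  rw [Finsupp.sum_mapDomain_index (h := fun (p : Matrix (Fin r) (Fin D) ℤ × (Fin r → ∀ i, G i)) (m : ℤ) =>
    c'.sum fun p' m' => (m : ℝ) * m' * ∑ i, h i (lam hr p.1 (p.2 - vec p'.2.2) p'.2.1 i))]
  · refine Finsupp.sum_congr fun p _ => Finsupp.sum_congr fun p' _ => ?_
    have h1 : vec (p.2.2 - p'.2.2) = vec p.2.2 - vec p'.2.2 := funext fun x => vec_sub _ _ x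
    rw [h1]
  · intro b
    unfold Finsupp.sum
    refine Finset.sum_eq_zero fun p' _ => ?_
    beta_reduce
    rw [Int.cast_zero, zero_mul, zero_mul]
  · intro b m₁ m₂
    rw [← Finsupp.sum_add]
    refine Finsupp.sum_congr fun p' _ => ?_
    push_cast
    ring

theorem parP (hq : ∀ i (P Q : G i), h i (P + Q) + h i (P - Q) = 2 * h i P + 2 * h i Q)
    (P Q : ∀ i, G i) : ∑ i, h i ((P + Q) i) + ∑ i, h i ((P - Q) i) =
      2 * ∑ i, h i (P i) + 2 * ∑ i, h i (Q i) := by
  rw [Finset.mul_sum, Finset.mul_sum, ← Finset.sum_add_distrib, ← Finset.sum_add_distrib]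
  exact Finset.sum_congr rfl fun i _ => hq i (P i) (Q i)

theorem pairP_comm (hq : ∀ i (P Q : G i), h i (P + Q) + h i (P - Q) = 2 * h i P + 2 * h i Q)
    (hr : r = D + 1 + D') (hr' : r = D' + 1 + D) (c : Fp G κ D) (c' : Fp G κ D') :
    pairP hr h c c' = pairP hr' h c' c := by
  rw [pairP_tot, pairP_tot]
  exact pair_comm hr hr' (parP hq) _ _

theorem pairP_add (hr : r = D + 1 + D') (h : ∀ i, G i → ℝ) (c₁ c₂ : Fp G κ D)
    (c' : Fp G κ D') : pairP hr h (c₁ + c₂) c' = pairP hr h c₁ c' + pairP hr h c₂ c' := by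
  have h1 : tot (c₁ + c₂) = tot c₁ + tot c₂ := Finsupp.mapDomain_add
  rw [pairP_tot, pairP_tot, pairP_tot, h1, pair_add]

theorem tot_dfP (i : Fin s) (P : G i) : tot (dfP i P) = df (Pi.single i P : ∀ i, G i) := by
  have h1 : ∀ Q : G i, (Finsupp.mapDomain (fun p : (Fin 0 → Fin s) × Matrix (Fin 1) (Fin 0) ℤ ×
      (∀ _ : Fin 1, G i) => (p.2.1, vec (κ := fun _ : Fin 1 => i) p.2.2))
      (Finsupp.single (Fin.elim0, 0, fun _ => Q) (1 : ℤ))) =
        Finsupp.single (0, fun _ => (Pi.single i Q : ∀ i, G i)) 1 := by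
    intro Q
    rw [Finsupp.mapDomain_single]
    rfl
  have h2 : (Pi.single i (0 : G i) : ∀ i, G i) = 0 := Pi.single_zero i
  unfold df
  rw [← h2]
  rw [← h1 P, ← h1 0]
  unfold tot dfP
  exact map_sub (Finsupp.mapDomain.addMonoidHom _) _ _

theorem pairP_df (hq : ∀ i (P Q : G i), h i (P + Q) + h i (P - Q) = 2 * h i P + 2 * h i Q)
    (i : Fin s) (P Q : G i) : pairP (r := 1) (D := 0) (D' := 0) rfl h (dfP i P) (dfP i Q) =
      (h i (P + Q) - h i P - h i Q) / 2 := by
  have h0 : ∀ j, h j 0 = 0 := by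
    intro j
    have h1 := hq j 0 0
    rw [add_zero, sub_zero] at h1
    linarith
  have h1 : ∀ R : G i, ∑ j, h j ((Pi.single i R : ∀ i, G i) j) = h i R := by
    intro R
    rw [Finset.sum_eq_single i]
    · rw [Pi.single_eq_same]
    · intro j _ hj
      rw [Pi.single_eq_of_ne hj, h0]
    · intro h1
      exact absurd (Finset.mem_univ i) h1
  rw [pairP_tot, tot_dfP, tot_dfP, pair_df (parP hq)]
  rw [← Pi.single_add, h1, h1, h1]

end Pool.Agent.LibRP11
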