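import Pool.Agent.LibRP11.ADefs

/-!
[RP11 C2] the action of block matrices on vectors. `vec_mv`: for `A y x ≠ 0` the colours `κ x` and `τ y` are equal (`hA`),
so `vec g x = Pi.single (κ x) (g x)` is concentrated at `τ y`; the others from the definitions (`vec g x i` is additive in
`g`) and `vec_mv`.
-/

open Matrix Pool.Agent.LibRG11
open Pool.Agent.LibEP66 (Sup Blk)
open scoped Classical

namespace Pool.Agent.LibRP11

variable {s r q t D D' : ℕ} {κ : Fin r → Fin s} {τ : Fin q → Fin s} {σ : Fin t → Fin s}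
  {G : Fin s → Type} [∀ i, AddCommGroup (G i)] {h : ∀ i, G i → ℝ}

theorem C2_vec_ne (g : ∀ x, G (κ x)) (x : Fin r) {i : Fin s} (h : i ≠ κ x) : vec g x i = 0 := by
  unfold vec
  exact Pi.single_eq_of_ne h _

theorem C2_vec_same (g : ∀ x, G (κ x)) (x : Fin r) : vec g x (κ x) = g x := by
  unfold vec
  exact Pi.single_eq_same _ _

theorem vec_mv {A : Matrix (Fin q) (Fin r) ℤ} (hA : Blk τ κ A) (g : ∀ x, G (κ x)) (y : Fin q) :
    vec (mv τ A g) y = ∑ x, A y x • vec g x := by
  funext i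
  by_cases hi : i = τ y
  · subst hi
    rw [C2_vec_same]
    rfl
  · rw [C2_vec_ne _ _ hi, Finset.sum_apply]
    symm
    refine Finset.sum_eq_zero fun x _ => ?_
    rw [Pi.smul_apply]
    by_cases h : κ x = τ y
    · rw [C2_vec_ne g x (by rw [h]; exact hi), smul_zero]
    · rw [hA y x h, zero_smul]

theorem mv_add (A : Matrix (Fin q) (Fin r) ℤ) (g g' : ∀ x, G (κ x)) :
    mv τ A (g + g') = mv τ A g + mv τ A g' := by
  have h1 : ∀ x, vec (g + g') x = vec g x + vec g' x := fun x => by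
    unfold vec
    rw [Pi.add_apply, Pi.single_add]
  funext y
  rw [Pi.add_apply]
  unfold mv
  rw [← Pi.add_apply, ← Finset.sum_add_distrib]
  refine congrFun (Finset.sum_congr rfl fun x _ => ?_) _
  rw [h1, smul_add]

theorem mv_zero (A : Matrix (Fin q) (Fin r) ℤ) : mv τ A (0 : ∀ x, G (κ x)) = 0 := by
  funext y
  unfold mv
  have h1 : ∑ x, A y x • vec (0 : ∀ x, G (κ x)) x = 0 := by
    refine Finset.sum_eq_zero fun x _ => ?_
    unfold vec
    rw [Pi.zero_apply, Pi.single_zero, smul_zero]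
  rw [h1]
  rfl

theorem mv_mul (B : Matrix (Fin t) (Fin q) ℤ) {A : Matrix (Fin q) (Fin r) ℤ} (hA : Blk τ κ A)
    (g : ∀ x, G (κ x)) : mv σ B (mv τ A g) = mv σ (B * A) g := by
  funext z
  change (∑ y, B z y • vec (mv τ A g) y) (σ z) = (∑ x, (B * A) z x • vec g x) (σ z)
  refine congrFun ?_ _
  have h1 : ∀ y, B z y • vec (mv τ A g) y = ∑ x, (B z y * A y x) • vec g x := by
    intro y
    rw [vec_mv hA, Finset.smul_sum]
    exact Finset.sum_congr rfl fun x _ => by rw [mul_smul]
  rw [Finset.sum_congr rfl fun y _ => h1 y, Finset.sum_comm]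
  refine Finset.sum_congr rfl fun x _ => ?_
  rw [Matrix.mul_apply, Finset.sum_smul]

theorem mv_one (g : ∀ x, G (κ x)) : mv κ (1 : Matrix (Fin r) (Fin r) ℤ) g = g := by
  funext y
  change (∑ x, (1 : Matrix (Fin r) (Fin r) ℤ) y x • vec g x) (κ y) = g y
  have h1 : ∑ x, (1 : Matrix (Fin r) (Fin r) ℤ) y x • vec g x = vec g y := by
    rw [Finset.sum_eq_single y]
    · rw [Matrix.one_apply_eq, one_smul]
    · intro x _ hx
      rw [Matrix.one_apply_ne (fun h => hx h.symm), zero_smul]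
    · intro h
      exact absurd (Finset.mem_univ y) h
  rw [h1, C2_vec_same]

end Pool.Agent.LibRP11
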