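import Pool.Agent.LibRP11.C2
import Pool.Agent.LibRG11.S2

/-!
[RP11 C2b] the projection formula. `lam_perm`: the matrices differ by a permutation of the last `D'` columns
(`Matrix.det_permute'`). `pairP_proj`: as `pair_proj` (LibRG11/S2.lean) with `S2_term` there for the group `∀ i, G i`, in
addition `lam_perm` (with `f = Tuple.sort ..`, which depends on the symbol), and `h i (ε • P) = h i P` for `ε = ± 1`
(`S2_even`). `A (vec (g - mv κ A' g')) = vec (mv τ A g - g')`: `vec_mv`, `mv_mul`, `mv_one` (C2) and `A * A' = 1`.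
-/

open Matrix Pool.Agent.LibRG11
open Pool.Agent.LibEP66 (Sup Blk)
open scoped Classical

namespace Pool.Agent.LibRP11

variable {s r q t D D' : ℕ} {κ : Fin r → Fin s} {τ : Fin q → Fin s} {σ : Fin t → Fin s}
  {G : Fin s → Type} [∀ i, AddCommGroup (G i)] {h : ∀ i, G i → ℝ}

theorem lam_perm {X : Type} [AddCommGroup X] (hr : r = D + 1 + D') (f : Equiv.Perm (Fin D')) :
    ∃ ε : ℤ, (ε = 1 ∨ ε = -1) ∧ ∀ (N : Matrix (Fin r) (Fin D) ℤ) (x : Fin r → X)
      (N' : Matrix (Fin r) (Fin D') ℤ),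
      lam hr N x (Matrix.of fun y a => N' y (f a)) = ε • lam hr N x N' := by
  let e : Fin r ≃ Fin (D + 1) ⊕ Fin D' := (finCongr hr).trans finSumFinEquiv.symm
  let σ : Equiv.Perm (Fin r) := e.trans (((Equiv.refl _).sumCongr f).trans e.symm)
  have hσ : ((Equiv.Perm.sign σ : ℤˣ) : ℤ) = 1 ∨ ((Equiv.Perm.sign σ : ℤˣ) : ℤ) = -1 := by
    rcases Int.units_eq_one_or (Equiv.Perm.sign σ) with h | h <;> simp [h]
  refine ⟨(Equiv.Perm.sign σ : ℤˣ), hσ, fun N x N' => ?_⟩
  have hm : ∀ z : Fin r → ℤ, S2_mat hr N z (Matrix.of fun y a => N' y (f a)) =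
      (S2_mat hr N z N').submatrix id σ := by
    intro z
    ext a b
    obtain ⟨p, rfl⟩ := e.symm.surjective b
    rw [Matrix.submatrix_apply]
    rcases p with u | v
    · have h1 : σ (e.symm (Sum.inl u)) = e.symm (Sum.inl u) := by
        simp [σ]
      rw [h1]
      have h2 : Fin.cast hr (e.symm (Sum.inl u)) = Fin.castAdd D' u := by
        ext; simp [e]
      simp only [S2_mat, Matrix.of_apply, h2, Fin.append_left, id]
    · have h1 : σ (e.symm (Sum.inr v)) = e.symm (Sum.inr (f v)) := by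
        simp [σ]
      rw [h1]
      have h2 : ∀ w : Fin D', Fin.cast hr (e.symm (Sum.inr w)) = Fin.natAdd (D + 1) w := by
        intro w
        ext; simp [e]
      simp only [S2_mat, Matrix.of_apply, h2, Fin.append_right, id]
  rw [S2_lam, S2_lam, Finset.smul_sum]
  refine Finset.sum_congr rfl fun i _ => ?_
  rw [hm, Matrix.det_permute', smul_smul, Int.cast_id]

theorem pairP_proj (hq : ∀ i (P Q : G i), h i (P + Q) + h i (P - Q) = 2 * h i P + 2 * h i Q)
    (hr : r = D + 1 + (t + D')) (hs : q = D + 1 + D') {A : Matrix (Fin q) (Fin r) ℤ}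
    {A' : Matrix (Fin r) (Fin q) ℤ} {C : Matrix (Fin r) (Fin t) ℤ} {C' : Matrix (Fin t) (Fin r) ℤ}
    (hS : Spl κ τ σ A A' C C') (c : Fp G κ D) (c' : Fp G τ D') :
    pairP hr h c (pullP κ A' σ C c') = pairP hs h (pushP τ A c) c' := by
  obtain ⟨hA, hA', hC, hC', h1, h2, h3⟩ := hS
  obtain ⟨ε, hε, H⟩ := S2_term (G := ∀ i, G i) (D := D) (D' := D') hr hs h1 h2 h3
  have heven : ∀ (δ : ℤ), δ = 1 ∨ δ = -1 → ∀ P : (∀ i, G i),
      ∑ i, h i ((δ • P) i) = ∑ i, h i (P i) := by
    intro δ hδ P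
    refine Finset.sum_congr rfl fun i _ => ?_
    rcases hδ with rfl | rfl
    · rw [one_smul]
    · rw [neg_smul, one_smul, Pi.neg_apply, S2_even (hq i)]
  have key : ∀ (p : (Fin D → Fin s) × Matrix (Fin r) (Fin D) ℤ × (∀ x, G (κ x)))
      (p' : (Fin D' → Fin s) × Matrix (Fin q) (Fin D') ℤ × (∀ x, G (τ x))),
      ∑ i, h i (lam hr p.2.1 (vec (p.2.2 - mv κ A' p'.2.2))
        (Matrix.of fun x a => Fin.append (C x) ((A' * p'.2.1) x)
          (Tuple.sort (Fin.append σ p'.1) a)) i) =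
      ∑ i, h i (lam hs (A * p.2.1) (vec (mv τ A p.2.2 - p'.2.2)) p'.2.1 i) := by
    intro p p'
    obtain ⟨δ, hδ, H'⟩ := lam_perm (X := ∀ i, G i) (D := D) hr (Tuple.sort (Fin.append σ p'.1))
    have e0 : mv τ A (p.2.2 - mv κ A' p'.2.2) = mv τ A p.2.2 - p'.2.2 := by
      rw [eq_sub_iff_add_eq]
      have e2 : mv τ A (mv κ A' p'.2.2) = p'.2.2 := by
        rw [mv_mul A hA', h1, mv_one]
      have e3 := mv_add (τ := τ) A (p.2.2 - mv κ A' p'.2.2) (mv κ A' p'.2.2)
      rw [sub_add_cancel, e2] at e3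
      exact e3.symm
    have e1 : (fun i => ∑ j, A i j • vec (p.2.2 - mv κ A' p'.2.2) j) =
        vec (mv τ A p.2.2 - p'.2.2) := by
      funext y
      rw [← e0, vec_mv hA]
    have e4 := H' p.2.1 (vec (p.2.2 - mv κ A' p'.2.2))
      (Matrix.of fun x => Fin.append (C x) ((A' * p'.2.1) x))
    have e5 := H p.2.1 (vec (p.2.2 - mv κ A' p'.2.2)) p'.2.1
    rw [e1] at e5
    have e6 : lam hr p.2.1 (vec (p.2.2 - mv κ A' p'.2.2))
        (Matrix.of fun x a => Fin.append (C x) ((A' * p'.2.1) x)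
          (Tuple.sort (Fin.append σ p'.1) a)) =
        δ • ε • lam hs (A * p.2.1) (vec (mv τ A p.2.2 - p'.2.2)) p'.2.1 := by
      rw [← e5]
      exact e4
    rw [e6, heven δ hδ, heven ε hε]
  unfold pairP pullP pushP
  rw [Finsupp.sum_mapDomain_index]
  · congr 1
    refine Finsupp.sum_congr fun p _ => ?_
    rw [Finsupp.sum_mapDomain_index]
    · refine Finsupp.sum_congr fun p' _ => ?_
      rw [key]
    · intro b
      simp
    · intro b m₁ m₂
      push_cast
      ring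
  · intro b
    simp
  · intro b m₁ m₂
    rw [← Finsupp.sum_add]
    refine Finsupp.sum_congr fun p' _ => ?_
    push_cast
    ring

end Pool.Agent.LibRP11
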