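import Pool.Agent.LibRP11.ADefs

/-!
[RP11 C3] products of block matrices and images of homologically trivial combinations. `homP_push`: `A N` is a block
matrix of the same type; and `Mᵀ (A N) = (Aᵀ M)ᵀ N` with the block matrix `Aᵀ M`; `Finsupp.sum_mapDomain_index`,
`Finsupp.mapDomain_support`; compare `hom0_push` in LibRG11/Exist.lean.
-/

open Matrix Pool.Agent.LibRG11
open Pool.Agent.LibEP66 (Sup Blk)
open scoped Classical

namespace Pool.Agent.LibRP11

variable {s r q t D D' : ℕ} {κ : Fin r → Fin s} {τ : Fin q → Fin s} {σ : Fin t → Fin s}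
  {G : Fin s → Type} [∀ i, AddCommGroup (G i)]

theorem blk_mul {μ : Fin D → Fin s} {A : Matrix (Fin q) (Fin r) ℤ} {N : Matrix (Fin r) (Fin D) ℤ}
    (hA : Blk τ κ A) (hN : Blk κ μ N) : Blk τ μ (A * N) := by
  intro y a hne
  rw [Matrix.mul_apply]
  refine Finset.sum_eq_zero fun x _ => ?_
  by_cases h : κ x = τ y
  · rw [hN x a (by rw [h]; exact hne), mul_zero]
  · rw [hA y x h, zero_mul]

theorem blk_transpose {A : Matrix (Fin q) (Fin r) ℤ} (hA : Blk τ κ A) : Blk κ τ A.transpose :=
  fun x y h => hA y x h.symm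

theorem homP_push {A : Matrix (Fin q) (Fin r) ℤ} (hA : Blk τ κ A) {c : Fp G κ D}
    (hc : HomP c) : HomP (pushP τ A c) := by
  refine ⟨fun p hp => ?_, fun μ M hM => ?_⟩
  · obtain ⟨p', hp', rfl⟩ := Finset.mem_image.1 (Finsupp.mapDomain_support hp)
    exact ⟨(hc.1 p' hp').1, blk_mul hA (hc.1 p' hp').2⟩
  · unfold pushP
    rw [Finsupp.sum_mapDomain_index (fun _ => zero_mul _) (fun _ _ _ => add_mul _ _ _),
      ← hc.2 μ (A.transpose * M) (blk_mul (blk_transpose hA) hM)]
    refine Finsupp.sum_congr fun p _ => ?_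
    rw [Matrix.transpose_mul, Matrix.transpose_transpose, Matrix.mul_assoc]

end Pool.Agent.LibRP11
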