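import Pool.Agent.LibRP11.C3
import Pool.Agent.LibRP11.A1
import Pool.Agent.LibRP11.A3
import Pool.Agent.LibRG11.S3

/-!
[RP11 C3b] inverse images of homologically trivial combinations. The new types are sorted (`Tuple.monotone_sort`) and the
matrices are block matrices (the colours are permuted in the same way). The numbers: sorting the columns changes only
the sign of `det (Mᵀ ·)`. Then as `hom0_pull` (LibRG11/S3.lean), with `exists_orthB` (A1) for
`Q : Matrix (Fin (t + D)) (Fin D) ℤ` with `Qᵀ Y = 0`, `Y = Mᵀ C`, where the rows `Fin (t + D)` have the colours `ν` (the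
type of `M`), the columns of `Y` the colours `σ` and the columns of `Q` the colours of a monotone `μ₀` with
`∃ e' : Fin (t + D) ≃ Fin D ⊕ Fin t, ∀ y, Sum.elim μ₀ σ (e' y) = ν y`; if there is no such `μ₀`, all the determinants
`det (Mᵀ (C | A' N))` are zero (`exists_col` for the matrix `Mᵀ (C | A' N)`); for the symbols of another type `μ ≠ μ₀` this
determinant is zero (`exists_col`, `col_unique`), and `det ((A'ᵀ M Q)ᵀ N) = 0` (`det_ne`, LibEP66/B2.lean). `e'` in place of
`blk t D` there.
-/

open Matrix Pool.Agent.LibRG11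
open Pool.Agent.LibEP66 (Sup Blk)
open scoped Classical

namespace Pool.Agent.LibRP11

variable {s r q t D D' : ℕ} {κ : Fin r → Fin s} {τ : Fin q → Fin s} {σ : Fin t → Fin s}
  {G : Fin s → Type} [∀ i, AddCommGroup (G i)]

private theorem C3b_dt {n : ℕ} {α β : Type} [Fintype α] [DecidableEq α] [Fintype β] [DecidableEq β]
    (e e' : Fin n ≃ α ⊕ β) (N : Matrix (Fin n) α ℤ) (Y : Matrix (Fin n) β ℤ) :
    Pool.Agent.LibHR84.dt e N Y ^ 2 = Pool.Agent.LibHR84.dt e' N Y ^ 2 := by
  have h1 : (fromCols N Y).submatrix id e =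
      ((fromCols N Y).submatrix id e').submatrix id (e.trans e'.symm : Equiv.Perm (Fin n)) := by
    rw [Matrix.submatrix_submatrix]
    congr 1
    funext y
    simp
  unfold Pool.Agent.LibHR84.dt
  rw [h1, Matrix.det_permute']
  rcases Int.units_eq_one_or (Equiv.Perm.sign (e.trans e'.symm : Equiv.Perm (Fin n))) with h | h
  · rw [h]; simp
  · rw [h]; simp

private theorem C3b_col {τ' : Fin t → Fin s} {B : Matrix (Fin r) (Fin D) ℤ}
    {C : Matrix (Fin r) (Fin t) ℤ} {μ : Fin D → Fin s} (hC : Blk κ τ' C) (hB : Blk κ μ B)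
    (x : Fin r) (a : Fin (t + D)) (h : Fin.append τ' μ a ≠ κ x) : Fin.append (C x) (B x) a = 0 := by
  revert h
  refine Fin.addCases (fun b h => ?_) (fun b h => ?_) a
  · rw [Fin.append_left] at h ⊢
    exact hC x b h
  · rw [Fin.append_right] at h ⊢
    exact hB x b h

theorem homP_pull {A' : Matrix (Fin r) (Fin q) ℤ} (hA' : Blk κ τ A')
    {C : Matrix (Fin r) (Fin t) ℤ} (hC : Blk κ σ C) {c : Fp G τ D} (hc : HomP c) :
    HomP (pullP κ A' σ C c) := by
  refine ⟨fun p hp => ?_, fun ν M hM => ?_⟩
  · unfold pullP at hp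
    have h1 := Finsupp.mapDomain_support hp
    obtain ⟨p₀, hp₀, rfl⟩ := Finset.mem_image.1 h1
    obtain ⟨-, h2⟩ := hc.1 p₀ hp₀
    refine ⟨Tuple.monotone_sort (Fin.append σ p₀.1), fun x a h => ?_⟩
    exact C3b_col hC (blk_mul hA' h2) x _ h
  · unfold pullP
    rw [Finsupp.sum_mapDomain_index (fun _ => zero_mul _) (fun _ _ _ => add_mul _ _ _)]
    simp only []
    let Y : Matrix (Fin (t + D)) (Fin t) ℤ := M.transpose * C
    let P : Matrix (Fin (t + D)) (Fin q) ℤ := M.transpose * A'
    have hY : Blk ν σ Y := blk_mul (blk_transpose hM) hC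
    have hP : Blk ν τ P := blk_mul (blk_transpose hM) hA'
    -- the numbers
    have h1 : ∀ (μ : Fin D → Fin s) (N : Matrix (Fin q) (Fin D) ℤ)
        (e : Fin (t + D) ≃ Fin D ⊕ Fin t),
        (M.transpose * Matrix.of fun x a => Fin.append (C x) ((A' * N) x)
          (Tuple.sort (Fin.append σ μ) a)).det ^ 2 =
          Pool.Agent.LibHR84.dt e (P * N) Y ^ 2 := by
      intro μ N e
      have h2 : (M.transpose * Matrix.of fun x a => Fin.append (C x) ((A' * N) x)
          (Tuple.sort (Fin.append σ μ) a)) =
          (M.transpose * Matrix.of (fun x => Fin.append (C x) ((A' * N) x))).submatrix id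
            (Tuple.sort (Fin.append σ μ)) := by
        ext y a
        rw [Matrix.submatrix_apply, Matrix.mul_apply, Matrix.mul_apply]
        rfl
      have h3 : (M.transpose * Matrix.of (fun i => Fin.append (C i) ((A' * N) i))).det =
          Pool.Agent.LibHR84.dt (Pool.Agent.LibRG11.blk t D) (P * N) Y := by
        rw [mul_append, ← append_dt (Pool.Agent.LibRG11.blk t D) rfl (fun b => rfl) Y (P * N)]
        simp only [P, Y, Matrix.mul_assoc, Fin.cast_eq_self]
      rw [h2, Matrix.det_permute', h3, C3b_dt e (Pool.Agent.LibRG11.blk t D)]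
      rcases Int.units_eq_one_or (Equiv.Perm.sign (Tuple.sort (Fin.append σ μ))) with h | h
      · rw [h]; simp
      · rw [h]; simp
    by_cases hex : ∃ (μ₀ : Fin D → Fin s) (e' : Fin (t + D) ≃ Fin D ⊕ Fin t),
        ∀ y, Sum.elim μ₀ σ (e' y) = ν y
    · obtain ⟨μ₀, e', he'⟩ := hex
      simp only [h1 _ _ e']
      by_cases hYd : (Y.transpose * Y).det = 0
      · refine Finset.sum_eq_zero fun p _ => ?_
        simp only []
        rw [LibHR84.dt_zero _ _ hYd, zero_pow two_ne_zero, mul_zero]
      · obtain ⟨Q, hQb, hQ1', hQ2⟩ := exists_orthB (κ := ν) (μ := σ) (ν := μ₀)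
          (e'.trans (Equiv.sumComm _ _)) (fun y => by
            rw [← he' y, Equiv.trans_apply, Equiv.sumComm_apply]
            cases e' y <;> rfl) Y hY
        have hQ1 : Qᵀ * Y = 0 := by
          have h3 := congrArg Matrix.transpose hQ1'
          rwa [Matrix.transpose_mul, Matrix.transpose_transpose, Matrix.transpose_zero] at h3
        have h2 := LibHR84.dt_sq_ne e' hQ1 hQ2 hYd
        have h3 : ∀ N : Matrix (Fin q) (Fin D) ℤ, LibHR84.dt e' Q Y *
            LibHR84.dt e' (P * N) Y =
              ((P.transpose * Q).transpose * N).det * (Y.transpose * Y).det := by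
          intro N
          have h6 : (P.transpose * Q).transpose * N = Q.transpose * (P * N) := by
            rw [Matrix.transpose_mul P.transpose Q, Matrix.transpose_transpose, Matrix.mul_assoc]
          rw [LibHR84.dt_mul _ _ _ hQ1, h6]
        have h4 := hc.2 μ₀ (P.transpose * Q) (blk_mul (blk_transpose hP) hQb)
        have h5 : LibHR84.dt e' Q Y ^ 2 *
            (c.sum fun p m => m * LibHR84.dt e' (P * p.2.1) Y ^ 2) =
              (Y.transpose * Y).det ^ 2 *
                c.sum fun p m => m * ((P.transpose * Q).transpose * p.2.1).det ^ 2 := by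
          rw [Finsupp.mul_sum, Finsupp.mul_sum]
          refine Finset.sum_congr rfl fun p _ => ?_
          simp only []
          calc _ = c p * (LibHR84.dt e' Q Y * LibHR84.dt e' (P * p.2.1) Y) ^ 2 := by ring
            _ = _ := by rw [h3]; ring
        rw [h4, mul_zero] at h5
        exact (mul_eq_zero.1 h5).resolve_left (pow_ne_zero 2 h2)
    · refine Finset.sum_eq_zero fun p hp => ?_
      simp only []
      rw [h1 _ _ (Pool.Agent.LibRG11.blk t D)]
      obtain ⟨-, h2⟩ := hc.1 p hp
      have h3 : Pool.Agent.LibHR84.dt (Pool.Agent.LibRG11.blk t D) (P * p.2.1) Y = 0 := by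
        by_contra h4
        apply hex
        have hW : BlkG ν (Sum.elim p.1 σ) (fromCols (P * p.2.1) Y) := by
          intro y b hb
          rcases b with b | b
          · exact blk_mul hP h2 y b hb
          · exact hY y b hb
        obtain ⟨e', he'⟩ := exists_col (Pool.Agent.LibRG11.blk t D) hW h4
        exact ⟨p.1, e', he'⟩
      rw [h3, zero_pow two_ne_zero, mul_zero]

end Pool.Agent.LibRP11
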