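import Pool.Agent.LibRG11.Stmt
import Pool.Agent.LibEP66.GDefs

/-!
The height pairing of cycles on products of elliptic curves: definitions.
-/

open WeierstrassCurve Pool.Agent.LibBH2 Pool.Agent.LibIG50 Pool.Agent.LibCHd Pool.Agent.LibGG
  Pool.Agent.LibAC34 Pool.Agent.LibAF11 Pool.Agent.LibRG11
open Pool.Agent.LibEP66 (Blk prd)
open scoped Classical

namespace Pool.Agent.LibRP11

/-! ### combinations of translates -/

section comb
variable {s : ℕ} {G : Fin s → Type} [∀ i, AddCommGroup (G i)] {r q t D D' : ℕ}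

/-- formal combinations of triples `(μ, N, g)`: the colours `μ` of the columns of the integral matrix
`N`, and a vector `g` with components `g x` in the groups `G (κ x)` -/
abbrev Fp (G : Fin s → Type) (κ : Fin r → Fin s) (D : ℕ) : Type :=
  ((Fin D → Fin s) × Matrix (Fin r) (Fin D) ℤ × (∀ x, G (κ x))) →₀ ℤ

/-- the entries of the matrices `N` between different colours are zero and `μ 1 ≤ ... ≤ μ D`; and all
the numbers `∑ m (det Mᵀ N) ^ 2` are zero, for the matrices `M` of this kind -/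
def HomP {κ : Fin r → Fin s} (c : Fp G κ D) : Prop :=
  (∀ p ∈ c.support, Monotone p.1 ∧ Blk κ p.1 p.2.1) ∧
    ∀ (μ : Fin D → Fin s) (M : Matrix (Fin r) (Fin D) ℤ), Blk κ μ M →
      (c.sum fun p m => m * (M.transpose * p.2.1).det ^ 2) = 0

/-- the vector with the components `g x`, as elements of the product of the groups -/
def vec {κ : Fin r → Fin s} (g : ∀ x, G (κ x)) (x : Fin r) : ∀ i, G i := Pi.single (κ x) (g x)

/-- the pairing `-1/2 ∑ m m' h (det (N | g - g' | N'))` of two combinations `∑ m (μ, N, g)` and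
`∑ m' (μ', N', g')`, where `h P` is the sum of the `h i (P i)` for `P` in the product of the groups -/
noncomputable def pairP {κ : Fin r → Fin s} (hr : r = D + 1 + D') (h : ∀ i, G i → ℝ)
    (c : Fp G κ D) (c' : Fp G κ D') : ℝ :=
  -(1 / 2) * c.sum fun p m => c'.sum fun p' m' =>
    m * m' * ∑ i, h i (lam hr p.2.1 (vec (p.2.2 - p'.2.2)) p'.2.1 i)

/-- the vector `A g` -/
def mv {κ : Fin r → Fin s} (τ : Fin q → Fin s) (A : Matrix (Fin q) (Fin r) ℤ)
    (g : ∀ x, G (κ x)) : ∀ y, G (τ y) :=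
  fun y => (∑ x, A y x • vec g x) (τ y)

/-- the direct image `∑ m (μ, A N, A g)` of `∑ m (μ, N, g)` -/
noncomputable def pushP {κ : Fin r → Fin s} (τ : Fin q → Fin s) (A : Matrix (Fin q) (Fin r) ℤ)
    (c : Fp G κ D) : Fp G τ D :=
  c.mapDomain fun p => (p.1, A * p.2.1, mv τ A p.2.2)

/-- the combination `∑ m ((σ | μ), (C | B N), B g)`, if `c` is `∑ m (μ, N, g)`; the columns are sorted
by their colours -/
noncomputable def pullP {τ : Fin q → Fin s} (κ : Fin r → Fin s) (B : Matrix (Fin r) (Fin q) ℤ)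
    (σ : Fin t → Fin s) (C : Matrix (Fin r) (Fin t) ℤ) (c : Fp G τ D) : Fp G κ (t + D) :=
  c.mapDomain fun p =>
    (Fin.append σ p.1 ∘ Tuple.sort (Fin.append σ p.1),
      Matrix.of fun x a => Fin.append (C x) ((B * p.2.1) x) (Tuple.sort (Fin.append σ p.1) a),
      mv κ B p.2.2)

/-- `A` is a homomorphism with a section `A'` and with the kernel `C`, which is a direct factor; all
matrices have the entries zero between different colours -/
def Spl (κ : Fin r → Fin s) (τ : Fin q → Fin s) (σ : Fin t → Fin s) (A : Matrix (Fin q) (Fin r) ℤ)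
    (A' : Matrix (Fin r) (Fin q) ℤ) (C : Matrix (Fin r) (Fin t) ℤ)
    (C' : Matrix (Fin t) (Fin r) ℤ) : Prop :=
  Blk τ κ A ∧ Blk κ τ A' ∧ Blk κ σ C ∧ Blk σ κ C' ∧ A * A' = 1 ∧ A * C = 0 ∧ C' * C = 1

/-- the zero-cycle `(P) - (0)` on the curve with the number `i` -/
noncomputable def dfP (i : Fin s) (P : G i) : Fp G (fun _ : Fin 1 => i) 0 :=
  Finsupp.single (Fin.elim0, 0, fun _ => P) 1 - Finsupp.single (Fin.elim0, 0, fun _ => 0) 1

/-- the points which appear in `c` are in the groups `H i` -/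
def OnP {κ : Fin r → Fin s} (H : ∀ i, AddSubgroup (G i)) (c : Fp G κ D) : Prop :=
  ∀ p ∈ c.support, ∀ x, p.2.2 x ∈ H (κ x)

end comb

/-! ### the geometry -/

section geo
variable {K : Type} [Field K] [Algebra K Qb] {s : ℕ} (E : Fin s → WeierstrassCurve K)

/-- the points over `K` of the curve `E i` -/
abbrev Pt (i : Fin s) : Type := (E i).toAffine.Point

/-- the class in `CH_D (A)` of the cycle `∑ m (N_* B + g)` on the product `A` of the curves `E (κ x)`,
`c = ∑ m (μ, N, g)`, where `B` is the product of the curves `E (μ a)` and `ξ μ` its generic point -/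
noncomputable def clP {r D : ℕ} {κ : Fin r → Fin s} {F : (Fin D → Fin s) → Type}
    [∀ μ, Field (F μ)] [∀ μ, Algebra Qb (F μ)]
    (ξ : ∀ μ a, ((prd E μ a)⁄(F μ)).toAffine.Point) (c : Fp (Pt E) κ D) :
    CH (prd E κ) (pt0 Qb) D :=
  c.sum fun p m => m • cl (V := prd E p.1) (Algebra.ofId Qb (F p.1)) D (ξ p.1) (org (prd E κ))
    p.2.1 fun x => constPt Qb (p.2.2 x)

/-- for all `P` in `H i` and `Q` in `H j` the zero-cycle `(P, Q) - (P, 0) - (0, Q) + (0, 0)` is torsion in
the Chow group `CH_0 (E i × E j)` -/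
def SelfP (H : ∀ i, AddSubgroup (Pt E i)) : Prop :=
  ∀ (κ : Fin 2 → Fin s) (a : ∀ x, Pt E (κ x)), (∀ x, a x ∈ H (κ x)) →
    IsOfFinAddOrder (sq (W := prd E κ) fun x => constPt Qb (a x))

/-- the same for all points of the curves over `K` -/
def SelfT : Prop := SelfP E fun _ => ⊤

/-- `B r κ D D' c c'`, for homologically trivial combinations `c` and `c'` of dimensions `D` and `D'` on
the product of the `r = D + 1 + D'` curves `E (κ x)`, is a height pairing: biadditive, symmetric, zero if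
the class of `c` is torsion, with the projection formula for the homomorphisms `A` of products with a
section `A'` and a kernel `C`, and equal to the Neron-Tate pairing on the curves -/
structure IsHtP {F : ∀ D, (Fin D → Fin s) → Type} [∀ D μ, Field (F D μ)]
    [∀ D μ, Algebra Qb (F D μ)] (ξ : ∀ D μ a, ((prd E μ a)⁄(F D μ)).toAffine.Point)
    (h : ∀ i, Pt E i → ℝ)
    (B : ∀ (r : ℕ) (κ : Fin r → Fin s) (D D' : ℕ), Fp (Pt E) κ D → Fp (Pt E) κ D' → ℝ) :
    Prop where
  add : ∀ r κ D D', r = D + 1 + D' → ∀ c₁ c₂ c', HomP c₁ → HomP c₂ → HomP c' →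
    B r κ D D' (c₁ + c₂) c' = B r κ D D' c₁ c' + B r κ D D' c₂ c'
  comm : ∀ r κ D D', r = D + 1 + D' → ∀ c c', HomP c → HomP c' → B r κ D D' c c' = B r κ D' D c' c
  tors : ∀ r κ D D', r = D + 1 + D' → ∀ c c', HomP c → HomP c' →
    IsOfFinAddOrder (clP E (ξ D) c) → B r κ D D' c c' = 0
  proj : ∀ r q t D D', r = q + t → q = D + 1 + D' → ∀ (κ : Fin r → Fin s) (τ : Fin q → Fin s)
    (σ : Fin t → Fin s) (A : Matrix (Fin q) (Fin r) ℤ) (A' : Matrix (Fin r) (Fin q) ℤ)
    (C : Matrix (Fin r) (Fin t) ℤ) (C' : Matrix (Fin t) (Fin r) ℤ), Spl κ τ σ A A' C C' →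
    ∀ c c', HomP c → HomP c' →
      B r κ D (t + D') c (pullP κ A' σ C c') = B q τ D D' (pushP τ A c) c'
  nrm : ∀ i P Q, B 1 (fun _ => i) 0 0 (dfP i P) (dfP i Q) = (h i (P + Q) - h i P - h i Q) / 2

end geo

end Pool.Agent.LibRP11
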