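import Pool.Agent.LibRP11.A8b
import Pool.Agent.LibEP66.M2
import Pool.Agent.LibRG11.Tors

/-!
[RP11 G1] the combinations of LibEP66. `toSy`: the combination in the form of LibEP66 (`Sy`). `clP_actP`:
`Finsupp.sum_mapDomain_index`; the degrees `D` and `0 + D` differ, see `castT` (LibRG11/Tors.lean) for the cast.
`tst_toSy`: `det_bdet` (LibEP66/M.lean), `tk_apply`, `constHom`; `trk (prd E κ x) ((E i)⁄Qb) (constPt Qb (g x))` is
`constPt Qb (vec g x i)`: `κ x = i` or not (`trk_self`, `trk_ne`, `vec_self`, `vec_ne`; the curves over `Qb` are different: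
`hinj`, `baseChange_injective` as in LibEP66/M.lean); `LibMul34.kf` and `LibCV66.kf` are the same by definition. Both
sides are additive in `c`: `Finsupp.induction_linear`.
-/

open WeierstrassCurve Pool.Agent.LibBH2 Pool.Agent.LibIG50 Pool.Agent.LibCHd Pool.Agent.LibGG
  Pool.Agent.LibAC34 Pool.Agent.LibAF11 Pool.Agent.LibRG11
open Pool.Agent.LibEP66 (Blk prd Sy actP tst)
open scoped Classical

namespace Pool.Agent.LibRP11

variable {K : Type} [Field K] [Algebra K Qb] {s r D : ℕ} {E : Fin s → WeierstrassCurve K}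
  {κ : Fin r → Fin s}

/-- the combination in the form of LibEP66 -/
noncomputable def toSy (c : Fp (Pt E) κ D) : Sy E κ D →₀ ℤ :=
  c.mapDomain fun p => (p.1, p.2.1, fun x => constPt Qb (p.2.2 x))

theorem clP_actP {F : (Fin D → Fin s) → Type} [∀ μ, Field (F μ)] [∀ μ, Algebra Qb (F μ)]
    (ξ : ∀ μ a, ((prd E μ a)⁄(F μ)).toAffine.Point) (c : Fp (Pt E) κ D) :
    IsOfFinAddOrder (clP E ξ c) ↔ IsOfFinAddOrder
      (actP (fun μ => Algebra.ofId Qb (F μ)) (0 + D) ξ (org (prd E κ)) (toSy c)) := by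
  have key : ∀ n n' : ℕ, n = n' →
      (IsOfFinAddOrder (c.sum fun p m => m • (cl (V := prd E p.1) (Algebra.ofId Qb (F p.1)) n
        (ξ p.1) (org (prd E κ)) p.2.1 (fun x => constPt Qb (p.2.2 x)) :
          CH (prd E κ) (pt0 Qb) n)) ↔
      IsOfFinAddOrder (c.sum fun p m => m • (cl (V := prd E p.1) (Algebra.ofId Qb (F p.1)) n'
        (ξ p.1) (org (prd E κ)) p.2.1 (fun x => constPt Qb (p.2.2 x)) :
          CH (prd E κ) (pt0 Qb) n'))) := by
    rintro n _ rfl
    rfl
  have h1 : actP (fun μ => Algebra.ofId Qb (F μ)) (0 + D) ξ (org (prd E κ)) (toSy c) =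
      c.sum fun p m => m • (cl (V := prd E p.1) (Algebra.ofId Qb (F p.1)) (0 + D)
        (ξ p.1) (org (prd E κ)) p.2.1 (fun x => constPt Qb (p.2.2 x)) :
          CH (prd E κ) (pt0 Qb) (0 + D)) := by
    unfold actP toSy
    exact Finsupp.sum_mapDomain_index (fun _ => zero_zsmul _) (fun _ _ _ => add_zsmul _ _ _)
  rw [h1]
  exact key D (0 + D) (zero_add D).symm

theorem tst_toSy (hinj : Function.Injective E) (i : Fin s) (q : LibEP66.PP κ D i)
    (c : Fp (Pt E) κ D) : tst E i q (toSy c) =
      constPt Qb (LibHR84.tk (fun p => LibCV66.kf p q.1.2) (fgt i c)) := by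
  have hval : ∀ (g : ∀ x, Pt E (κ x)) (x : Fin r),
      trk (prd E κ x) ((E i)⁄Qb) (constPt Qb (g x)) = constPt Qb (vec g x i) := by
    intro g x
    by_cases hx : κ x = i
    · subst hx
      rw [trk_self, vec_self]
    · have h3 : prd E κ x ≠ ((E i)⁄Qb) := fun h4 => hx (hinj (baseChange_injective h4))
      rw [trk_ne h3, vec_ne g hx]
      rfl
  change tst E i q (toSy c) =
    constHom Qb (E i) (LibHR84.tk (fun p => LibCV66.kf p q.1.2) (fgt i c))
  induction c using Finsupp.induction_linear with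
  | zero =>
    have h1 : toSy (0 : Fp (Pt E) κ D) = 0 := Finsupp.mapDomain_zero
    rw [h1, map_zero, map_zero, map_zero, map_zero]
  | add c c' h h' =>
    have h1 : toSy (c + c') = toSy c + toSy c' := Finsupp.mapDomain_add
    rw [h1, map_add, map_add, map_add, map_add, h, h']
  | single p n =>
    have h1 : toSy (Finsupp.single p n) =
        Finsupp.single ((p.1, p.2.1, fun x => constPt Qb (p.2.2 x)) : Sy E κ D) n :=
      Finsupp.mapDomain_single
    have h2 : fgt i (Finsupp.single p n) = Finsupp.single (p.2.1, fun x => vec p.2.2 x i) n :=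
      Finsupp.mapDomain_single
    rw [h1, h2, LibEP66.tst_single, LibHR84.tk_single, map_zsmul, LibEP66.det_bdet, map_sum]
    congr 1
    refine Finset.sum_congr rfl fun x _ => ?_
    rw [map_zsmul, hval]
    rfl

end Pool.Agent.LibRP11
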