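import Pool.Agent.LibRP11.G1

/-!
[RP11 G1b] torsion classes have torsion Abel-Jacobi image: `clP_actP`, `converseP` (LibEP66/E2.lean) with `allDim_bot`
(LibRG11/Tors.lean) and `u = org _`, for `q : PP r D` with `BP κ i q` (`q.1` has a type `μ`), `tst_eq`, `tst_toSy` for
`⟨(μ, q.1, q.2), _⟩`, `tors_const` (LibRG11/Tors.lean; `constPt Qb` and `constHom Qb` are the same map), `mat_iff`.
-/

open WeierstrassCurve Pool.Agent.LibBH2 Pool.Agent.LibIG50 Pool.Agent.LibCHd Pool.Agent.LibGG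
  Pool.Agent.LibAC34 Pool.Agent.LibAF11 Pool.Agent.LibRG11
open Pool.Agent.LibEP66 (Blk prd Sy actP tst)
open scoped Classical

namespace Pool.Agent.LibRP11

variable {K : Type} [Field K] [Algebra K Qb] {s r D : ℕ} {E : Fin s → WeierstrassCurve K}
  {κ : Fin r → Fin s}

/-- **Torsion classes have torsion Abel-Jacobi image.** -/
theorem aj_of_torsP (hE : ∀ i, (E i).IsElliptic) (hinj : Function.Injective E)
    {F : (Fin D → Fin s) → Type} [∀ μ, Field (F μ)] [∀ μ, Algebra Qb (F μ)]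
    {ξ : ∀ μ a, ((prd E μ a)⁄(F μ)).toAffine.Point}
    (hξ : ∀ μ, IsGen 0 (Algebra.ofId Qb (F μ)) (prd E μ) (ξ μ)) {c : Fp (Pt E) κ D}
    (hc : HomP c) (ht : IsOfFinAddOrder (clP E ξ c)) : AJP c := by
  intro i q hq
  obtain ⟨⟨μ, hμ, hM⟩, hz⟩ := hq
  let q' : LibEP66.PP κ D i := ⟨(μ, q.1, q.2), hμ, hM, hz⟩
  have h1 := (clP_actP ξ c).1 ht
  have hsup : ∀ p ∈ (toSy c).support, Monotone p.1 ∧ Mat (prd E p.1) (prd E κ) p.2.1 := by
    intro p hp
    obtain ⟨p', hp', rfl⟩ := Finset.mem_image.1 (Finsupp.mapDomain_support hp)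
    exact ⟨(hc.1 p' hp').1, (LibEP66.mat_iff hinj).2 (hc.1 p' hp').2⟩
  have h2 := (LibEP66.converseP allDim_bot hE hinj (org (prd E κ))
    (fun μ => Algebra.ofId Qb (F μ)) ξ hξ (toSy c) hsup h1 hμ
    ((LibEP66.mat_iff hinj).2 hM)).2 i q.2 hz
  have h3 := LibEP66.tst_eq i q' (toSy c)
  have h4 := tst_toSy hinj i q' c
  have h5 : IsOfFinAddOrder (constHom Qb (E i)
      (LibHR84.tk (fun p => LibCV66.kf p q) (fgt i c))) := by
    have h6 := h4.symm.trans h3
    have h7 : constHom Qb (E i) (LibHR84.tk (fun p => LibCV66.kf p q) (fgt i c)) =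
        constPt Qb (LibHR84.tk (fun p => LibCV66.kf p q'.1.2) (fgt i c)) := rfl
    rw [h7, h6]
    exact h2
  exact tors_const.1 h5

end Pool.Agent.LibRP11
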