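import Pool.Agent.LibRP11.G1

/-!
[RP11 G1c] combinations with torsion Abel-Jacobi image are torsion. First `Pw Γ` (as `pw_grd`, LibRG11/Tors.lean) for the
grid `Γ W = if h : ∃ i, (E i)⁄Qb = W then h.choose_spec ▸ (H h.choose).map (constHom Qb (E h.choose)) else ⊥`; compare
LibEP66/S1.lean; `Γ ((E i)⁄Qb) = (H i).map (constHom Qb (E i))` by `hinj`. For `P` in `H i`, `Q` in `H j` use `hH` with
`κ = ![i, j]`. Then `tor_iff` (LibEP66/M2.lean) with `LibAC6.all_dim'`, `allDim_bot` and `clP_actP`, `tst_toSy`; `toSy c` is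
in `ZP0g Γ E κ D`: the points are rational over `K`, so it is invariant under the Galois group
(`gal_constPt`); the support of `mapDomain`; `mat_iff`; `BP κ i q.1.2` for `q : LibEP66.PP κ D i`.
-/

open WeierstrassCurve Pool.Agent.LibBH2 Pool.Agent.LibIG50 Pool.Agent.LibCHd Pool.Agent.LibGG
  Pool.Agent.LibAC34 Pool.Agent.LibAF11 Pool.Agent.LibRG11
open Pool.Agent.LibEP66 (Blk prd Sy actP tst)
open scoped Classical

namespace Pool.Agent.LibRP11

variable {K : Type} [Field K] [Algebra K Qb] {s r D : ℕ} {E : Fin s → WeierstrassCurve K}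
  {κ : Fin r → Fin s}

/-- the grid of the groups `H i` -/
noncomputable def grdP (E : Fin s → WeierstrassCurve K) (H : ∀ i, AddSubgroup (Pt E i)) : Grid :=
  fun W => if h : ∃ i, (E i)⁄Qb = W then
    h.choose_spec ▸ (H h.choose).map (constHom Qb (E h.choose)) else ⊥

theorem grdP_self (hinj : Function.Injective E) (H : ∀ i, AddSubgroup (Pt E i)) (i : Fin s) :
    grdP E H ((E i)⁄Qb) = (H i).map (constHom Qb (E i)) := by
  have hcast : ∀ (j i : Fin s) (h : (E j)⁄Qb = (E i)⁄Qb),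
      (h ▸ (H j).map (constHom Qb (E j)) : AddSubgroup ((E i)⁄Qb).toAffine.Point) =
        (H i).map (constHom Qb (E i)) := by
    intro j i h
    have h1 : j = i := hinj (WeierstrassCurve.map_injective (algebraMap K Qb).injective h)
    subst h1
    rfl
  have h : ∃ j, (E j)⁄Qb = (E i)⁄Qb := ⟨i, rfl⟩
  have h1 : grdP E H ((E i)⁄Qb) =
      h.choose_spec ▸ (H h.choose).map (constHom Qb (E h.choose)) := dif_pos h
  rw [h1]
  exact hcast _ _ _

theorem grdP_ne (H : ∀ i, AddSubgroup (Pt E i)) {W : WeierstrassCurve Qb}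
    (h : ¬ ∃ i, (E i)⁄Qb = W) : grdP E H W = ⊥ := dif_neg h

theorem pw_grdP (hE : ∀ i, (E i).IsElliptic) (hinj : Function.Injective E)
    {H : ∀ i, AddSubgroup (Pt E i)} (hH : SelfP E H) : Pw (grdP E H) := by
  intro W W' hW hW' P hP Q hQ
  by_cases h1 : ∃ i, (E i)⁄Qb = W
  · by_cases h2 : ∃ j, (E j)⁄Qb = W'
    · obtain ⟨i, rfl⟩ := h1
      obtain ⟨j, rfl⟩ := h2
      rw [grdP_self hinj] at hP hQ
      obtain ⟨P', hP', rfl⟩ := hP
      obtain ⟨Q', hQ', rfl⟩ := hQ
      let κ : Fin 2 → Fin s := ![i, j]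
      let a : ∀ x, Pt E (κ x) := Fin.cons P' (Fin.cons Q' (fun x => x.elim0))
      have h3 := hH κ a (by
        intro x
        fin_cases x
        · exact hP'
        · exact hQ')
      let W : Fin 2 → WeierstrassCurve Qb := prd E κ
      have hWW : ∀ x, (W x).IsElliptic := fun x => by
        have := hE (κ x)
        exact inferInstanceAs ((E (κ x)).map (algebraMap K Qb)).IsElliptic
      let b : LibIG50.Pts W := fun x => constPt Qb (a x)
      have h4 : IsOfFinAddOrder (LibAC6.ptC b - LibAC6.ptC (Function.update b 1 0) -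
          LibAC6.ptC (Function.update b 0 0) + LibAC6.ptC 0) := by
        unfold LibAF11.sq at h3
        rw [ptC_eq, ptC_eq, ptC_eq, ptC_eq] at h3
        exact h3
      have h5 := (LibAC6.thCH hWW).isOfFinAddOrder h4
      rw [map_add, map_sub, map_sub, LibAC6.thCH_ptC, LibAC6.thCH_ptC, LibAC6.thCH_ptC,
        LibAC6.thCH_ptC] at h5
      exact h5
    · rw [grdP_ne H h2] at hQ
      rw [AddSubgroup.mem_bot.1 hQ, LibER66.zc_zero_right]
      exact IsOfFinAddOrder.zero
  · rw [grdP_ne H h1] at hP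
    rw [AddSubgroup.mem_bot.1 hP, LibER66.zc_zero_left]
    exact IsOfFinAddOrder.zero

private theorem gal_constPt {K : Type} [Field K] [Algebra K Qb] {E : WeierstrassCurve K}
    (σ : Qb ≃ₐ[K] Qb) (P : E.toAffine.Point) : gal σ (constPt Qb P) = constPt Qb P := by
  rcases P with _ | ⟨x, y, h⟩
  · rfl
  · have h1 : ∀ z : K, (σ : Qb →ₐ[K] Qb) (algebraMap K Qb z) = algebraMap K Qb z :=
      fun z => (σ : Qb →ₐ[K] Qb).commutes z
    change Affine.Point.some _ _ _ = Affine.Point.some _ _ _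
    congr 1
    · exact h1 x
    · exact h1 y

theorem toSy_mem (hinj : Function.Injective E) {H : ∀ i, AddSubgroup (Pt E i)}
    {c : Fp (Pt E) κ D} (hc : HomP c) (hcH : OnP H c) :
    toSy c ∈ LibEP66.ZP0g (grdP E H) E κ D := by
  refine ⟨⟨fun p hp => ?_, fun σ => ?_⟩, fun μ M hM => ?_⟩
  · obtain ⟨p', hp', rfl⟩ := Finset.mem_image.1 (Finsupp.mapDomain_support hp)
    refine ⟨(hc.1 p' hp').1, (LibEP66.mat_iff hinj).2 (hc.1 p' hp').2, fun x => ?_⟩
    have h1 : grdP E H (prd E κ x) = (H (κ x)).map (constHom Qb (E (κ x))) :=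
      grdP_self hinj H (κ x)
    rw [h1]
    exact ⟨p'.2.2 x, hcH p' hp' x, rfl⟩
  · unfold toSy
    rw [← Finsupp.mapDomain_comp]
    congr 1
    funext p
    simp only [Function.comp_apply]
    congr 2
    funext x
    exact gal_constPt σ (p.2.2 x)
  · unfold toSy
    rw [Finsupp.sum_mapDomain_index (fun _ => zero_mul _) (fun _ _ _ => add_mul _ _ _)]
    exact hc.2 μ M ((LibEP66.mat_iff hinj).1 hM)

/-- **Combinations with torsion Abel-Jacobi image are torsion.** -/
theorem tors_of_ajP (hE : ∀ i, (E i).IsElliptic) (hinj : Function.Injective E)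
    {H : ∀ i, AddSubgroup (Pt E i)} (hH : SelfP E H)
    {F : (Fin D → Fin s) → Type} [∀ μ, Field (F μ)] [∀ μ, Algebra Qb (F μ)]
    {ξ : ∀ μ a, ((prd E μ a)⁄(F μ)).toAffine.Point}
    (hξ : ∀ μ, IsGen 0 (Algebra.ofId Qb (F μ)) (prd E μ) (ξ μ)) {c : Fp (Pt E) κ D}
    (hc : HomP c) (hcH : OnP H c) (haj : AJP c) : IsOfFinAddOrder (clP E ξ c) := by
  rw [clP_actP]
  refine (LibEP66.tor_iff allDim_bot (LibAC6.all_dim' (pw_grdP hE hinj hH)) hE hinj
    (org (prd E κ)) (fun μ => Algebra.ofId Qb (F μ)) ξ hξ (toSy_mem hinj hc hcH)).2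
    fun i q => ?_
  rw [tst_toSy hinj]
  exact (constHom Qb (E i)).isOfFinAddOrder
    (haj i q.1.2 ⟨⟨q.1.1, q.2.1, q.2.2.1⟩, q.2.2.2⟩)

end Pool.Agent.LibRP11
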