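import Pool.Agent.LibRP11.C2
import Pool.Agent.LibRP11.C3

/-!
[RP11 G2] combinations of translates: rules, as in LibRG11/Trans.lean and the beginning of LibRG11/Uniq.lean (`dl`, `z0`,
`eq_z0`, `push_dl`, `pull_dl`); the same proofs. `pull_dlP`: `Fin.append σ Fin.elim0` is `σ` (`Fin.append_right_nil` /
`Fin.append_elim0`) and `Tuple.sort σ = Equiv.refl _` for `σ` monotone (`Tuple.sort_eq_refl_iff_monotone`).
-/

open WeierstrassCurve Pool.Agent.LibBH2 Pool.Agent.LibIG50 Pool.Agent.LibCHd Pool.Agent.LibGG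
  Pool.Agent.LibAC34 Pool.Agent.LibAF11 Pool.Agent.LibRG11
open Pool.Agent.LibEP66 (Blk prd)
open scoped Classical

namespace Pool.Agent.LibRP11

section comb
variable {s r q t D : ℕ} {κ : Fin r → Fin s} {G : Fin s → Type} [∀ i, AddCommGroup (G i)]

/-- the difference of a translate and the cycle itself -/
noncomputable def dlP (κ : Fin r → Fin s) (μ : Fin D → Fin s) (N : Matrix (Fin r) (Fin D) ℤ)
    (g : ∀ x, G (κ x)) : Fp G κ D :=
  Finsupp.single (μ, N, g) 1 - Finsupp.single (μ, N, 0) 1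

theorem homP_dl {μ : Fin D → Fin s} (hμ : Monotone μ) {N : Matrix (Fin r) (Fin D) ℤ}
    (hN : Blk κ μ N) (g : ∀ x, G (κ x)) : HomP (dlP κ μ N g) := by
  refine ⟨fun p hp => ?_, fun ν M _ => ?_⟩
  · have h1 : p = (μ, N, g) ∨ p = (μ, N, 0) := by
      by_contra h
      rw [not_or] at h
      apply Finsupp.mem_support_iff.1 hp
      unfold dlP
      rw [Finsupp.sub_apply, Finsupp.single_eq_of_ne h.1, Finsupp.single_eq_of_ne h.2, sub_self]
    rcases h1 with h1 | h1
    · rw [h1]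
      exact ⟨hμ, hN⟩
    · rw [h1]
      exact ⟨hμ, hN⟩
  · unfold dlP
    rw [Finsupp.sum_sub_index (fun _ _ _ => sub_mul _ _ _), Finsupp.sum_single_index (zero_mul _),
      Finsupp.sum_single_index (zero_mul _), sub_self]

/-- the combination with the same matrices and no translations -/
noncomputable def z0P (c : Fp G κ D) : Fp G κ D := c.mapDomain fun p => (p.1, p.2.1, 0)

theorem homP_z0 {c : Fp G κ D} (hc : HomP c) : HomP (z0P c) := by
  refine ⟨fun p hp => ?_, fun μ M hM => ?_⟩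
  · have h1 := Finsupp.mapDomain_support hp
    obtain ⟨p', hp', rfl⟩ := Finset.mem_image.1 h1
    exact hc.1 p' hp'
  · unfold z0P
    rw [Finsupp.sum_mapDomain_index (fun _ => zero_mul _) (fun _ _ _ => add_mul _ _ _)]
    exact hc.2 μ M hM

theorem eq_z0P (c : Fp G κ D) : c = z0P c + ∑ p ∈ c.support, c p • dlP κ p.1 p.2.1 p.2.2 := by
  have h1 : ∑ p ∈ c.support, c p • dlP κ p.1 p.2.1 p.2.2 = c - z0P c := by
    unfold dlP
    simp only [smul_sub]
    rw [Finset.sum_sub_distrib]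
    congr 1
    · simp only [Finsupp.smul_single, smul_eq_mul, mul_one]
      exact Finsupp.sum_single c
    · simp only [Finsupp.smul_single, smul_eq_mul, mul_one]
      rfl
  rw [h1]
  abel

theorem dfP_eq (i : Fin s) (P : G i) :
    dfP i P = dlP (fun _ : Fin 1 => i) Fin.elim0 (0 : Matrix (Fin 1) (Fin 0) ℤ) fun _ => P := rfl

theorem push_dlP {τ : Fin q → Fin s} (A : Matrix (Fin q) (Fin r) ℤ) (μ : Fin D → Fin s)
    (N : Matrix (Fin r) (Fin D) ℤ) (g : ∀ x, G (κ x)) :
    pushP τ A (dlP κ μ N g) = dlP τ μ (A * N) (mv τ A g) := by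
  unfold pushP dlP
  rw [← Finsupp.mapDomain.addMonoidHom_apply, map_sub, Finsupp.mapDomain.addMonoidHom_apply,
    Finsupp.mapDomain.addMonoidHom_apply, Finsupp.mapDomain_single, Finsupp.mapDomain_single]
  have h1 : mv τ A (0 : ∀ x, G (κ x)) = 0 := mv_zero A
  rw [h1]

theorem pull_dlP {τ : Fin q → Fin s} (B : Matrix (Fin r) (Fin q) ℤ) {σ : Fin t → Fin s}
    (hσ : Monotone σ) (C : Matrix (Fin r) (Fin t) ℤ) (a : ∀ y, G (τ y)) :
    pullP κ B σ C (dlP τ Fin.elim0 (0 : Matrix (Fin q) (Fin 0) ℤ) a) = dlP κ σ C (mv κ B a) := by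
  have h0 : (Fin.append σ (Fin.elim0 : Fin 0 → Fin s) : Fin (t + 0) → Fin s) = σ := by
    rw [Fin.append_right_nil _ _ rfl]
    rfl
  have h1 : Tuple.sort (Fin.append σ (Fin.elim0 : Fin 0 → Fin s) : Fin (t + 0) → Fin s) =
      Equiv.refl _ := by
    rw [Tuple.sort_eq_refl_iff_monotone, h0]
    exact hσ
  have h2 : (Fin.append σ (Fin.elim0 : Fin 0 → Fin s) : Fin (t + 0) → Fin s) ∘
      Tuple.sort (Fin.append σ (Fin.elim0 : Fin 0 → Fin s) : Fin (t + 0) → Fin s) = σ := by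
    rw [h1, h0]
    rfl
  have h3 : (Matrix.of fun x a => Fin.append (C x) ((B * (0 : Matrix (Fin q) (Fin 0) ℤ)) x)
      (Tuple.sort (Fin.append σ (Fin.elim0 : Fin 0 → Fin s) : Fin (t + 0) → Fin s) a) :
      Matrix (Fin r) (Fin (t + 0)) ℤ) = C := by
    rw [h1]
    ext x a
    change Fin.append (C x) ((B * (0 : Matrix (Fin q) (Fin 0) ℤ)) x) a = C x a
    rw [Fin.append_right_nil _ _ rfl]
    rfl
  have h4 : mv κ B (0 : ∀ y, G (τ y)) = 0 := mv_zero B
  unfold pullP dlP
  rw [← Finsupp.mapDomain.addMonoidHom_apply, map_sub, Finsupp.mapDomain.addMonoidHom_apply,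
    Finsupp.mapDomain.addMonoidHom_apply, Finsupp.mapDomain_single, Finsupp.mapDomain_single]
  rw [h2, h3, h4]

end comb

end Pool.Agent.LibRP11
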