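import Pool.Agent.LibRP11.G2
import Pool.Agent.LibEP66.M2
import Pool.Agent.LibRG11.Trans

/-!
[RP11 G2b] classes of translates. `tors_translP` (a common translation `g`), as `tors_transl` (LibRG11/Trans.lean):
`tor_iff` (LibEP66/M2.lean) for the combination `∑ m (μ, N, 0)` with the translations `0`, the point `u = g` over `Qb` (as
`ptu`, `lin_eq'` in LibRG11/Trans.lean), `h0 = allDim_bot` and `Γ = ⊥` (`h = allDim_bot`): all tests are `0` (`trk` of `0`
is `0`, see `htz` in LibEP66/M2.lean). `castT` for the degree `0 + D`. `tors_z0P`: `tors_translP` with `g = 0`.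
-/

open WeierstrassCurve Pool.Agent.LibBH2 Pool.Agent.LibIG50 Pool.Agent.LibCHd Pool.Agent.LibGG
  Pool.Agent.LibAC34 Pool.Agent.LibAF11 Pool.Agent.LibRG11
open Pool.Agent.LibEP66 (Blk prd)
open scoped Classical

namespace Pool.Agent.LibRP11

variable {K : Type} [Field K] [Algebra K Qb] {s r D : ℕ} {E : Fin s → WeierstrassCurve K}
  {κ : Fin r → Fin s} {F : (Fin D → Fin s) → Type} [∀ μ, Field (F μ)] [∀ μ, Algebra Qb (F μ)]

/-- the class as a homomorphism -/
noncomputable def clPH (ξ : ∀ μ a, ((prd E μ a)⁄(F μ)).toAffine.Point) :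
    Fp (Pt E) κ D →+ CH (prd E κ) (pt0 Qb) D :=
  AddMonoidHom.mk' (clP E ξ) fun _ _ =>
    Finsupp.sum_add_index' (fun _ => zero_zsmul _) (fun _ _ _ => add_zsmul _ _ _)

/-- the class of one translate -/
noncomputable def c1P (ξ : ∀ μ a, ((prd E μ a)⁄(F μ)).toAffine.Point) (μ : Fin D → Fin s)
    (N : Matrix (Fin r) (Fin D) ℤ) (g : ∀ x, Pt E (κ x)) : CH (prd E κ) (pt0 Qb) D :=
  cl (V := prd E μ) (Algebra.ofId Qb (F μ)) D (ξ μ) (org (prd E κ)) N fun x => constPt Qb (g x)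

private theorem G2b_single (ξ : ∀ μ a, ((prd E μ a)⁄(F μ)).toAffine.Point) (μ : Fin D → Fin s)
    (N : Matrix (Fin r) (Fin D) ℤ) (g : ∀ x, Pt E (κ x)) (m : ℤ) :
    clPH (κ := κ) ξ (Finsupp.single (μ, N, g) m) = m • c1P ξ μ N g := by
  show clP E ξ (Finsupp.single (μ, N, g) m) = _
  unfold clP
  rw [Finsupp.sum_single_index]
  · rfl
  · exact zero_zsmul _

/-- the point `g` of the product -/
private noncomputable def G2b_pt (g : ∀ x, Pt E (κ x)) : Pnt (prd E κ) (pt0 Qb) Qb where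
  z x := constPt Qb (constPt Qb (g x))
  y _ := 1
  y_ne h := one_ne_zero (congrFun h 0)
  mem _ h := h.elim

private theorem G2b_lin {L : Type} [Field L] [Algebra Qb L] {μ : Fin D → Fin s}
    (η : ∀ a, ((prd E μ a)⁄L).toAffine.Point) (N : Matrix (Fin r) (Fin D) ℤ)
    (g : ∀ x, Pt E (κ x)) :
    lin (V := prd E μ) (W := prd E κ) (Algebra.ofId Qb L) η N 0 (G2b_pt g) =
      lin (V := prd E μ) (W := prd E κ) (Algebra.ofId Qb L) η N (fun x => constPt Qb (g x))
        (org (prd E κ)) := by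
  apply pnt_ext
  · funext x
    show constPt L (0 : (prd E κ x).toAffine.Point) +
      ((∑ a, N x a • tr (prd E μ a) (prd E κ x) (η a)) +
        mp (Algebra.ofId Qb L) (constPt Qb (constPt Qb (g x)))) =
      constPt L (constPt Qb (g x)) + ((∑ a, N x a • tr (prd E μ a) (prd E κ x) (η a)) +
        mp (Algebra.ofId Qb L) 0)
    have e0 : (constPt L (0 : (prd E κ x).toAffine.Point) : ((prd E κ x)⁄L).toAffine.Point) = 0 :=
      rfl
    rw [e0, zero_add, mp_constPt, mp_zero, add_zero, add_comm]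
  · rfl

private theorem G2b_cast {n n' : ℕ} (h : n = n') (c : Fp (Pt E) κ D)
    (v : ∀ μ : Fin D → Fin s, Matrix (Fin r) (Fin D) ℤ → Pnt (prd E κ) (pt0 Qb) (F μ)) :
    IsOfFinAddOrder (c.sum fun p m =>
      m • (QuotientAddGroup.mk (cyc (v p.1 p.2.1)) : CH (prd E κ) (pt0 Qb) n)) ↔
    IsOfFinAddOrder (c.sum fun p m =>
      m • (QuotientAddGroup.mk (cyc (v p.1 p.2.1)) : CH (prd E κ) (pt0 Qb) n')) := by
  subst h
  rfl

theorem clPH_dl (ξ : ∀ μ a, ((prd E μ a)⁄(F μ)).toAffine.Point) (μ : Fin D → Fin s)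
    (N : Matrix (Fin r) (Fin D) ℤ) (g : ∀ x, Pt E (κ x)) :
    clP E ξ (dlP κ μ N g) = c1P ξ μ N g - c1P ξ μ N 0 := by
  show clPH ξ (dlP κ μ N g) = _
  unfold dlP
  rw [map_sub, G2b_single, G2b_single, one_smul, one_smul]

theorem tors_translP (hE : ∀ i, (E i).IsElliptic) (hinj : Function.Injective E)
    {ξ : ∀ μ a, ((prd E μ a)⁄(F μ)).toAffine.Point}
    (hξ : ∀ μ, IsGen 0 (Algebra.ofId Qb (F μ)) (prd E μ) (ξ μ)) {c : Fp (Pt E) κ D}
    (hc : HomP c) (g : ∀ x, Pt E (κ x)) :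
    IsOfFinAddOrder (c.sum fun p m => m • c1P ξ p.1 p.2.1 g) := by
  set c' : LibEP66.Sy E κ D →₀ ℤ := c.mapDomain fun p => (p.1, p.2.1, 0) with hc'
  have hmem : c' ∈ LibEP66.ZP0g (fun _ => ⊥) E κ D := by
    refine ⟨⟨fun p hp => ?_, fun σ => ?_⟩, fun μ M hM => ?_⟩
    · obtain ⟨q, hq, rfl⟩ := Finset.mem_image.1 (Finsupp.mapDomain_support hp)
      exact ⟨(hc.1 q hq).1, (LibEP66.mat_iff hinj).2 (hc.1 q hq).2, fun x => zero_mem _⟩
    · rw [hc', ← Finsupp.mapDomain_comp]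
      congr 1
    · rw [hc', Finsupp.sum_mapDomain_index (fun _ => zero_mul _) (fun _ _ _ => add_mul _ _ _)]
      exact hc.2 μ M ((LibEP66.mat_iff hinj).1 hM)
  have htor := (LibEP66.tor_iff allDim_bot allDim_bot hE hinj (G2b_pt g)
    (fun μ => Algebra.ofId Qb (F μ)) ξ hξ hmem).2 (fun i q => by
      rw [LibEP66.tst_eq, Finsupp.sum, Finset.sum_eq_zero]
      · exact IsOfFinAddOrder.zero
      intro p hp
      obtain ⟨q', -, rfl⟩ := Finset.mem_image.1 (Finsupp.mapDomain_support hp)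
      rw [bdet, Finset.sum_eq_zero, smul_zero]
      intro x _
      have e0 : trk (prd E κ x) ((E i)⁄Qb) ((0 : Pts (prd E κ)) x) = 0 := by
        by_cases h : prd E κ x = (E i)⁄Qb
        · rw [trk, dif_pos h]
          have h1 : ∀ {V W : WeierstrassCurve Qb} (h : V = W),
              h ▸ (0 : V.toAffine.Point) = (0 : W.toAffine.Point) := by
            intro V W h
            subst h
            rfl
          exact h1 h
        · exact trk_ne h _
      rw [e0, smul_zero])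
  have h1 : LibEP66.actP (fun μ => Algebra.ofId Qb (F μ)) (0 + D) ξ (G2b_pt g) c' =
      c.sum fun p m => m • (QuotientAddGroup.mk (cyc (lin (V := prd E p.1) (W := prd E κ)
        (Algebra.ofId Qb (F p.1)) (ξ p.1) p.2.1 (fun x => constPt Qb (g x))
        (org (prd E κ)))) : CH (prd E κ) (pt0 Qb) (0 + D)) := by
    unfold LibEP66.actP
    rw [hc', Finsupp.sum_mapDomain_index (fun _ => zero_zsmul _) (fun _ _ _ => add_zsmul _ _ _)]
    refine Finsupp.sum_congr fun p _ => ?_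
    rw [← G2b_lin]
    rfl
  rw [h1] at htor
  exact (G2b_cast (zero_add D) c fun μ N => lin (V := prd E μ) (W := prd E κ)
    (Algebra.ofId Qb (F μ)) (ξ μ) N (fun x => constPt Qb (g x)) (org (prd E κ))).1 htor

theorem tors_z0P (hE : ∀ i, (E i).IsElliptic) (hinj : Function.Injective E)
    {ξ : ∀ μ a, ((prd E μ a)⁄(F μ)).toAffine.Point}
    (hξ : ∀ μ, IsGen 0 (Algebra.ofId Qb (F μ)) (prd E μ) (ξ μ)) {c : Fp (Pt E) κ D}
    (hc : HomP c) : IsOfFinAddOrder (clP E ξ (z0P c)) := by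
  have h := tors_translP hE hinj hξ hc 0
  have h1 : clP E ξ (z0P c) = c.sum fun p m => m • c1P ξ p.1 p.2.1 0 := by
    unfold clP z0P
    rw [Finsupp.sum_mapDomain_index (fun _ => zero_zsmul _) (fun _ _ _ => add_zsmul _ _ _)]
    rfl
  rw [h1]
  exact h

end Pool.Agent.LibRP11
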