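import Pool.Agent.LibRP11.G2b
import Pool.Agent.LibRG11.Uniq

/-!
[RP11 G2c] classes of translates, as `tors_c1`, `tors_dl`, `tors_mul_c1`, `tors_mul_dl` in LibRG11/Uniq.lean and `c1_add` in
LibRG11/Trans.lean. First `c1P ξ μ N (g + mv κ N h) = c1P ξ μ N g` for `N` a block matrix of type `μ`: `G_tr`
(LibAC34/G.lean) for one column after the other, as `c1_add` there (`trk (prd E μ a) (prd E κ x) (constPt Qb (h a))` is
`constPt Qb (vec h a (κ x))`). `tors_translP` for `single (μ, C * T, 0) 1 - single (μ, C, 0) (T.det ^ 2)`: it satisfies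
`HomP` (`blk_mul`, `Matrix.det_mul`). `det_zero` (LibRG11/Uniq.lean).
-/

open WeierstrassCurve Pool.Agent.LibBH2 Pool.Agent.LibIG50 Pool.Agent.LibCHd Pool.Agent.LibGG
  Pool.Agent.LibAC34 Pool.Agent.LibAF11 Pool.Agent.LibRG11
open Pool.Agent.LibEP66 (Blk prd)
open scoped Classical

namespace Pool.Agent.LibRP11

variable {K : Type} [Field K] [Algebra K Qb] {s r D : ℕ} {E : Fin s → WeierstrassCurve K}
  {κ : Fin r → Fin s} {F : (Fin D → Fin s) → Type} [∀ μ, Field (F μ)] [∀ μ, Algebra Qb (F μ)]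

private theorem G2c_trk (hinj : Function.Injective E) (i j : Fin s) (P : Pt E i) :
    trk ((E i)⁄Qb) ((E j)⁄Qb) (constPt Qb P) = constPt Qb ((Pi.single i P : ∀ i, Pt E i) j) := by
  by_cases h : i = j
  · subst h
    rw [trk_self, Pi.single_eq_same]
  · rw [trk_ne (fun h1 => h (hinj (baseChange_injective h1))),
      Pi.single_eq_of_ne (Ne.symm h)]
    rfl

private theorem G2c_add (hinj : Function.Injective E)
    {ξ : ∀ μ a, ((prd E μ a)⁄(F μ)).toAffine.Point}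
    (hξ : ∀ μ, IsGen 0 (Algebra.ofId Qb (F μ)) (prd E μ) (ξ μ)) (μ : Fin D → Fin s)
    (N : Matrix (Fin r) (Fin D) ℤ) (g : ∀ x, Pt E (κ x)) (h : ∀ a, Pt E (μ a)) :
    c1P ξ μ N (g + mv κ N h) = c1P ξ μ N g := by
  have key : ∀ S : Finset (Fin D),
      c1P ξ μ N (g + fun x => (∑ a ∈ S, N x a • vec h a) (κ x)) = c1P ξ μ N g := by
    intro S
    induction S using Finset.induction_on with
    | empty =>
      congr 1
      funext x
      rw [Pi.add_apply, Finset.sum_empty, Pi.zero_apply, add_zero]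
    | insert a S ha ih =>
      rw [← ih]
      have h1 := G_tr (hξ μ) (W := prd E κ) (org _) N
        (fun x => constPt Qb (g x + (∑ a ∈ S, N x a • vec h a) (κ x))) a (constPt Qb (h a))
      rw [zero_add] at h1
      have h2 : ((fun x => constPt Qb (g x + (∑ a ∈ S, N x a • vec h a) (κ x))) +
          (fun x => N x a • trk (prd E μ a) (prd E κ x) (constPt Qb (h a))) : Pts (prd E κ)) =
          fun x => constPt Qb ((g + fun x => (∑ a ∈ insert a S, N x a • vec h a) (κ x)) x) := by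
        funext x
        rw [Pi.add_apply, Pi.add_apply, Finset.sum_insert ha]
        show _ + N x a • trk ((E (μ a))⁄Qb) ((E (κ x))⁄Qb) (constPt Qb (h a)) = _
        rw [G2c_trk hinj]
        show constHom Qb (E (κ x)) _ + N x a • constHom Qb (E (κ x)) _ = constHom Qb (E (κ x)) _
        rw [← map_zsmul, ← map_add]
        congr 1
        rw [Pi.add_apply, Pi.smul_apply]
        show _ + N x a • (Pi.single (μ a) (h a) : ∀ i, Pt E i) (κ x) =
          g x + (N x a • (Pi.single (μ a) (h a) : ∀ i, Pt E i) (κ x) + _)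
        abel
      rw [h2] at h1
      exact h1
  exact key Finset.univ

private theorem G2c_hom {μ : Fin D → Fin s} (hμ : Monotone μ) {N : Matrix (Fin r) (Fin D) ℤ}
    (hN : Blk κ μ N) (m : ℤ) (p) (hp : p ∈ (Finsupp.single (μ, N, 0) m : Fp (Pt E) κ D).support) :
    Monotone p.1 ∧ Blk κ p.1 p.2.1 := by
  rw [Finset.mem_singleton.1 (Finsupp.support_single_subset hp)]
  exact ⟨hμ, hN⟩

private theorem G2c_c1 (hE : ∀ i, (E i).IsElliptic) (hinj : Function.Injective E)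
    {ξ : ∀ μ a, ((prd E μ a)⁄(F μ)).toAffine.Point}
    (hξ : ∀ μ, IsGen 0 (Algebra.ofId Qb (F μ)) (prd E μ) (ξ μ)) {μ : Fin D → Fin s}
    (hμ : Monotone μ) {N : Matrix (Fin r) (Fin D) ℤ} (hN : Blk κ μ N)
    (hd : (N.transpose * N).det = 0) (g : ∀ x, Pt E (κ x)) :
    IsOfFinAddOrder (c1P ξ μ N g) := by
  have h1 := tors_translP hE hinj hξ (c := Finsupp.single (μ, N, 0) 1)
    ⟨G2c_hom hμ hN 1, fun ν M _ => by
      rw [Finsupp.sum_single_index (zero_mul _), det_zero hd]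
      ring⟩ g
  rwa [Finsupp.sum_single_index (zero_zsmul _), one_zsmul] at h1

private theorem G2c_mul (hE : ∀ i, (E i).IsElliptic) (hinj : Function.Injective E)
    {ξ : ∀ μ a, ((prd E μ a)⁄(F μ)).toAffine.Point}
    (hξ : ∀ μ, IsGen 0 (Algebra.ofId Qb (F μ)) (prd E μ) (ξ μ)) {μ : Fin D → Fin s}
    (hμ : Monotone μ) {C : Matrix (Fin r) (Fin D) ℤ} (hC : Blk κ μ C)
    {T : Matrix (Fin D) (Fin D) ℤ} (hT : Blk μ μ T) (g : ∀ x, Pt E (κ x)) :
    IsOfFinAddOrder (c1P ξ μ (C * T) g - T.det ^ 2 • c1P ξ μ C g) := by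
  have h1 := tors_translP hE hinj hξ
    (c := Finsupp.single (μ, C * T, 0) 1 - Finsupp.single (μ, C, 0) (T.det ^ 2))
    ⟨fun p hp => by
      rcases Finset.mem_union.1 (Finsupp.support_sub hp) with h | h
      · exact G2c_hom hμ (blk_mul hC hT) 1 p h
      · exact G2c_hom hμ hC _ p h, fun ν M _ => by
      rw [Finsupp.sum_sub_index (fun _ _ _ => sub_mul _ _ _), Finsupp.sum_single_index (zero_mul _),
        Finsupp.sum_single_index (zero_mul _)]
      show 1 * (M.transpose * (C * T)).det ^ 2 - T.det ^ 2 * (M.transpose * C).det ^ 2 = 0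
      rw [← Matrix.mul_assoc, Matrix.det_mul]
      ring⟩ g
  rwa [Finsupp.sum_sub_index (fun _ _ _ => by rw [sub_zsmul, sub_eq_add_neg]),
    Finsupp.sum_single_index (zero_zsmul _), Finsupp.sum_single_index (zero_zsmul _),
    one_zsmul] at h1

theorem tors_dlP (hE : ∀ i, (E i).IsElliptic) (hinj : Function.Injective E)
    {ξ : ∀ μ a, ((prd E μ a)⁄(F μ)).toAffine.Point}
    (hξ : ∀ μ, IsGen 0 (Algebra.ofId Qb (F μ)) (prd E μ) (ξ μ)) {μ : Fin D → Fin s}
    (hμ : Monotone μ) {N : Matrix (Fin r) (Fin D) ℤ} (hN : Blk κ μ N)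
    (hd : (N.transpose * N).det = 0) (g : ∀ x, Pt E (κ x)) :
    IsOfFinAddOrder (clP E ξ (dlP κ μ N g)) := by
  rw [clPH_dl]
  exact fin_sub (G2c_c1 hE hinj hξ hμ hN hd g) (G2c_c1 hE hinj hξ hμ hN hd 0)

theorem tors_mul_dlP (hE : ∀ i, (E i).IsElliptic) (hinj : Function.Injective E)
    {ξ : ∀ μ a, ((prd E μ a)⁄(F μ)).toAffine.Point}
    (hξ : ∀ μ, IsGen 0 (Algebra.ofId Qb (F μ)) (prd E μ) (ξ μ)) {μ : Fin D → Fin s}
    (hμ : Monotone μ) {C : Matrix (Fin r) (Fin D) ℤ} (hC : Blk κ μ C)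
    {T : Matrix (Fin D) (Fin D) ℤ} (hT : Blk μ μ T) {g g' : ∀ x, Pt E (κ x)}
    (hg : ∃ h : ∀ a, Pt E (μ a), g = g' + mv κ C h) :
    IsOfFinAddOrder (clP E ξ (dlP κ μ (C * T) g - T.det ^ 2 • dlP κ μ C g')) := by
  have h1 : clP E ξ (dlP κ μ (C * T) g - T.det ^ 2 • dlP κ μ C g') =
      (c1P ξ μ (C * T) g - T.det ^ 2 • c1P ξ μ C g) -
        (c1P ξ μ (C * T) 0 - T.det ^ 2 • c1P ξ μ C 0) := by
    obtain ⟨h, hg⟩ := hg
    have h3 : c1P ξ μ C g = c1P ξ μ C g' := by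
      rw [hg]
      exact G2c_add hinj hξ μ C g' h
    have h2 : clP E ξ (dlP κ μ (C * T) g - T.det ^ 2 • dlP κ μ C g') =
        clPH ξ (dlP κ μ (C * T) g) - T.det ^ 2 • clPH ξ (dlP κ μ C g') := by
      rw [← map_zsmul, ← map_sub]
      rfl
    have h4 : ∀ N g, clPH ξ (dlP κ μ N g) = c1P ξ μ N g - c1P ξ μ N 0 := clPH_dl ξ μ
    rw [h2, h4, h4, ← h3, zsmul_sub]
    abel
  rw [h1]
  exact fin_sub (G2c_mul hE hinj hξ hμ hC hT g) (G2c_mul hE hinj hξ hμ hC hT 0)

end Pool.Agent.LibRP11
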