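import Pool.Agent.LibRP11.ADefs

/-!
[RP11 SP] a splitting of `ℤ ^ r` adapted to a block matrix. For every colour `j` let `N_j = blk κ σ j N`
(LibEP66/GDefs.lean), `det (N_jᵀ N_j) ≠ 0` by `det_blk` (LibEP66/B1.lean), so `num σ j ≤ num κ j`; `exists_split`
(LibRG11/S8.lean) with `s := num κ j - num σ j`. `τ`: `∑ j, (num κ j - num σ j) = q` (`∑ j, num κ j = r`), take a bijection
`Fin q ≃ Σ j, Fin (num κ j - num σ j)` and `τ` its first component. Glue the matrices, e.g.
`A y x = if h : κ x = τ y then A_(τ y) (the index of y) ((ix κ (τ y)).symm ⟨x, h⟩) else 0`. Products of glued matrices are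
the glued products: the sum over `x` is the sum over the `x` of one colour (`ix κ j`).
-/

open Matrix
open Pool.Agent.LibEP66 (Sup Blk)
open scoped Classical

namespace Pool.Agent.LibRP11

section
open Pool.Agent.LibEP66 (blk glue ix B1_sum blk_glue Blk_glue num det_blk)

private theorem SP_ext {s a b : ℕ} {κ : Fin a → Fin s} {μ : Fin b → Fin s}
    {M N : Matrix (Fin a) (Fin b) ℤ} (hM : Blk κ μ M) (hN : Blk κ μ N)
    (h : ∀ j, blk κ μ j M = blk κ μ j N) : M = N := by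
  ext x y
  by_cases hxy : μ y = κ x
  · have h1 := congrFun (congrFun (h (κ x)) ((ix κ (κ x)).symm ⟨x, rfl⟩)) ((ix μ (κ x)).symm ⟨y, hxy⟩)
    unfold blk at h1
    rw [Equiv.apply_symm_apply, Equiv.apply_symm_apply] at h1
    exact h1
  · rw [hM x y hxy, hN x y hxy]

private theorem SP_mul {s a b c : ℕ} {κ : Fin a → Fin s} {μ : Fin b → Fin s} {ν : Fin c → Fin s}
    {M : Matrix (Fin a) (Fin b) ℤ} {N : Matrix (Fin b) (Fin c) ℤ} (hM : Blk κ μ M)
    (hN : Blk μ ν N) : Blk κ ν (M * N) := by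
  intro x z h
  rw [Matrix.mul_apply]
  refine Finset.sum_eq_zero fun y _ => ?_
  by_cases h1 : μ y = κ x
  · rw [hN y z (fun h2 => h (h2.trans h1)), mul_zero]
  · rw [hM x y h1, zero_mul]

private theorem SP_blk_mul {s a b c : ℕ} {κ : Fin a → Fin s} {μ : Fin b → Fin s}
    {ν : Fin c → Fin s} {M : Matrix (Fin a) (Fin b) ℤ} {N : Matrix (Fin b) (Fin c) ℤ}
    (hM : Blk κ μ M) (j : Fin s) : blk κ ν j (M * N) = blk κ μ j M * blk μ ν j N := by
  ext x z
  show (M * N) (ix κ j x).1 (ix ν j z).1 = _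
  rw [Matrix.mul_apply, B1_sum (κ := μ) (j := j)]
  · rfl
  · intro y hy
    rw [hM _ y (by rw [(ix κ j x).2]; exact hy), zero_mul]

private theorem SP_one {s a : ℕ} {κ : Fin a → Fin s} : Blk κ κ (1 : Matrix (Fin a) (Fin a) ℤ) := by
  intro x y h
  exact Matrix.one_apply_ne (fun h' => h (by rw [h']))

private theorem SP_blk_one {s a : ℕ} {κ : Fin a → Fin s} (j : Fin s) :
    blk κ κ j (1 : Matrix (Fin a) (Fin a) ℤ) = 1 := by
  ext x y
  show (1 : Matrix (Fin a) (Fin a) ℤ) (ix κ j x).1 (ix κ j y).1 = _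
  by_cases h : x = y
  · rw [h, Matrix.one_apply_eq, Matrix.one_apply_eq]
  · rw [Matrix.one_apply_ne h, Matrix.one_apply_ne]
    intro h'
    exact h ((ix κ j).injective (Subtype.ext h'))

private theorem SP_le {a b : ℕ} {N : Matrix (Fin a) (Fin b) ℤ} (h : (N.transpose * N).det ≠ 0) :
    b ≤ a := by
  have hinj : Function.Injective N.mulVecLin := by
    rw [← LinearMap.ker_eq_bot, LinearMap.ker_eq_bot']
    intro x hx
    have h1 : (N.transpose * N).mulVec x = 0 := by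
      rw [← Matrix.mulVec_mulVec]
      have : N.mulVec x = 0 := hx
      rw [this, Matrix.mulVec_zero]
    exact Matrix.eq_zero_of_mulVec_eq_zero h h1
  have h2 := LinearMap.finrank_le_finrank_of_injective hinj
  simpa using h2

private theorem SP_sum {s a : ℕ} (κ : Fin a → Fin s) : ∑ j, num κ j = a := by
  unfold num
  rw [← Finset.card_eq_sum_card_fiberwise (fun x _ => Finset.mem_coe.2 (Finset.mem_univ (κ x)))]
  simp

private theorem SP_tau {s q : ℕ} (n : Fin s → ℕ) (hn : ∑ j, n j = q) :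
    ∃ τ : Fin q → Fin s, ∀ j, num τ j = n j := by
  have hcard : Fintype.card (Σ j, Fin (n j)) = q := by
    rw [Fintype.card_sigma]; simpa using hn
  let e : Fin q ≃ Σ j, Fin (n j) := (Fintype.equivFinOfCardEq hcard).symm
  refine ⟨fun x => (e x).1, fun j => ?_⟩
  unfold num
  rw [← Fintype.card_subtype]
  have e2 : {x // (e x).1 = j} ≃ Fin (n j) :=
    (e.subtypeEquiv (p := fun x => (e x).1 = j) (q := fun y => y.1 = j) (fun x => Iff.rfl)).trans
      (Equiv.sigmaSubtype j)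
  rw [Fintype.card_congr e2, Fintype.card_fin]

end

theorem exists_splitB {s r q t : ℕ} (hr : r = q + t) {κ : Fin r → Fin s} {σ : Fin t → Fin s}
    {N : Matrix (Fin r) (Fin t) ℤ} (hN : Blk κ σ N) (hd : (N.transpose * N).det ≠ 0) :
    ∃ (τ : Fin q → Fin s) (A : Matrix (Fin q) (Fin r) ℤ) (A' : Matrix (Fin r) (Fin q) ℤ)
      (C : Matrix (Fin r) (Fin t) ℤ) (C' : Matrix (Fin t) (Fin r) ℤ)
      (T : Matrix (Fin t) (Fin t) ℤ), Spl κ τ σ A A' C C' ∧ A' * A + C * C' = 1 ∧
        N = C * T ∧ Blk σ σ T := by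
  have h0 : ∀ j, ((LibEP66.blk κ σ j N).transpose * LibEP66.blk κ σ j N).det ≠ 0 := by
    intro j
    have h1 := LibEP66.det_blk hN hN
    rw [h1] at hd
    exact (Finset.prod_ne_zero_iff.1 hd) j (Finset.mem_univ j)
  have hle : ∀ j, LibEP66.num σ j ≤ LibEP66.num κ j := fun j => SP_le (h0 j)
  obtain ⟨τ, hτ⟩ := SP_tau (q := q) (fun j => LibEP66.num κ j - LibEP66.num σ j) (by
    have h1 := SP_sum κ
    have h2 := SP_sum σ
    have h3 : ∑ j, (LibEP66.num κ j - LibEP66.num σ j) + ∑ j, LibEP66.num σ j =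
        ∑ j, LibEP66.num κ j := by
      rw [← Finset.sum_add_distrib]
      exact Finset.sum_congr rfl fun j _ => Nat.sub_add_cancel (hle j)
    omega)
  have hs : ∀ j, LibEP66.num κ j = LibEP66.num τ j + LibEP66.num σ j := fun j => by
    rw [hτ j]
    have := hle j
    omega
  choose A A' C C' T h1 h2 h3 _ h5 h6 _ using fun j =>
    LibRG11.exists_split (hs j) (LibEP66.blk κ σ j N) (h0 j)
  have zero_blk : ∀ {a b : ℕ} {κ : Fin a → Fin s} {μ : Fin b → Fin s},
      Blk κ μ (0 : Matrix (Fin a) (Fin b) ℤ) := fun x a _ => rfl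
  have bA : Blk τ κ (LibEP66.glue τ κ A) := LibEP66.Blk_glue _
  have bA' : Blk κ τ (LibEP66.glue κ τ A') := LibEP66.Blk_glue _
  have bC : Blk κ σ (LibEP66.glue κ σ C) := LibEP66.Blk_glue _
  have bC' : Blk σ κ (LibEP66.glue σ κ C') := LibEP66.Blk_glue _
  have bT : Blk σ σ (LibEP66.glue σ σ T) := LibEP66.Blk_glue _
  refine ⟨τ, LibEP66.glue τ κ A, LibEP66.glue κ τ A', LibEP66.glue κ σ C, LibEP66.glue σ κ C',
    LibEP66.glue σ σ T, ⟨bA, bA', bC, bC', ?_, ?_, ?_⟩, ?_, ?_, bT⟩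
  · refine SP_ext (SP_mul bA bA') SP_one fun j => ?_
    rw [SP_blk_mul bA, LibEP66.blk_glue, LibEP66.blk_glue, h1, SP_blk_one]
  · refine SP_ext (SP_mul bA bC) zero_blk fun j => ?_
    rw [SP_blk_mul bA, LibEP66.blk_glue, LibEP66.blk_glue, h2]
    rfl
  · refine SP_ext (SP_mul bC' bC) SP_one fun j => ?_
    rw [SP_blk_mul bC', LibEP66.blk_glue, LibEP66.blk_glue, h3, SP_blk_one]
  · have e1 := SP_mul bA' bA
    have e2 := SP_mul bC bC'
    refine SP_ext (κ := κ) (μ := κ) (fun x a h => ?_) SP_one fun j => ?_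
    · rw [Matrix.add_apply, e1 x a h, e2 x a h, add_zero]
    · have e3 : LibEP66.blk κ κ j (LibEP66.glue κ τ A' * LibEP66.glue τ κ A +
          LibEP66.glue κ σ C * LibEP66.glue σ κ C') =
          LibEP66.blk κ κ j (LibEP66.glue κ τ A' * LibEP66.glue τ κ A) +
            LibEP66.blk κ κ j (LibEP66.glue κ σ C * LibEP66.glue σ κ C') := rfl
      rw [e3, SP_blk_mul bA', SP_blk_mul bC, LibEP66.blk_glue, LibEP66.blk_glue,
        LibEP66.blk_glue, LibEP66.blk_glue, h5, SP_blk_one]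
  · refine SP_ext hN (SP_mul bC bT) fun j => ?_
    rw [SP_blk_mul bC, LibEP66.blk_glue, LibEP66.blk_glue]
    exact h6 j

end Pool.Agent.LibRP11
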