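import Pool.Agent.LibRP11.G2c
import Pool.Agent.LibRP11.SP

/-!
[RP11 G3] uniqueness of the height pairing, as the second half of LibRG11/Uniq.lean (`IsHt.hom`, `IsHt.expand`, `IsHt.step`,
`IsHt.eq_zero`, `IsHt.unique`), with the rules of G2 and `exists_splitB` (SP). `step`: here `τ` has `D + 1` entries and
`σ = μ'` is the type of `N' = C * T`; `g = g' + mv κ C h` with `g' = mv κ A' (mv τ A g)` and `h = mv σ C' g`
(`mv_mul`, `mv_one`, `mv_add`-type rules; `A' * A + C * C' = 1`); `pull_dlP`, `push_dlP`. Last step: `τ₁ : Fin 1 → Fin s` is the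
constant function `τ₁ 0` (`obtain ⟨i, rfl⟩ : ∃ i, τ₁ = fun _ => i`), and every `dlP (fun _ : Fin 1 => i) μ N g` with
`D = 0` is `dfP i (g 0)`.
-/

open WeierstrassCurve Pool.Agent.LibBH2 Pool.Agent.LibIG50 Pool.Agent.LibCHd Pool.Agent.LibGG
  Pool.Agent.LibAC34 Pool.Agent.LibAF11 Pool.Agent.LibRG11
open Pool.Agent.LibEP66 (Blk prd)
open scoped Classical

namespace Pool.Agent.LibRP11

section comb
variable {s r q D : ℕ} {κ : Fin r → Fin s} {G : Fin s → Type} [∀ i, AddCommGroup (G i)]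

theorem G3_mv_add (A B : Matrix (Fin q) (Fin r) ℤ) {τ : Fin q → Fin s} (g : ∀ x, G (κ x)) :
    (mv τ A g + mv τ B g : ∀ y, G (τ y)) = mv τ (A + B) g := by
  funext y
  have e : (∑ x, A y x • vec (G := G) g x : ∀ i, G i) + ∑ x, B y x • vec (G := G) g x =
      ∑ x, (A + B) y x • vec (G := G) g x := by
    rw [← Finset.sum_add_distrib]
    refine Finset.sum_congr rfl fun x _ => ?_
    rw [Matrix.add_apply, add_smul]
  exact congrFun e (τ y)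

theorem G3_blk_zero {κ' : Fin r → Fin s} (μ : Fin 0 → Fin s) (N : Matrix (Fin r) (Fin 0) ℤ) :
    Blk κ' μ N := fun _ a => a.elim0

theorem G3_mono_zero (μ : Fin 0 → Fin s) : Monotone μ := fun a => a.elim0

end comb

variable {K : Type} [Field K] [Algebra K Qb] {s : ℕ} {E : Fin s → WeierstrassCurve K}
  {F : ∀ D, (Fin D → Fin s) → Type} [∀ D μ, Field (F D μ)] [∀ D μ, Algebra Qb (F D μ)]
  {ξ : ∀ D μ a, ((prd E μ a)⁄(F D μ)).toAffine.Point} {h : ∀ i, Pt E i → ℝ}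
  {B : ∀ (r : ℕ) (κ : Fin r → Fin s) (D D' : ℕ), Fp (Pt E) κ D → Fp (Pt E) κ D' → ℝ}

/-- the pairing with a fixed combination -/
noncomputable def IsHtP.hom (hB : IsHtP E ξ h B) {r D D' : ℕ} (hr : r = D + 1 + D')
    {κ : Fin r → Fin s} {c' : Fp (Pt E) κ D'} (hc' : HomP c') : HomPG (Pt E) κ D →+ ℝ :=
  AddMonoidHom.mk' (fun c => B r κ D D' c.1 c') fun c₁ c₂ =>
    hB.add r κ D D' hr c₁.1 c₂.1 c' c₁.2 c₂.2 hc'

theorem IsHtP.expand (hE : ∀ i, (E i).IsElliptic) (hinj : Function.Injective E)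
    (hB : IsHtP E ξ h B)
    (hξ : ∀ D μ, IsGen 0 (Algebra.ofId Qb (F D μ)) (prd E μ) (ξ D μ))
    {r D D' : ℕ} (hr : r = D + 1 + D') {κ : Fin r → Fin s} {c : Fp (Pt E) κ D}
    {c' : Fp (Pt E) κ D'} (hc : HomP c) (hc' : HomP c') :
    B r κ D D' c c' = ∑ p ∈ c.support, c p * B r κ D D' (dlP κ p.1 p.2.1 p.2.2) c' := by
  have h1 : (⟨c, hc⟩ : HomPG (Pt E) κ D) = ⟨z0P c, homP_z0 hc⟩ +
      ∑ p ∈ c.support.attach, c p.1 •
        ⟨dlP κ p.1.1 p.1.2.1 p.1.2.2, homP_dl (hc.1 p.1 p.2).1 (hc.1 p.1 p.2).2 _⟩ := by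
    apply Subtype.ext
    rw [AddSubgroup.coe_add, AddSubgroup.val_finsetSum]
    refine (eq_z0P c).trans ?_
    congr 1
    exact (Finset.sum_attach c.support fun p => c p • dlP κ p.1 p.2.1 p.2.2).symm
  have h2 : hB.hom hr hc' ⟨c, hc⟩ = B r κ D D' c c' := rfl
  rw [← h2, h1, map_add, map_sum]
  have h3 : hB.hom hr hc' ⟨z0P c, homP_z0 hc⟩ = 0 :=
    hB.tors r κ D D' hr _ _ (homP_z0 hc) hc' (tors_z0P hE hinj (hξ D) hc)
  rw [h3, zero_add, ← Finset.sum_attach c.support fun p =>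
    (c p : ℝ) * B r κ D D' (dlP κ p.1 p.2.1 p.2.2) c']
  refine Finset.sum_congr rfl fun p _ => ?_
  rw [map_zsmul, zsmul_eq_mul]
  rfl

theorem IsHtP.step (hE : ∀ i, (E i).IsElliptic) (hinj : Function.Injective E)
    (hB : IsHtP E ξ h B)
    (hξ : ∀ D μ, IsGen 0 (Algebra.ofId Qb (F D μ)) (prd E μ) (ξ D μ))
    {r D D' : ℕ} (hr : r = D + 1 + D') {κ : Fin r → Fin s} {τ : Fin (D + 1) → Fin s}
    {σ : Fin D' → Fin s} (hσ : Monotone σ)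
    {A : Matrix (Fin (D + 1)) (Fin r) ℤ} {A' : Matrix (Fin r) (Fin (D + 1)) ℤ}
    {C : Matrix (Fin r) (Fin D') ℤ} {C' : Matrix (Fin D') (Fin r) ℤ}
    {T : Matrix (Fin D') (Fin D') ℤ} (hS : Spl κ τ σ A A' C C') (hT : Blk σ σ T)
    (h4 : A' * A + C * C' = 1) {c : Fp (Pt E) κ D} (hc : HomP c) (g : ∀ x, Pt E (κ x)) :
    B r κ D D' c (dlP κ σ (C * T) g) =
      T.det ^ 2 * B (D + 1) τ D 0 (pushP τ A c) (dlP τ Fin.elim0 0 (mv τ A g)) := by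
  obtain ⟨bA, bA', bC, bC', h1, h2, h3⟩ := id hS
  have hr' : r = D' + 1 + D := by omega
  have e1 : g = mv κ A' (mv τ A g) + mv κ C (mv σ C' g) := by
    rw [mv_mul A' bA, mv_mul C bC', G3_mv_add, h4, mv_one]
  have e4 := tors_mul_dlP hE hinj (hξ D') hσ bC hT ⟨_, e1⟩
  have dT : HomP (dlP κ σ (C * T) g) := homP_dl hσ (blk_mul bC hT) g
  have dC : HomP (dlP κ σ C (mv κ A' (mv τ A g))) := homP_dl hσ bC _
  have hx : HomP (dlP κ σ (C * T) g - T.det ^ 2 • dlP κ σ C (mv κ A' (mv τ A g))) :=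
    (HomPG (Pt E) κ D').sub_mem dT ((HomPG (Pt E) κ D').zsmul_mem dC _)
  have e5 := hB.tors r κ D' D hr' _ c hx hc e4
  have e6 : hB.hom hr' hc (⟨dlP κ σ (C * T) g, dT⟩ -
      T.det ^ 2 • ⟨dlP κ σ C (mv κ A' (mv τ A g)), dC⟩) = 0 := e5
  rw [map_sub, map_zsmul, sub_eq_zero, zsmul_eq_mul] at e6
  have e7 : B r κ D' D (dlP κ σ (C * T) g) c =
      (T.det ^ 2 : ℤ) * B r κ D' D (dlP κ σ C (mv κ A' (mv τ A g))) c := e6
  rw [hB.comm r κ D D' hr c _ hc dT, e7, ← hB.comm r κ D D' hr c _ hc dC]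
  have d0 : HomP (dlP τ Fin.elim0 (0 : Matrix (Fin (D + 1)) (Fin 0) ℤ) (mv τ A g)) :=
    homP_dl (G3_mono_zero _) (G3_blk_zero _ _) _
  have e8 := hB.proj r (D + 1) D' D 0 hr rfl κ τ σ A A' C C' hS c _ hc d0
  rw [pull_dlP A' hσ C] at e8
  rw [← e8]
  push_cast
  rfl

theorem IsHtP.eq_zero (hE : ∀ i, (E i).IsElliptic) (hinj : Function.Injective E)
    (hB : IsHtP E ξ h B)
    (hξ : ∀ D μ, IsGen 0 (Algebra.ofId Qb (F D μ)) (prd E μ) (ξ D μ))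
    {r D D' : ℕ} (hr : r = D + 1 + D') {κ : Fin r → Fin s} {σ : Fin D' → Fin s}
    (hσ : Monotone σ) {N : Matrix (Fin r) (Fin D') ℤ} (bN : Blk κ σ N)
    (hN : (N.transpose * N).det = 0) {c : Fp (Pt E) κ D} (hc : HomP c) (g : ∀ x, Pt E (κ x)) :
    B r κ D D' c (dlP κ σ N g) = 0 := by
  rw [hB.comm r κ D D' hr c _ hc (homP_dl hσ bN g)]
  exact hB.tors r κ D' D (by omega) _ c (homP_dl hσ bN g) hc
    (tors_dlP hE hinj (hξ D') hσ bN hN g)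

theorem G3_last {B' : ∀ (r : ℕ) (κ : Fin r → Fin s) (D D' : ℕ),
      Fp (Pt E) κ D → Fp (Pt E) κ D' → ℝ}
    (hB : IsHtP E ξ h B) (hB' : IsHtP E ξ h B') (τ : Fin 1 → Fin s) (μ₁ μ₂ : Fin 0 → Fin s)
    (X Y : Matrix (Fin 1) (Fin 0) ℤ) (v w : ∀ x, Pt E (τ x)) :
    B 1 τ 0 0 (dlP τ μ₁ X v) (dlP τ μ₂ Y w) = B' 1 τ 0 0 (dlP τ μ₁ X v) (dlP τ μ₂ Y w) := by
  obtain ⟨i, rfl⟩ : ∃ i, τ = fun _ => i :=
    ⟨τ 0, funext fun x => congrArg τ (Subsingleton.elim x 0)⟩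
  have e1 : ∀ (μ : Fin 0 → Fin s) (X : Matrix (Fin 1) (Fin 0) ℤ)
      (v : ∀ x : Fin 1, Pt E ((fun _ : Fin 1 => i) x)),
      (dlP (fun _ : Fin 1 => i) μ X v : Fp (Pt E) (fun _ : Fin 1 => i) 0) = dfP i (v 0) := by
    intro μ X v
    rw [dfP_eq]
    have e2 : X = 0 := by
      ext i j
      exact j.elim0
    have e3 : μ = Fin.elim0 := funext fun x => x.elim0
    have e4 : v = fun _ => v 0 := funext fun x => by
      rw [Subsingleton.elim x 0]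
    rw [e2, e3]
    exact congrArg _ e4
  rw [e1, e1]
  exact (hB.nrm i _ _).trans (hB'.nrm i _ _).symm

/-- **Uniqueness.** -/
theorem IsHtP.unique (hE : ∀ i, (E i).IsElliptic) (hinj : Function.Injective E)
    {B B' : ∀ (r : ℕ) (κ : Fin r → Fin s) (D D' : ℕ), Fp (Pt E) κ D → Fp (Pt E) κ D' → ℝ}
    (hB : IsHtP E ξ h B) (hB' : IsHtP E ξ h B')
    (hξ : ∀ D μ, IsGen 0 (Algebra.ofId Qb (F D μ)) (prd E μ) (ξ D μ))
    {r D D' : ℕ} (hr : r = D + 1 + D') {κ : Fin r → Fin s} {c : Fp (Pt E) κ D}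
    {c' : Fp (Pt E) κ D'} (hc : HomP c) (hc' : HomP c') :
    B r κ D D' c c' = B' r κ D D' c c' := by
  rw [hB.expand hE hinj hξ hr hc hc', hB'.expand hE hinj hξ hr hc hc']
  refine Finset.sum_congr rfl fun p hp => ?_
  congr 1
  obtain ⟨m1, b1⟩ := hc.1 p hp
  have hr' : r = D' + 1 + D := by omega
  have d1 : HomP (dlP κ p.1 p.2.1 p.2.2) := homP_dl m1 b1 _
  rw [hB.comm r κ D D' hr _ _ d1 hc', hB'.comm r κ D D' hr _ _ d1 hc',
    hB.expand hE hinj hξ hr' hc' d1, hB'.expand hE hinj hξ hr' hc' d1]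
  refine Finset.sum_congr rfl fun p' hp' => ?_
  congr 1
  obtain ⟨m2, b2⟩ := hc'.1 p' hp'
  have d2 : HomP (dlP κ p'.1 p'.2.1 p'.2.2) := homP_dl m2 b2 _
  rw [hB.comm r κ D' D hr' _ _ d2 d1, hB'.comm r κ D' D hr' _ _ d2 d1]
  clear hp hp'
  obtain ⟨μ, N, g⟩ := p
  obtain ⟨μ', N', g'⟩ := p'
  change Monotone μ at m1
  change Monotone μ' at m2
  change Blk κ μ N at b1
  change Blk κ μ' N' at b2
  change HomP (dlP κ μ N g) at d1
  change HomP (dlP κ μ' N' g') at d2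
  change B r κ D D' (dlP κ μ N g) (dlP κ μ' N' g') = B' r κ D D' (dlP κ μ N g) (dlP κ μ' N' g')
  by_cases hN : (N'.transpose * N').det = 0
  · rw [hB.eq_zero hE hinj hξ hr m2 b2 hN d1, hB'.eq_zero hE hinj hξ hr m2 b2 hN d1]
  obtain ⟨τ, A, A', C, C', T, hS, h4, rfl, hT⟩ := exists_splitB hr b2 hN
  rw [hB.step hE hinj hξ hr m2 hS hT h4 d1, hB'.step hE hinj hξ hr m2 hS hT h4 d1, push_dlP]
  congr 1
  have hs : D + 1 = D + 1 + 0 := rfl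
  have hs' : D + 1 = 0 + 1 + D := by omega
  have b3 : Blk τ μ (A * N) := blk_mul hS.1 b1
  have d3 : HomP (dlP τ μ (A * N) (mv τ A g)) := homP_dl m1 b3 _
  have d0 : HomP (dlP τ Fin.elim0 (0 : Matrix (Fin (D + 1)) (Fin 0) ℤ) (mv τ A g')) :=
    homP_dl (G3_mono_zero _) (G3_blk_zero _ _) _
  rw [hB.comm (D + 1) τ D 0 hs _ _ d3 d0, hB'.comm (D + 1) τ D 0 hs _ _ d3 d0]
  by_cases hM : ((A * N).transpose * (A * N)).det = 0
  · rw [hB.eq_zero hE hinj hξ hs' m1 b3 hM d0, hB'.eq_zero hE hinj hξ hs' m1 b3 hM d0]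
  obtain ⟨τ₁, A₁, A₁', C₁, C₁', T₁, hS₁, k4, k5, hT₁⟩ := exists_splitB hs' b3 hM
  rw [k5, hB.step hE hinj hξ hs' m1 hS₁ hT₁ k4 d0, hB'.step hE hinj hξ hs' m1 hS₁ hT₁ k4 d0,
    push_dlP]
  congr 1
  exact G3_last hB hB' τ₁ _ _ _ _ _ _

end Pool.Agent.LibRP11
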