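import Pool.Agent.LibRP11.G1b
import Pool.Agent.LibRP11.C2b
import Pool.Agent.LibRP11.C3b
import Pool.Agent.LibRP11.G3
import Pool.Agent.LibRP11.C1
import Pool.Agent.LibRP11.A9

/-!
[RP11 G4] the height pairing is given by the formula, as the last part of LibRG11/Exist.lean: `pairP_add`, `pairP_comm`,
`pairP_df` (C1), `pairP_proj` (C2), `homP_push`, `homP_pull` (C3), `pairP_zero` (A9) with `aj_of_torsP` (G1), `IsHtP.unique`.
-/

open WeierstrassCurve Pool.Agent.LibBH2 Pool.Agent.LibIG50 Pool.Agent.LibCHd Pool.Agent.LibGG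
  Pool.Agent.LibAC34 Pool.Agent.LibAF11 Pool.Agent.LibRG11
open Pool.Agent.LibEP66 (Blk prd)
open scoped Classical

namespace Pool.Agent.LibRP11

variable {K : Type} [Field K] [Algebra K Qb] {s : ℕ} {E : Fin s → WeierstrassCurve K}
  {F : ∀ D, (Fin D → Fin s) → Type} [∀ D μ, Field (F D μ)] [∀ D μ, Algebra Qb (F D μ)]
  {ξ : ∀ D μ a, ((prd E μ a)⁄(F D μ)).toAffine.Point} {h : ∀ i, Pt E i → ℝ}

private theorem G4_df (i : Fin s) (P : Pt E i) : HomP (dfP i P) := by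
  rw [dfP_eq]
  exact homP_dl (fun a => a.elim0) (fun _ a => a.elim0) _

private theorem G4_of (hE : ∀ i, (E i).IsElliptic) (hinj : Function.Injective E)
    (hξ : ∀ D μ, IsGen 0 (Algebra.ofId Qb (F D μ)) (prd E μ) (ξ D μ))
    (hh : ∀ i (P Q : Pt E i), h i (P + Q) + h i (P - Q) = 2 * h i P + 2 * h i Q)
    {B : ∀ (r : ℕ) (κ : Fin r → Fin s) (D D' : ℕ), Fp (Pt E) κ D → Fp (Pt E) κ D' → ℝ}
    (hB : ∀ (r D D' : ℕ) (hr : r = D + 1 + D') (κ : Fin r → Fin s)
      (c : Fp (Pt E) κ D) (c' : Fp (Pt E) κ D'), HomP c → HomP c' →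
        B r κ D D' c c' = pairP hr h c c') : IsHtP E ξ h B where
  add r κ D D' hr c₁ c₂ c' h₁ h₂ h' := by
    rw [hB r D D' hr κ _ _ ((HomPG (Pt E) κ D).add_mem h₁ h₂) h', hB r D D' hr κ _ _ h₁ h',
      hB r D D' hr κ _ _ h₂ h', pairP_add]
  comm r κ D D' hr c c' hc hc' := by
    have hr' : r = D' + 1 + D := by omega
    rw [hB r D D' hr κ _ _ hc hc', hB r D' D hr' κ _ _ hc' hc, pairP_comm hh hr hr']
  tors r κ D D' hr c c' hc hc' ht := by
    rw [hB r D D' hr κ _ _ hc hc']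
    exact pairP_zero hh hr hc hc' (aj_of_torsP hE hinj (hξ D) hc ht)
  proj r q t D D' hr hs κ τ σ A A' C C' hS c c' hc hc' := by
    have hr' : r = D + 1 + (t + D') := by omega
    rw [hB r D (t + D') hr' κ _ _ hc (homP_pull hS.2.1 hS.2.2.1 hc'),
      hB q D D' hs τ _ _ (homP_push hS.1 hc) hc', pairP_proj hh hr' hs hS]
  nrm i P Q := by
    rw [hB 1 0 0 rfl (fun _ => i) (dfP i P) (dfP i Q) (G4_df i P) (G4_df i Q), pairP_df hh]

/-- **The height pairing is given by the formula.** -/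
theorem isHtP_iff (hE : ∀ i, (E i).IsElliptic) (hinj : Function.Injective E)
    (hξ : ∀ D μ, IsGen 0 (Algebra.ofId Qb (F D μ)) (prd E μ) (ξ D μ))
    (hh : ∀ i (P Q : Pt E i), h i (P + Q) + h i (P - Q) = 2 * h i P + 2 * h i Q)
    (B : ∀ (r : ℕ) (κ : Fin r → Fin s) (D D' : ℕ), Fp (Pt E) κ D → Fp (Pt E) κ D' → ℝ) :
    IsHtP E ξ h B ↔ ∀ (r D D' : ℕ) (hr : r = D + 1 + D') (κ : Fin r → Fin s)
      (c : Fp (Pt E) κ D) (c' : Fp (Pt E) κ D'), HomP c → HomP c' →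
        B r κ D D' c c' = pairP hr h c c' := by
  constructor
  · intro hB r D D' hr κ c c' hc hc'
    have h1 : IsHtP E ξ h (fun r κ D D' c c' =>
        if hr : r = D + 1 + D' then pairP hr h c c' else 0) :=
      G4_of hE hinj hξ hh fun r D D' hr κ c c' _ _ => dif_pos hr
    rw [IsHtP.unique hE hinj hB h1 hξ hr hc hc']
    exact dif_pos hr
  · exact G4_of hE hinj hξ hh

end Pool.Agent.LibRP11
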