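import Pool.Agent.LibRP11.G1b
import Pool.Agent.LibRP11.G1c
import Pool.Agent.LibRP11.A10
import Pool.Agent.LibRP11.A11
import Pool.Agent.LibRG11.Final

/-!
The height pairing of cycles on products of elliptic curves: non-degeneracy, ranks, determinants.
-/

open WeierstrassCurve Pool.Agent.LibBH2 Pool.Agent.LibIG50 Pool.Agent.LibCHd Pool.Agent.LibGG
  Pool.Agent.LibAC34 Pool.Agent.LibAF11 Pool.Agent.LibRG11
open Pool.Agent.LibEP66 (Blk prd mlt)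
open scoped Classical

namespace Pool.Agent.LibRP11

section cls
variable {K : Type} [Field K] [Algebra K Qb] {s : ℕ} {E : Fin s → WeierstrassCurve K}
  {r D : ℕ} {κ : Fin r → Fin s}
  {F : (Fin D → Fin s) → Type} [∀ μ, Field (F μ)] [∀ μ, Algebra Qb (F μ)]

/-- the class as a homomorphism -/
noncomputable def clPHom (ξ : ∀ μ a, ((prd E μ a)⁄(F μ)).toAffine.Point) :
    Fp (Pt E) κ D →+ CH (prd E κ) (pt0 Qb) D :=
  AddMonoidHom.mk' (clP E ξ) fun _ _ =>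
    Finsupp.sum_add_index' (fun _ => zero_zsmul _) (fun _ _ _ => add_zsmul _ _ _)

theorem clP_comb (ξ : ∀ μ a, ((prd E μ a)⁄(F μ)).toAffine.Point) {n : ℕ}
    (c : Fin n → Fp (Pt E) κ D) (a : Fin n → ℤ) :
    clP E ξ (∑ j, a j • c j) = ∑ j, a j • clP E ξ (c j) := by
  show clPHom ξ (∑ j, a j • c j) = _
  rw [map_sum]
  refine Finset.sum_congr rfl fun j _ => ?_
  rw [map_zsmul]
  rfl

theorem tors_iffP (hE : ∀ i, (E i).IsElliptic) (hinj : Function.Injective E)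
    {G : ∀ i, AddSubgroup (Pt E i)} (hG : SelfP E G)
    {ξ : ∀ μ a, ((prd E μ a)⁄(F μ)).toAffine.Point}
    (hξ : ∀ μ, IsGen 0 (Algebra.ofId Qb (F μ)) (prd E μ) (ξ μ))
    {c : Fp (Pt E) κ D} (hc : HomP c) (hcG : OnP G c) :
    IsOfFinAddOrder (clP E ξ c) ↔ AJP c :=
  ⟨fun h => aj_of_torsP hE hinj hξ hc h, fun h => tors_of_ajP hE hinj hG hξ hc hcG h⟩

theorem fam_comb {G : ∀ i, AddSubgroup (Pt E i)} {n : ℕ} {c : Fin n → Fp (Pt E) κ D}
    (hc : FamP G c) (a : Fin n → ℤ) : HomP (∑ j, a j • c j) ∧ OnP G (∑ j, a j • c j) :=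
  ⟨(HomPG (Pt E) κ D).sum_mem fun j _ => (HomPG (Pt E) κ D).zsmul_mem (hc j).1 _,
    (OnPS κ D G).sum_mem fun j _ => (OnPS κ D G).zsmul_mem (hc j).2 _⟩

theorem lin_iff_ajP (hE : ∀ i, (E i).IsElliptic) (hinj : Function.Injective E)
    {G : ∀ i, AddSubgroup (Pt E i)} (hG : SelfP E G)
    {ξ : ∀ μ a, ((prd E μ a)⁄(F μ)).toAffine.Point}
    (hξ : ∀ μ, IsGen 0 (Algebra.ofId Qb (F μ)) (prd E μ) (ξ μ)) {n : ℕ}
    {c : Fin n → Fp (Pt E) κ D} (hc : FamP G c) :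
    IndP E ξ c ↔ ∀ a : Fin n → ℤ, AJP (∑ j, a j • c j) → a = 0 := by
  unfold IndP
  rw [lin_iff]
  refine forall_congr' fun a => ?_
  rw [← clP_comb, tors_iffP hE hinj hG hξ (fam_comb hc a).1 (fam_comb hc a).2]

theorem mem_VP {G : ∀ i, AddSubgroup (Pt E i)}
    {ξ : ∀ μ a, ((prd E μ a)⁄(F μ)).toAffine.Point}
    {x : CH (prd E κ) (pt0 Qb) D} (hx : x ∈ VP E ξ G κ) :
    ∃ c : Fp (Pt E) κ D, HomP c ∧ OnP G c ∧ clP E ξ c = x := by
  have h1 : VP E ξ G κ ≤ (HomPG (Pt E) κ D ⊓ OnPS κ D G).map (clPHom ξ) := by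
    unfold VP
    rw [AddSubgroup.closure_le]
    rintro _ ⟨c, h1, h2, rfl⟩
    exact ⟨c, ⟨h1, h2⟩, rfl⟩
  obtain ⟨c, ⟨h2, h3⟩, h4⟩ := h1 hx
  exact ⟨c, h2, h3, h4⟩

theorem rank_VP (hE : ∀ i, (E i).IsElliptic) (hinj : Function.Injective E)
    {G : ∀ i, AddSubgroup (Pt E i)} (hG : SelfP E G)
    {ξ : ∀ μ a, ((prd E μ a)⁄(F μ)).toAffine.Point}
    (hξ : ∀ μ, IsGen 0 (Algebra.ofId Qb (F μ)) (prd E μ) (ξ μ)) {n : ℕ}
    (h1 : ∃ c : Fin n → Fp (Pt E) κ D, FamP G c ∧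
      ∀ a : Fin n → ℤ, AJP (∑ j, a j • c j) → a = 0)
    (h2 : ∀ c : Fin (n + 1) → Fp (Pt E) κ D, FamP G c →
      ∃ a : Fin (n + 1) → ℤ, a ≠ 0 ∧ AJP (∑ j, a j • c j)) :
    Module.rank ℤ (VP E ξ G κ) = n := by
  apply le_antisymm
  · refine rank_le fun s hs => ?_
    by_contra hlt
    push Not at hlt
    obtain ⟨t, hts, ht⟩ := Finset.exists_subset_card_eq hlt
    let ε : Fin (n + 1) ≃ t := (Fintype.equivFinOfCardEq (by rw [Fintype.card_coe, ht])).symm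
    have hex : ∀ x : VP E ξ G κ, ∃ c : Fp (Pt E) κ D, HomP c ∧
        OnP G c ∧ clP E ξ c = x.1 := fun x => mem_VP x.2
    choose f hf1 hf2 hf3 using hex
    have h3 : LinearIndependent ℤ fun j : Fin (n + 1) => ((ε j : VP E ξ G κ)) := by
      have h4 := hs.comp (fun j : Fin (n + 1) => (⟨(ε j : VP E ξ G κ), hts (ε j).2⟩ : s)) (by
        intro i j hij
        apply ε.injective
        apply Subtype.ext
        exact congrArg (fun x : s => (x : VP E ξ G κ)) hij)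
      exact h4
    have h5 : IndP E ξ fun j : Fin (n + 1) => f (ε j) := by
      have h6 := h3.map' (VP E ξ G κ).toIntSubmodule.subtype (Submodule.ker_subtype _)
      have h7 : (fun j : Fin (n + 1) => clP E ξ (f (ε j))) =
          (VP E ξ G κ).toIntSubmodule.subtype ∘ fun j : Fin (n + 1) => ((ε j : VP E ξ G κ)) :=
        funext fun j => hf3 (ε j)
      unfold IndP
      rw [h7]
      exact h6
    have hfam : FamP G fun j : Fin (n + 1) => f (ε j) := fun j => ⟨hf1 _, hf2 _⟩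
    rw [lin_iff_ajP hE hinj hG hξ hfam] at h5
    obtain ⟨a, ha, h7⟩ := h2 _ hfam
    exact ha (h5 a h7)
  · obtain ⟨c, hc, h3⟩ := h1
    rw [← lin_iff_ajP hE hinj hG hξ hc] at h3
    have h4 : LinearIndependent ℤ fun j : Fin n =>
        (⟨clP E ξ (c j), AddSubgroup.subset_closure ⟨c j, (hc j).1, (hc j).2, rfl⟩⟩ :
          VP E ξ G κ) :=
      LinearIndependent.of_comp (VP E ξ G κ).toIntSubmodule.subtype h3
    have h5 := h4.cardinal_le_rank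
    rwa [Cardinal.mk_fin] at h5

end cls

variable {K : Type} [Field K] [Algebra K Qb] {s : ℕ} {E : Fin s → WeierstrassCurve K}
  {F : ∀ D, (Fin D → Fin s) → Type} [∀ D μ, Field (F D μ)] [∀ D μ, Algebra Qb (F D μ)]
  {ξ : ∀ D μ a, ((prd E μ a)⁄(F D μ)).toAffine.Point} {h : ∀ i, Pt E i → ℝ}

theorem nonDegP (hE : ∀ i, (E i).IsElliptic) (hinj : Function.Injective E)
    (hξ : ∀ D μ, IsGen 0 (Algebra.ofId Qb (F D μ)) (prd E μ) (ξ D μ))
    (hh : ∀ i (P Q : Pt E i), h i (P + Q) + h i (P - Q) = 2 * h i P + 2 * h i Q)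
    (h0 : ∀ i (P : Pt E i), h i P = 0 → IsOfFinAddOrder P)
    {G : ∀ i, AddSubgroup (Pt E i)} (hG : SelfP E G) : NonDegP E ξ h G :=
  fun _ D _ hr _ _ hc hcG hp =>
    tors_of_ajP hE hinj hG (hξ D) hc hcG (aj_of_pairP hh h0 G hr hc hcG hp)

theorem detsP (hE : ∀ i, (E i).IsElliptic) (hinj : Function.Injective E)
    (hξ : ∀ D μ, IsGen 0 (Algebra.ofId Qb (F D μ)) (prd E μ) (ξ D μ))
    (hh : ∀ i (P Q : Pt E i), h i (P + Q) + h i (P - Q) = 2 * h i P + 2 * h i Q)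
    (h0 : ∀ i (P : Pt E i), h i P = 0 → IsOfFinAddOrder P)
    (hfin : ∀ i (B : ℝ), {P : Pt E i | h i P ≤ B}.Finite)
    {G : ∀ i, AddSubgroup (Pt E i)} (hG : SelfP E G) : DetsP E ξ h G := by
  intro ρ R hR
  refine ⟨fun i => reg_ne (hh i) (hfin i) (hR i).2.1, fun r D D' hr κ => ?_⟩
  obtain ⟨k1, k2⟩ := rank_ajP (κ := κ) (D := D) G hR rfl
  refine ⟨rank_VP hE hinj hG (hξ D) k1 k2, fun c c' hc hc' => ?_⟩
  obtain ⟨q, hq, hq'⟩ := det_pairP hh G hR hr rfl hc hc'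
  refine ⟨q, hq, ?_⟩
  rw [hq', lin_iff_ajP hE hinj hG (hξ D) hc, lin_iff_ajP hE hinj hG (hξ D') hc']

end Pool.Agent.LibRP11
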