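import Pool.Agent.LibRP11.A8b
import Pool.Agent.LibRP11.A9
import Pool.Agent.LibRG11.Conv

/-!
Non-degeneracy implies that the zero-cycles on the surfaces are torsion.
-/

open WeierstrassCurve Pool.Agent.LibBH2 Pool.Agent.LibIG50 Pool.Agent.LibCHd Pool.Agent.LibGG
  Pool.Agent.LibAC34 Pool.Agent.LibAF11 Pool.Agent.LibRG11
open Pool.Agent.LibEP66 (Blk prd)
open scoped Classical

namespace Pool.Agent.LibRP11

section comb
variable {s : ℕ} {G : Fin s → Type} [∀ i, AddCommGroup (G i)] {κ : Fin 2 → Fin s}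

/-- the combination `(P, Q) - (P, 0) - (0, Q) + (0, 0)`, `a = (P, Q)` -/
noncomputable def qdP (a : ∀ x, G (κ x)) : Fp G κ 0 :=
  Finsupp.single (Fin.elim0, 0, a) 1 - Finsupp.single (Fin.elim0, 0, Function.update a 1 0) 1 -
    Finsupp.single (Fin.elim0, 0, Function.update a 0 0) 1 + Finsupp.single (Fin.elim0, 0, 0) 1

theorem qdP_sum {A : Type*} [AddCommGroup A]
    (f : ((Fin 0 → Fin s) × Matrix (Fin 2) (Fin 0) ℤ × (∀ x, G (κ x))) → A)
    (a : ∀ x, G (κ x)) : ((qdP a).sum fun p m => m • f p) =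
      f (Fin.elim0, 0, a) - f (Fin.elim0, 0, Function.update a 1 0) -
      f (Fin.elim0, 0, Function.update a 0 0) + f (Fin.elim0, 0, 0) := by
  have h0 : ∀ p, (0 : ℤ) • f p = 0 := fun p => zero_zsmul _
  have h1 : ∀ p (m n : ℤ), (m + n) • f p = m • f p + n • f p := fun p m n => add_zsmul _ _ _
  have h2 : ∀ p (m n : ℤ), (m - n) • f p = m • f p - n • f p := fun p m n => by
    rw [sub_zsmul, sub_eq_add_neg]
  unfold qdP
  rw [Finsupp.sum_add_index' h0 h1, Finsupp.sum_sub_index h2, Finsupp.sum_sub_index h2,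
    Finsupp.sum_single_index (h0 _), Finsupp.sum_single_index (h0 _),
    Finsupp.sum_single_index (h0 _), Finsupp.sum_single_index (h0 _)]
  simp only [one_zsmul]

theorem qdP_homP (a : ∀ x, G (κ x)) : HomP (qdP a) := by
  refine ⟨fun p _ => ⟨fun i => i.elim0, fun x b => b.elim0⟩, fun μ M _ => ?_⟩
  have h1 := qdP_sum (G := G) (A := ℤ) (fun p => (M.transpose * p.2.1).det ^ 2) a
  simp only [smul_eq_mul] at h1
  rw [h1]
  simp

theorem qdP_onP {H : ∀ i, AddSubgroup (G i)} {a : ∀ x, G (κ x)} (ha : ∀ x, a x ∈ H (κ x)) :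
    OnP H (qdP a) := by
  have h1 : ∀ b : ∀ x, G (κ x), (∀ x, b x ∈ H (κ x)) →
      (Finsupp.single (Fin.elim0, 0, b) 1 : Fp G κ 0) ∈ OnPS κ 0 H := by
    intro b hb p hp
    have h2 := Finset.mem_singleton.1 (Finsupp.support_single_subset hp)
    rw [h2]
    exact hb
  have h2 : ∀ j, ∀ x, Function.update a j 0 x ∈ H (κ x) := by
    intro j x
    by_cases hij : x = j
    · subst hij
      rw [Function.update_self]
      exact (H _).zero_mem
    · rw [Function.update_of_ne hij]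
      exact ha x
  exact (OnPS κ 0 H).add_mem ((OnPS κ 0 H).sub_mem ((OnPS κ 0 H).sub_mem (h1 _ ha) (h1 _ (h2 1)))
    (h1 _ (h2 0))) (h1 _ fun _ => (H _).zero_mem)

theorem vec_update (a : ∀ x, G (κ x)) (j x : Fin 2) (i : Fin s) :
    vec (κ := κ) (Function.update a j 0) x i = if x = j then 0 else vec a x i := by
  by_cases hx : x = j
  · subst hx
    rw [if_pos rfl, vec, Function.update_self, Pi.single_zero, Pi.zero_apply]
  · rw [if_neg hx, vec, vec, Function.update_of_ne hx]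

theorem qdP_AJ (a : ∀ x, G (κ x)) : AJP (qdP a) := by
  intro i q _
  have h1 : LibHR84.tk (fun p => LibCV66.kf p q) (fgt i (qdP a)) =
      ((qdP a).sum fun p m => m • ∑ x, LibCV66.kf (p.2.1, Pi.single x 1) q • vec p.2.2 x i) := by
    rw [LibHR84.tk_apply, fgt_apply', Finsupp.sum_mapDomain_index (fun _ => zero_zsmul _)
      (fun _ _ _ => add_zsmul _ _ _)]
  rw [h1, qdP_sum]
  simp only [Fin.sum_univ_two, vec_update, vec_zero']
  simp
end comb

variable {K : Type} [Field K] [Algebra K Qb] {s : ℕ} {E : Fin s → WeierstrassCurve K}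
  {F : ∀ D, (Fin D → Fin s) → Type} [∀ D μ, Field (F D μ)] [∀ D μ, Algebra Qb (F D μ)]
  {ξ : ∀ D μ a, ((prd E μ a)⁄(F D μ)).toAffine.Point} {h : ∀ i, Pt E i → ℝ}

theorem surj_of_genP {F : Type} [Field F] [Algebra Qb F]
    {V : Fin 0 → WeierstrassCurve Qb} {ξ : ∀ a, ((V a)⁄F).toAffine.Point}
    (hξ : IsGen 0 (Algebra.ofId Qb F) V ξ) :
    Function.Surjective (algebraMap Qb F) := by
  intro x
  have h1 := hξ.gen
  have h2 : x ∈ IntermediateField.adjoin Qb (Set.range (Algebra.ofId Qb F) ∪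
      {c | ∃ a i j, c = hc (ξ a) i / hc (ξ a) j}) := by
    rw [h1]
    exact IntermediateField.mem_top
  have h3 : IntermediateField.adjoin Qb (Set.range (Algebra.ofId Qb F) ∪
      {c | ∃ a i j, c = hc (ξ a) i / hc (ξ a) j}) ≤ ⊥ := by
    rw [IntermediateField.adjoin_le_iff]
    rintro y (⟨c, rfl⟩ | ⟨a, -⟩)
    · exact IntermediateField.mem_bot.2 ⟨c, rfl⟩
    · exact a.elim0
  obtain ⟨c, hc⟩ := IntermediateField.mem_bot.1 (h3 h2)
  exact ⟨c, hc⟩

theorem selfP_of_nonDegP
    (hξ : ∀ D μ, IsGen 0 (Algebra.ofId Qb (F D μ)) (prd E μ) (ξ D μ))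
    (hh : ∀ i (P Q : Pt E i), h i (P + Q) + h i (P - Q) = 2 * h i P + 2 * h i Q)
    {G : ∀ i, AddSubgroup (Pt E i)} (hn : NonDegP E ξ h G) : SelfP E G := by
  intro κ a ha
  have h1 := hn 2 0 1 rfl κ (qdP a) (qdP_homP a) (qdP_onP ha) fun c' hc' _ =>
    pairP_zero hh rfl (qdP_homP a) hc' (qdP_AJ a)
  have h2 : clP E (ξ 0) (qdP a) = sq (W := prd E κ) fun x => constPt Qb (a x) := by
    have h3 : ∀ b : ∀ x, Pt E (κ x), cl (V := prd E Fin.elim0) (Algebra.ofId Qb (F 0 Fin.elim0)) 0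
        (ξ 0 Fin.elim0) (org (prd E κ)) 0 (fun x => constPt Qb (b x)) =
        ptC (W := prd E κ) fun x => constPt Qb (b x) := by
      intro b
      rw [ptC_eq]
      have h4 := LibAC6.cyc_of_surj (surj_of_genP (hξ 0 Fin.elim0))
        (lin (V := prd E Fin.elim0) (Algebra.ofId Qb (F 0 Fin.elim0)) (ξ 0 Fin.elim0) 0
          (fun x => constPt Qb (b x)) (org (prd E κ))) (fun x => constPt Qb (b x)) (by
        intro x
        change _ = constPt (F 0 Fin.elim0) (constPt Qb (b x) : (prd E κ x).toAffine.Point) +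
          ((∑ a : Fin 0, _) + mp _ 0)
        rw [Finset.univ_eq_empty, Finset.sum_empty, zero_add, mp_zero, add_zero])
      have h5 : cyc (LibAC6.ptc (W := prd E κ) fun x => constPt Qb (b x)) =
          Finsupp.single (eqs (LibAC6.ptc (W := prd E κ) fun x => constPt Qb (b x))) 1 :=
        LibAC6.cyc_of_surj (F := Qb) Function.surjective_id _ _ fun i => rfl
      exact congrArg QuotientAddGroup.mk (h4.trans h5.symm)
    have h6 : clP E (ξ 0) (qdP a) = (qdP a).sum fun p m => m •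
        cl (V := prd E p.1) (Algebra.ofId Qb (F 0 p.1)) 0 (ξ 0 p.1) (org (prd E κ))
          p.2.1 fun x => constPt Qb (p.2.2 x) := rfl
    rw [h6, qdP_sum (G := Pt E) (fun p =>
        cl (V := prd E p.1) (Algebra.ofId Qb (F 0 p.1)) 0 (ξ 0 p.1) (org (prd E κ))
          p.2.1 fun x => constPt Qb (p.2.2 x)) a]
    unfold LibAF11.sq
    rw [h3, h3, h3, h3]
    have e0 : ∀ i, (constPt Qb (0 : Pt E i) : ((E i)⁄Qb).toAffine.Point) = 0 := fun _ => rfl
    have e1 : ∀ j : Fin 2, (fun x => (constPt Qb (Function.update a j 0 x) :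
        (prd E κ x).toAffine.Point)) = Function.update (fun x => constPt Qb (a x)) j 0 := by
      intro j
      funext i
      by_cases hij : i = j
      · subst hij
        rw [Function.update_self, Function.update_self]
        exact e0 _
      · rw [Function.update_of_ne hij, Function.update_of_ne hij]
    rw [e1 1, e1 0]
    rfl
  rw [← h2]
  exact h1

end Pool.Agent.LibRP11
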