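import Pool.Agent.LibRP11.Stmt
import Pool.Agent.LibRG11.R9

/-!
[RP11 G7] groups of high rank on several curves, as LibRG11/R9.lean. The curve with a point of order two which `exist`
(LibAF11/Exist.lean) needs is only used for the construction of `Γ`: take over `ℚ` (or over `K`) the curve
`y ^ 2 = x ^ 3 - x`, `T = (0, 0)`, `P = 0`; `InfRank Γ` holds for all elliptic curves over `Qb`. For the curves
`(E₀ i)⁄Qb` take the `n` points and let `L` be generated over `K` by all their coordinates (the union over `i` of the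
finite sets), `E i = (E₀ i)⁄L`. `high_aux` in R9.lean gives for every `i` a group `G i` and `R i` with `Base`; for `SelfP` use
in addition that `constPt Qb P ∈ Γ ((E i)⁄Qb)` for all `P ∈ G i` (as `self_of_pw` in LibRG11/Final.lean, `pwC_of_pw`, `PwC`).
-/

open WeierstrassCurve Pool.Agent.LibBH2 Pool.Agent.LibIG50 Pool.Agent.LibCHd Pool.Agent.LibGG
  Pool.Agent.LibAC34 Pool.Agent.LibAF11 Pool.Agent.LibRG11
open Pool.Agent.LibEP66 (Blk prd)
open scoped Classical

namespace Pool.Agent.LibRP11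

theorem selfP_of_pwC {L : Type} [Field L] [Algebra L Qb] {s : ℕ} {E : Fin s → WeierstrassCurve L}
    (hE : ∀ i, (E i).IsElliptic) {Γ : Grid} (hΓ : PwC Γ) {G : ∀ i, AddSubgroup (Pt E i)}
    (hG : ∀ i, ∀ P ∈ G i, constPt Qb P ∈ Γ ((E i)⁄Qb)) : SelfP E G := by
  intro κ a ha
  refine hΓ (prd E κ) (fun x => ?_) (fun x => constPt Qb (a x)) fun x => hG _ _ (ha x)
  have := hE (κ x)
  exact inferInstanceAs ((E (κ x)).map (algebraMap L Qb)).IsElliptic

/-- the group generated by points with coordinates in `L` -/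
theorem G7_aux {L : Type} [Field L] [Algebra L Qb] (E : WeierstrassCurve L)
    [E.IsElliptic] (Γ : Grid) {n : ℕ} (Q : Fin n → (E⁄Qb).toAffine.Point)
    (hQ : ∀ i, Q i ∈ Γ (E⁄Qb)) (hli : LinearIndependent ℤ Q)
    (hco : ∀ i, ∀ z ∈ LibRG11.coo (Q i), ∃ w : L, algebraMap L Qb w = z) :
    ∃ (G : AddSubgroup E.toAffine.Point) (R : Fin n → E.toAffine.Point),
      (∀ P ∈ G, constPt Qb P ∈ Γ (E⁄Qb)) ∧ Base G R := by
  have hE : (E⁄Qb).IsElliptic := inferInstanceAs (E.map (algebraMap L Qb)).IsElliptic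
  choose R hR using fun i => exists_pt E (Q i) (hco i)
  refine ⟨AddSubgroup.closure (Set.range R), R, fun P hP => ?_, fun i =>
    AddSubgroup.subset_closure ⟨i, rfl⟩, ?_, fun P hP => ⟨1, one_ne_zero, by rwa [one_smul]⟩⟩
  · have h1 : AddSubgroup.closure (Set.range R) ≤ (Γ (E⁄Qb)).comap (cHom E) := by
      rw [AddSubgroup.closure_le]
      rintro _ ⟨i, rfl⟩
      change constPt Qb (R i) ∈ Γ (E⁄Qb)
      rw [hR i]
      exact hQ i
    exact h1 hP
  · refine LinearIndependent.of_comp (cHom E).toIntLinearMap ?_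
    have h2 : ((cHom E).toIntLinearMap ∘ R) = Q := funext hR
    rw [h2]
    exact hli

/-- the same for several curves -/
theorem G7_fam {L : Type} [Field L] [Algebra L Qb] {s : ℕ} (E : Fin s → WeierstrassCurve L)
    (hE : ∀ i, (E i).IsElliptic) {Γ : Grid} (hΓ : PwC Γ) {n : ℕ}
    (Q : ∀ i, Fin n → ((E i)⁄Qb).toAffine.Point)
    (hQ : ∀ i j, Q i j ∈ Γ ((E i)⁄Qb)) (hli : ∀ i, LinearIndependent ℤ (Q i))
    (hco : ∀ i j, ∀ z ∈ LibRG11.coo (Q i j), ∃ w : L, algebraMap L Qb w = z) :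
    ∃ (G : ∀ i, AddSubgroup (Pt E i)) (R : ∀ i, Fin n → Pt E i),
      SelfP E G ∧ ∀ i, Base (G i) (R i) := by
  have h4 : ∀ i, ∃ (G : AddSubgroup (E i).toAffine.Point) (R : Fin n → (E i).toAffine.Point),
      (∀ P ∈ G, constPt Qb P ∈ Γ ((E i)⁄Qb)) ∧ Base G R := by
    intro i
    have := hE i
    exact G7_aux (E i) Γ (Q i) (hQ i) (hli i) (hco i)
  choose G R hG hR using h4
  exact ⟨G, R, selfP_of_pwC hE hΓ hG, hR⟩

/-- the curve `y ^ 2 = x ^ 3 - x` -/
def G7_W (K : Type) [Field K] : WeierstrassCurve K := ⟨0, 0, 0, -1, 0⟩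

theorem G7_W_ell (K : Type) [Field K] [CharZero K] : (G7_W K).IsElliptic := by
  refine ⟨?_⟩
  rw [isUnit_iff_ne_zero]
  norm_num [G7_W, WeierstrassCurve.Δ, WeierstrassCurve.b₂, WeierstrassCurve.b₄,
    WeierstrassCurve.b₆, WeierstrassCurve.b₈]

theorem G7_T (K : Type) [Field K] [CharZero K] :
    ∃ T : (G7_W K).toAffine.Point, T ≠ 0 ∧ 2 • T = 0 := by
  have h : (G7_W K).toAffine.Nonsingular 0 0 := by
    rw [WeierstrassCurve.Affine.nonsingular_iff, WeierstrassCurve.Affine.equation_iff]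
    norm_num [G7_W]
  refine ⟨.some 0 0 h, WeierstrassCurve.Affine.Point.some_ne_zero h, ?_⟩
  rw [two_nsmul]
  refine WeierstrassCurve.Affine.Point.add_self_of_Y_eq ?_
  norm_num [G7_W, WeierstrassCurve.Affine.negY]

theorem highP {K : Type} [Field K] [NumberField K] [Algebra K Qb] {s : ℕ}
    (E₀ : Fin s → WeierstrassCurve K) (hE : ∀ i, (E₀ i).IsElliptic) : HighP E₀ := by
  intro n
  obtain ⟨T, hT, hT'⟩ := G7_T K
  have hW := G7_W_ell K
  obtain ⟨Γ, h1, -, h2, -⟩ := LibAF11.exist K (G7_W K) T 0 hT hT'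
  have hE₀ : ∀ i, ((E₀ i)⁄Qb).IsElliptic := fun i => by
    have := hE i
    exact inferInstanceAs ((E₀ i).map (algebraMap K Qb)).IsElliptic
  have h3 : ∀ i, ∃ Q : Fin n → ((E₀ i)⁄Qb).toAffine.Point,
      (∀ j, Q j ∈ Γ ((E₀ i)⁄Qb)) ∧ LinearIndependent ℤ Q := by
    intro i
    obtain ⟨⟨Q, hQ⟩, -⟩ := h2 ((E₀ i)⁄Qb) (hE₀ i)
    refine ⟨fun j => (Q j).1, fun j => (Q j).2, ?_⟩
    have h3 := hQ.comp (fun j : Fin n => (j : ℕ)) Fin.val_injective
    exact h3.map' (Γ ((E₀ i)⁄Qb)).toIntSubmodule.subtype (Submodule.ker_subtype _)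
  choose Q hQ hQ' using h3
  let S : Finset Qb := Finset.univ.biUnion fun i => Finset.univ.biUnion fun j =>
    LibRG11.coo (Q i j)
  have hgal := isGalois_Qb K
  let L : IntermediateField K Qb := IntermediateField.adjoin K (S : Set Qb)
  have hfd : FiniteDimensional K L := by
    refine IntermediateField.finiteDimensional_adjoin fun x _ => ?_
    exact Algebra.IsIntegral.isIntegral x
  have hnf : NumberField L := NumberField.of_module_finite K L
  let E : Fin s → WeierstrassCurve L := fun i => (E₀ i)⁄L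
  have hEl : ∀ i, (E i).IsElliptic := fun i => by
    have := hE i
    exact inferInstanceAs ((E₀ i).map (algebraMap K L)).IsElliptic
  have hEE : ∀ i, (E i)⁄Qb = (E₀ i)⁄Qb := fun i => rfl
  have key : ∀ i, ∀ W : WeierstrassCurve Qb, W = (E₀ i)⁄Qb → ∃ Q : Fin n → W.toAffine.Point,
      (∀ j, Q j ∈ Γ W) ∧ LinearIndependent ℤ Q ∧ ∀ j, ∀ z ∈ LibRG11.coo (Q j), z ∈ S := by
    rintro i _ rfl
    exact ⟨Q i, hQ i, hQ' i, fun j z hz => Finset.mem_biUnion.2 ⟨i, Finset.mem_univ i,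
      Finset.mem_biUnion.2 ⟨j, Finset.mem_univ j, hz⟩⟩⟩
  choose Q' h5 h6 h7 using fun i => key i ((E i)⁄Qb) (hEE i)
  obtain ⟨G, R, h8, h9⟩ := G7_fam E hEl h1 Q' h5 h6 fun i j z hz =>
    ⟨⟨z, IntermediateField.subset_adjoin K _ (h7 i j z hz)⟩, rfl⟩
  exact ⟨L, inferInstance, hnf, inferInstance, E, G, R, h8,
    fun i => ⟨hEE i, hEl i, h9 i⟩⟩

end Pool.Agent.LibRP11
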