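import Pool.Agent.LibRP11.G7
import Pool.Agent.LibEP66.S1

/-!
[RP11 G8] the infinite set of curves of rank one: `S = rkSet`; see LibEP66/Final.lean (`Rk1.rkSet_infinite`, `Rk1.rkSet_rank`, `Rk1.rkSet_nonisog`; `W.Δ ≠ 0` gives
`IsElliptic`), `exists_rkSet` (LibEP66/S1.lean) and `selfP_of_pwC` (G7).
-/

open WeierstrassCurve Pool.Agent.LibBH2 Pool.Agent.LibIG50 Pool.Agent.LibCHd Pool.Agent.LibGG
  Pool.Agent.LibAC34 Pool.Agent.LibAF11 Pool.Agent.LibRG11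
open Pool.Agent.LibEP66 (Blk prd)
open scoped Classical

namespace Pool.Agent.LibRP11

theorem exists_S : ∃ S : Set (WeierstrassCurve ℚ), S.Infinite ∧
    (∀ W ∈ S, W.IsElliptic ∧ Module.rank ℤ W.toAffine.Point = 1) ∧
    (∀ W ∈ S, ∀ W' ∈ S, W ≠ W' → ∃ l : ℕ, l.Prime ∧
        padicValRat l (W.c₄ ^ 3 / W.Δ) < 0 ∧ 0 ≤ padicValRat l (W'.c₄ ^ 3 / W'.Δ)) ∧
    ∀ (s : ℕ) (E : Fin s → WeierstrassCurve ℚ), (∀ i, E i ∈ S) → SelfT E := by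
  obtain ⟨Γ, h1, h2⟩ := Pool.Agent.LibEP66.exists_rkSet
  have hell : ∀ W ∈ Rk1.rkSet, W.IsElliptic := fun W hW =>
    ⟨isUnit_iff_ne_zero.2 (Rk1.rkSet_rank hW).1⟩
  refine ⟨Rk1.rkSet, Rk1.rkSet_infinite, fun W hW => ⟨hell W hW, ?_⟩,
    fun _ h _ h' hne => Rk1.rkSet_nonisog h h' hne, fun s E hE => ?_⟩
  · exact Cardinal.toNat_eq_one.1 (Rk1.rkSet_rank hW).2.2
  · exact selfP_of_pwC (fun i => hell _ (hE i)) h1 fun i P _ => (h2 _ (hE i)).2 P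

end Pool.Agent.LibRP11
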