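import Pool.Agent.LibRP11.Defs
import Pool.Agent.LibRG11.Cyc

/-!
[RP11 G8b] (SHORT) from `self_top_of_cyc` (LibRG11/Cyc.lean): `κ : Fin 2 → Fin 1` is constant (`Subsingleton`), `prd` of a
constant family.
-/

open WeierstrassCurve Pool.Agent.LibBH2 Pool.Agent.LibIG50 Pool.Agent.LibCHd Pool.Agent.LibGG
  Pool.Agent.LibAC34 Pool.Agent.LibAF11 Pool.Agent.LibRG11
open Pool.Agent.LibEP66 (Blk prd)
open scoped Classical

namespace Pool.Agent.LibRP11

theorem selfP_one {K : Type} [Field K] [NumberField K] [Algebra K Qb] (E : WeierstrassCurve K)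
    [E.IsElliptic] (h : Cyc E) : SelfT fun _ : Fin 1 => E := by
  intro κ a _
  exact self_top_of_cyc E h a fun _ => AddSubgroup.mem_top _

end Pool.Agent.LibRP11
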