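import Pool.Agent.LibRP11.Defs

/-!
The height pairing of cycles on products of elliptic curves: the statements.
-/

open WeierstrassCurve Pool.Agent.LibBH2 Pool.Agent.LibIG50 Pool.Agent.LibCHd Pool.Agent.LibGG
  Pool.Agent.LibAC34 Pool.Agent.LibAF11 Pool.Agent.LibRG11
open Pool.Agent.LibEP66 (Blk prd mlt)
open scoped Classical

namespace Pool.Agent.LibRP11

section comb
variable {s : ℕ} {G : Fin s → Type} [∀ i, AddCommGroup (G i)] {r D D' n : ℕ} {κ : Fin r → Fin s}

/-- the determinant of the height pairing for two families of combinations -/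
noncomputable def DtP (hr : r = D + 1 + D') (h : ∀ i, G i → ℝ) (c : Fin n → Fp G κ D)
    (c' : Fin n → Fp G κ D') : ℝ :=
  (Matrix.of fun i j => pairP hr h (c i) (c' j)).det

/-- the members of the family are homologically trivial, with translations in the groups `H i` -/
def FamP (H : ∀ i, AddSubgroup (G i)) (c : Fin n → Fp G κ D) : Prop :=
  ∀ j, HomP (c j) ∧ OnP H (c j)

end comb

variable {K : Type} [Field K] [Algebra K Qb] {s : ℕ} (E : Fin s → WeierstrassCurve K)

section cls
variable {r D : ℕ} {F : (Fin D → Fin s) → Type} [∀ μ, Field (F μ)] [∀ μ, Algebra Qb (F μ)]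
  (ξ : ∀ μ a, ((prd E μ a)⁄(F μ)).toAffine.Point)

/-- the group of the classes in `CH_D (A)` of the homologically trivial combinations with translations
in the groups `G i`, where `A` is the product of the curves `E (κ x)` -/
noncomputable def VP (G : ∀ i, AddSubgroup (Pt E i)) (κ : Fin r → Fin s) :
    AddSubgroup (CH (prd E κ) (pt0 Qb) D) :=
  AddSubgroup.closure {x | ∃ c : Fp (Pt E) κ D, HomP c ∧ OnP G c ∧ clP E ξ c = x}

/-- the classes are linearly independent -/
def IndP {κ : Fin r → Fin s} {n : ℕ} (c : Fin n → Fp (Pt E) κ D) : Prop :=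
  LinearIndependent ℤ fun j => clP E ξ (c j)

end cls

/-- for all `n` there are a number field `L`, curves `E i` over `L` which over `Qb` are the curves
`E₀ i`, and groups `G i` of points of the curves `E i` over `L` with the property `SelfP` and of rank
`n` -/
def HighP (E₀ : Fin s → WeierstrassCurve K) : Prop :=
  ∀ n : ℕ, ∃ (L : Type) (_ : Field L) (_ : NumberField L) (_ : Algebra L Qb)
    (E : Fin s → WeierstrassCurve L) (G : ∀ i, AddSubgroup (Pt E i))
    (R : ∀ i, Fin n → Pt E i), SelfP E G ∧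
      ∀ i, (E i)⁄Qb = (E₀ i)⁄Qb ∧ (E i).IsElliptic ∧ Base (G i) (R i)

variable {F : ∀ D, (Fin D → Fin s) → Type} [∀ D μ, Field (F D μ)] [∀ D μ, Algebra Qb (F D μ)]
  (ξ : ∀ D μ a, ((prd E μ a)⁄(F D μ)).toAffine.Point) (h : ∀ i, Pt E i → ℝ)
  (G : ∀ i, AddSubgroup (Pt E i))

/-- the height pairing is non-degenerate modulo torsion -/
def NonDegP : Prop :=
  ∀ (r D D' : ℕ) (hr : r = D + 1 + D') (κ : Fin r → Fin s) (c : Fp (Pt E) κ D), HomP c →
    OnP G c → (∀ c' : Fp (Pt E) κ D', HomP c' → OnP G c' → pairP hr h c c' = 0) →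
    IsOfFinAddOrder (clP E (ξ D) c)

/-- ranks and determinants: if `R i` is a basis of a subgroup of `G i` with torsion quotient, of rank
`ρ i`, then the regulators are not zero, the group of classes has the rank `∑ mlt i * ρ i`, and the
determinants of the height pairing are rational multiples of the product of the powers with the
exponents `mlt i` of the regulators of the `R i`, non-zero if and only if the classes are linearly
independent -/
def DetsP : Prop :=
  ∀ (ρ : Fin s → ℕ) (R : ∀ i, Fin (ρ i) → Pt E i), (∀ i, Base (G i) (R i)) →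
    (∀ i, Reg (h i) (R i) ≠ 0) ∧
    ∀ (r D D' : ℕ) (hr : r = D + 1 + D') (κ : Fin r → Fin s),
      rkS (VP E (ξ D) G κ) = (∑ i, mlt κ D i * ρ i : ℕ) ∧
      ∀ (c : Fin (∑ i, mlt κ D i * ρ i) → Fp (Pt E) κ D)
        (c' : Fin (∑ i, mlt κ D i * ρ i) → Fp (Pt E) κ D'), FamP G c → FamP G c' →
        ∃ q : ℚ, DtP hr h c c' = q * ∏ i, Reg (h i) (R i) ^ mlt κ D i ∧
          (q ≠ 0 ↔ IndP E (ξ D) c ∧ IndP E (ξ D') c')

end Pool.Agent.LibRP11
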