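import Pool.Agent.LibRP11.G4
import Pool.Agent.LibRP11.G5
import Pool.Agent.LibRP11.G6
import Pool.Agent.LibRP11.G8
import Pool.Agent.LibRP11.G8b

/-!
The height pairing of cycles on products of elliptic curves: the theorem.
-/

open WeierstrassCurve Pool.Agent.LibBH2 Pool.Agent.LibIG50 Pool.Agent.LibCHd Pool.Agent.LibGG
  Pool.Agent.LibAC34 Pool.Agent.LibAF11 Pool.Agent.LibRG11
open Pool.Agent.LibEP66 (Blk prd mlt)
open scoped Classical

namespace Pool.Agent.LibRP11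

/-- **The theorem.** -/
theorem regulatorsP {K : Type} [Field K] [NumberField K] [Algebra K Qb] {s : ℕ}
    (E : Fin s → WeierstrassCurve K) (hE : ∀ i, (E i).IsElliptic) (hinj : Function.Injective E)
    {F : ∀ D, (Fin D → Fin s) → Type} [∀ D μ, Field (F D μ)] [∀ D μ, Algebra Qb (F D μ)]
    {ξ : ∀ D μ a, ((prd E μ a)⁄(F D μ)).toAffine.Point}
    (hξ : ∀ D μ, IsGen 0 (Algebra.ofId Qb (F D μ)) (prd E μ) (ξ D μ)) :
    ∃ h : ∀ i, Pt E i → ℝ, (∀ i h', IsCan (E i) h' ↔ h' = h i) ∧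
      (∀ B, IsHtP E ξ h B ↔ ∀ (r D D' : ℕ) (hr : r = D + 1 + D') (κ : Fin r → Fin s)
        (c : Fp (Pt E) κ D) (c' : Fp (Pt E) κ D'), HomP c → HomP c' →
        B r κ D D' c c' = pairP hr h c c') ∧
      (∀ G, (NonDegP E ξ h G ↔ SelfP E G) ∧ (SelfP E G → DetsP E ξ h G)) ∧
      HighP E ∧ ∀ i, Module.rank ℤ (Pt E i) ≤ 1 → SelfT fun _ : Fin 1 => E i := by
  have := hE
  choose h hh using fun i => exists_can (E i)
  refine ⟨h, fun i h' => ⟨fun hc => hc.unique (hh i), fun hc => hc ▸ hh i⟩,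
    fun B => isHtP_iff hE hinj hξ (fun i => (hh i).1) B,
    fun G => ⟨⟨selfP_of_nonDegP hξ fun i => (hh i).1, fun hG => nonDegP hE hinj hξ
      (fun i => (hh i).1) (fun i P => ((hh i).eq_zero_iff P).1) hG⟩, fun hG =>
      detsP hE hinj hξ (fun i => (hh i).1) (fun i P => ((hh i).eq_zero_iff P).1)
        (fun i => (hh i).finite) hG⟩,
    highP E hE, fun i hi => selfP_one (E i) (cyc_of_rank (E i) hi)⟩

end Pool.Agent.LibRP11
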